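import Mathlib

set_option autoImplicit false

/-! Shift graphs (large odd girth and chromatic number), minimal non-colourable subgraphs. -/

namespace Pool.Agent.H889Z.Crit

open SimpleGraph

def OG {V : Type} (G : SimpleGraph V) (l : ℕ) : Prop :=
  ∀ (v : V) (p : G.Walk v v), Odd p.length → l ≤ p.length

lemma OG.mono {V : Type} {G G' : SimpleGraph V} {l : ℕ} (h : OG G l) (hle : G' ≤ G) : OG G' l := by
  intro v p hp
  have := h v (p.mapLe hle) (by simpa using hp)
  simpa using this

lemma OG.of_hom {V W : Type} {G : SimpleGraph V} {G' : SimpleGraph W} {l : ℕ} (h : OG G l)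
    (f : G' →g G) : OG G' l := by
  intro v p hp
  have := h (f v) (p.map f) (by simpa using hp)
  simpa using this

def SR (t M : ℕ) (x y : Fin t → Fin M) : Prop :=
  ∃ X : Fin (t + 1) → Fin M, StrictMono X ∧ x = Fin.init X ∧ y = Fin.tail X

lemma noncol (t : ℕ) : ∀ (C : Type) [Finite C], ∃ M : ℕ, ∀ c : (Fin (t + 1) → Fin M) → C,
    ∃ x y, SR (t + 1) M x y ∧ c x = c y := by
  induction t with
  | zero =>
    intro C _
    refine ⟨Nat.card C + 1, fun c => ?_⟩
    have : Fintype C := Fintype.ofFinite C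
    obtain ⟨a, b, hab, h⟩ := Fintype.exists_ne_map_eq_of_card_lt
      (fun a : Fin (Nat.card C + 1) => c (fun _ => a)) (by simp)
    have key : ∀ a b : Fin (Nat.card C + 1), a < b →
        SR (0 + 1) (Nat.card C + 1) (fun _ => a) (fun _ => b) := by
      intro a b hab
      refine ⟨![a, b], ?_, ?_, ?_⟩
      · intro i j hij
        fin_cases i <;> fin_cases j <;> simp_all
      · funext i; fin_cases i; rfl
      · funext i; fin_cases i; rfl
    rcases lt_or_gt_of_ne hab with h' | h'
    · exact ⟨_, _, key a b h', h⟩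
    · exact ⟨_, _, key b a h', h.symm⟩
  | succ t ih =>
    intro C _
    obtain ⟨M, hM⟩ := ih (Set C)
    refine ⟨M, fun c => ?_⟩
    obtain ⟨x, y, ⟨X, hX, rfl, rfl⟩, hc⟩ :=
      hM (fun x => {z | ∃ X : Fin (t + 1 + 1) → Fin M, StrictMono X ∧ Fin.init X = x ∧ c X = z})
    have h1 : c X ∈ {z | ∃ Y : Fin (t + 1 + 1) → Fin M, StrictMono Y ∧
        Fin.init Y = Fin.tail X ∧ c Y = z} := by
      rw [← hc]; exact ⟨X, hX, rfl, rfl⟩
    obtain ⟨Y, hY, h2, h3⟩ := h1
    refine ⟨X, Y, ⟨Fin.cons (X 0) Y, ?_, ?_, ?_⟩, h3.symm⟩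
    · rw [Fin.strictMono_iff_lt_succ]
      intro i
      refine Fin.cases ?_ (fun j => ?_) i
      · have : Y 0 = X 1 := congrFun h2 0
        simp only [Fin.castSucc_zero, Fin.cons_zero, Fin.cons_succ]
        rw [this]
        exact hX (by simp)
      · rw [← Fin.succ_castSucc, Fin.cons_succ, Fin.cons_succ]
        exact hY (Fin.castSucc_lt_succ)
    · funext i
      refine Fin.cases ?_ (fun j => ?_) i
      · rfl
      · have := congrFun h2 j
        simp only [Fin.init, Fin.tail] at this ⊢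
        rw [← Fin.succ_castSucc, Fin.cons_succ, this]
    · simp

lemma SR.step {t M : ℕ} {x y : Fin t → Fin M} (h : SR t M x y) (i j : Fin t)
    (hij : (j : ℕ) = i + 1) : y i = x j := by
  obtain ⟨X, -, rfl, rfl⟩ := h
  simp only [Fin.init, Fin.tail]
  congr 1
  ext
  simp [hij]

lemma SR.inj {t M : ℕ} {x y : Fin t → Fin M} (h : SR t M x y) :
    Function.Injective x ∧ Function.Injective y := by
  obtain ⟨X, hX, rfl, rfl⟩ := h
  exact ⟨hX.injective.comp (Fin.castSucc_injective _), hX.injective.comp (Fin.succ_injective _)⟩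

lemma shift_walk {t M : ℕ} {x y : Fin t → Fin M} (p : (fromRel (SR t M)).Walk x y) :
    ∃ d : ℤ, -(p.length : ℤ) ≤ d ∧ d ≤ p.length ∧ (d - p.length) % 2 = 0 ∧
      ∀ i j : Fin t, p.length ≤ i → i + p.length < t → (j : ℤ) = i - d → y j = x i := by
  induction p with
  | nil =>
    refine ⟨0, by simp, by simp, by simp, fun i j _ _ h => ?_⟩
    congr 1
    ext
    omega
  | @cons x x' y h p ih =>
    obtain ⟨d, h1, h2, h3, h4⟩ := ih
    rw [fromRel_adj] at h
    rcases h.2 with h | h
    · refine ⟨d + 1, ?_, ?_, ?_, fun i j g1 g2 g3 => ?_⟩ <;>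
        simp only [Walk.length_cons] at * <;> try (push_cast; omega)
      have := h4 ⟨i - 1, by omega⟩ j (by simp only; omega) (by simp only; omega)
        (by simp only; omega)
      rw [this]
      exact h.step _ _ (by simp only; omega)
    · refine ⟨d - 1, ?_, ?_, ?_, fun i j g1 g2 g3 => ?_⟩ <;>
        simp only [Walk.length_cons] at * <;> try (push_cast; omega)
      have := h4 ⟨i + 1, by omega⟩ j (by simp only; omega) (by simp only; omega)
        (by simp only; omega)
      rw [this]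
      exact (h.step _ _ rfl).symm

lemma exists_high (l m : ℕ) : ∃ (W : Type) (_ : Fintype W) (H : SimpleGraph W),
    OG H l ∧ ¬ H.Colorable m := by
  obtain ⟨M, hM⟩ := noncol (2 * l) (Fin m)
  refine ⟨Fin (2 * l + 1) → Fin M, inferInstance, fromRel (SR _ M), ?_, ?_⟩
  · intro v p hp
    by_contra hlt
    obtain ⟨d, h1, h2, h3, h4⟩ := shift_walk p
    obtain ⟨r, hr⟩ := hp
    have hinj : Function.Injective v := by
      cases p with
      | nil => simp at hr
      | cons h q =>
        rw [fromRel_adj] at h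
        rcases h.2 with h | h
        · exact h.inj.1
        · exact h.inj.2
    have := h4 ⟨p.length, by omega⟩ ⟨(p.length - d).toNat, by omega⟩ le_rfl
      (by simp only; omega) (by simp only; omega)
    have := congrArg Fin.val (hinj this)
    simp only at this
    omega
  · rintro ⟨c⟩
    obtain ⟨x, y, h, hc⟩ := hM c
    refine c.valid (v := x) (w := y) ?_ hc
    rw [fromRel_adj]
    refine ⟨?_, Or.inl h⟩
    obtain ⟨X, hX, rfl, rfl⟩ := h
    intro he
    have := congrFun he 0
    simp only [Fin.init, Fin.tail] at this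
    exact absurd (hX.injective this) (by simp [Fin.ext_iff])

lemma exists_min {V : Type} [Finite V] (G : SimpleGraph V) (m : ℕ) (h : ¬ G.Colorable m) :
    ∃ G1 ≤ G, ¬ G1.Colorable m ∧ ∀ e ∈ G1.edgeSet, (G1.deleteEdges {e}).Colorable m := by
  obtain ⟨G1, h1, h2⟩ := exists_minimal_le_of_wellFoundedLT (fun K : SimpleGraph V =>
    ¬ K.Colorable m) G h
  refine ⟨G1, h1, h2.1, fun e he => ?_⟩
  by_contra hc
  have := h2.2 hc (G1.deleteEdges_le {e})
  have h3 := edgeSet_mono this he
  simp at h3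

/-- A graph of large odd girth that is not `m`-colourable but becomes so after deleting `uw`. -/
lemma exists_gadget (l m : ℕ) (hm : 1 ≤ m) : ∃ (W : Type) (_ : Fintype W) (H : SimpleGraph W)
    (u w : W), OG H l ∧ ¬ H.Colorable m ∧ H.Adj u w ∧
      ∀ a : Fin m, ∃ c : W → Fin m, c u = a ∧ c w = a ∧
        ∀ x y, H.Adj x y → s(x, y) ≠ s(u, w) → c x ≠ c y := by
  obtain ⟨W, _, H0, h1, h2⟩ := exists_high l m
  obtain ⟨H, hle, h3, h4⟩ := exists_min H0 m h2
  have hne : H ≠ ⊥ := by
    rintro rfl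
    exact h3 ⟨Coloring.mk (fun _ => ⟨0, hm⟩) (by simp)⟩
  obtain ⟨u, w, huw⟩ := ne_bot_iff_exists_adj.1 hne
  obtain ⟨c⟩ := h4 s(u, w) huw
  have hc : ∀ x y, H.Adj x y → s(x, y) ≠ s(u, w) → c x ≠ c y := fun x y h h' =>
    c.valid (by simp only [deleteEdges_adj, Set.mem_singleton_iff]; exact ⟨h, h'⟩)
  have heq : c u = c w := by
    by_contra hne'
    refine h3 ⟨Coloring.mk c ?_⟩
    intro x y h
    by_cases h' : s(x, y) = s(u, w)
    · rcases Sym2.eq_iff.1 h' with ⟨rfl, rfl⟩ | ⟨rfl, rfl⟩
      · exact hne'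
      · exact fun h => hne' h.symm
    · exact hc x y h h'
  refine ⟨W, inferInstance, H, u, w, h1.mono hle, h3, huw, fun a => ?_⟩
  refine ⟨fun x => Equiv.swap (c u) a (c x), by simp, by simp [← heq], fun x y h h' he => ?_⟩
  exact hc x y h h' ((Equiv.swap _ _).injective he)

lemma finish {V : Type} [Fintype V] (G : SimpleGraph V) (l m N : ℕ) (hm : 1 ≤ m) (c : ℝ)
    (hc : 0 ≤ c) (hog : OG G l) (hn : ¬ G.Colorable m) (S : Finset (Sym2 V))
    (hS : ∀ e ∈ S, (G.deleteEdges {e}).Colorable m) (hN : N * N ≤ S.card)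
    (hcard : c * (Fintype.card V : ℝ) ^ 2 ≤ S.card) :
    ∃ n : ℕ, N ≤ n ∧ ∃ G : SimpleGraph (Fin n),
        G.chromaticNumber = ((m + 1 : ℕ) : ℕ∞) ∧
        (∀ e ∈ G.edgeSet, (G.deleteEdges {e}).Colorable m) ∧
        (∀ v : Fin n, ∃ w : Fin n, G.Adj v w) ∧
        (∀ (v : Fin n) (p : G.Walk v v), p.IsCycle → Odd p.length → l ≤ p.length) ∧
        c * (n : ℝ) ^ 2 ≤ (Nat.card G.edgeSet : ℝ) := by
  classical
  obtain ⟨H, hle, h3, h4⟩ := exists_min G m hn
  have hSH : ∀ e ∈ S, e ∈ H.edgeSet := by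
    intro e he
    by_contra hne
    refine h3 ((hS e he).mono_left ?_)
    intro x y hxy
    simp only [deleteEdges_adj, Set.mem_singleton_iff]
    exact ⟨hle hxy, fun h => hne (h ▸ hxy)⟩
  set n := Fintype.card H.support with hn'
  let φ : Fin n ≃ H.support := (Fintype.equivFin H.support).symm
  let ι : Fin n ↪ V := φ.toEmbedding.trans (Function.Embedding.subtype _)
  have hι : ∀ x y, H.Adj x y → ∃ a, ι a = x := fun x y h =>
    ⟨φ.symm ⟨x, y, h⟩, by simp [ι]⟩
  let K : SimpleGraph (Fin n) := H.comap ι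
  have hK : ∀ a b, K.Adj a b ↔ H.Adj (ι a) (ι b) := fun a b => Iff.rfl
  have hedge : S.card ≤ Nat.card K.edgeSet := by
    have h1 : H.edgeSet ⊆ Sym2.map ι '' K.edgeSet := by
      intro e he
      induction e using Sym2.ind with
      | _ x y =>
        obtain ⟨a, rfl⟩ := hι x y he
        obtain ⟨b, rfl⟩ := hι y _ (H.adj_symm he)
        exact ⟨s(a, b), he, rfl⟩
    calc S.card = (S : Set (Sym2 V)).ncard := by simp
      _ ≤ (Sym2.map ι '' K.edgeSet).ncard :=
        Set.ncard_le_ncard (fun e he => h1 (hSH e he)) (Set.toFinite _)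
      _ ≤ K.edgeSet.ncard := Set.ncard_image_le (Set.toFinite _)
      _ = Nat.card K.edgeSet := rfl
  have hedge2 : Nat.card K.edgeSet ≤ n * n := by
    have h1 : K.edgeSet ⊆ (fun q : Fin n × Fin n => s(q.1, q.2)) '' Set.univ := by
      intro e _
      induction e using Sym2.ind with
      | _ x y => exact ⟨(x, y), trivial, rfl⟩
    calc Nat.card K.edgeSet = K.edgeSet.ncard := rfl
      _ ≤ _ := Set.ncard_le_ncard h1 (Set.toFinite _)
      _ ≤ (Set.univ : Set (Fin n × Fin n)).ncard := Set.ncard_image_le (Set.toFinite _)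
      _ = n * n := by simp [Set.ncard_univ]
  have hnV : n ≤ Fintype.card V := by simpa using Fintype.card_le_of_embedding ι
  have hKn : ¬ K.Colorable m := by
    rintro ⟨col⟩
    refine h3 ⟨Coloring.mk (fun x => if h : x ∈ H.support then col (φ.symm ⟨x, h⟩) else ⟨0, hm⟩) ?_⟩
    intro x y h
    have hx : x ∈ H.support := ⟨y, h⟩
    have hy : y ∈ H.support := ⟨x, h.symm⟩
    simp only [hx, hy, dif_pos]
    apply col.valid
    rw [hK]
    simpa [ι] using h
  have hKe : ∀ e ∈ K.edgeSet, (K.deleteEdges {e}).Colorable m := by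
    intro e he
    induction e using Sym2.ind with
    | _ a b =>
      obtain ⟨col⟩ := h4 s(ι a, ι b) he
      refine ⟨Coloring.mk (fun x => col (ι x)) ?_⟩
      intro x y h
      apply col.valid
      simp only [deleteEdges_adj, Set.mem_singleton_iff] at h ⊢
      refine ⟨h.1, fun h' => h.2 ?_⟩
      rcases Sym2.eq_iff.1 h' with ⟨g1, g2⟩ | ⟨g1, g2⟩
      · rw [ι.injective g1, ι.injective g2]
      · rw [ι.injective g1, ι.injective g2, Sym2.eq_swap]
  refine ⟨n, ?_, K, ?_, hKe, ?_, ?_, ?_⟩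
  · exact Nat.mul_self_le_mul_self_iff.1 (hN.trans (hedge.trans hedge2))
  · have hne : K ≠ ⊥ := by
      intro h
      rw [h] at hKn
      exact hKn ⟨Coloring.mk (fun _ => ⟨0, hm⟩) (by simp)⟩
    obtain ⟨a, b, hab⟩ := ne_bot_iff_exists_adj.1 hne
    obtain ⟨col⟩ := hKe s(a, b) hab
    have hcol : K.Colorable (m + 1) := by
      refine ⟨Coloring.mk (fun x => if x = a then Fin.last m else (col x).castSucc) ?_⟩
      intro x y h
      have hxy := h.ne
      by_cases hx : x = a
      · have hy : y ≠ a := fun h => hxy (hx.trans h.symm)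
        simp only [hx, hy, if_true, if_false]
        exact (Fin.castSucc_ne_last _).symm
      · by_cases hy : y = a
        · simp only [hx, hy, if_true, if_false]
          exact Fin.castSucc_ne_last _
        · simp only [hx, hy, if_false]
          intro h'
          refine col.valid ?_ (Fin.castSucc_injective _ h')
          simp only [deleteEdges_adj, Set.mem_singleton_iff]
          refine ⟨h, fun h'' => ?_⟩
          rcases Sym2.eq_iff.1 h'' with ⟨g1, -⟩ | ⟨-, g2⟩
          · exact hx g1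
          · exact hy g2
    apply le_antisymm hcol.chromaticNumber_le
    rw [Nat.cast_add, Nat.cast_one]
    apply Order.add_one_le_of_lt
    by_contra hlt
    exact hKn (chromaticNumber_le_iff_colorable.1 (not_lt.1 hlt))
  · intro v
    obtain ⟨y, hy⟩ := (φ v).2
    obtain ⟨b, rfl⟩ := hι y _ (H.adj_symm hy)
    exact ⟨b, hy⟩
  · intro v p _ hp
    exact (hog.mono hle).of_hom (Hom.comap ι H) v p hp
  · have h1 : (n : ℝ) ≤ Fintype.card V := by exact_mod_cast hnV
    have h2 : (S.card : ℝ) ≤ Nat.card K.edgeSet := by exact_mod_cast hedge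
    calc c * (n : ℝ) ^ 2 ≤ c * (Fintype.card V : ℝ) ^ 2 := by gcongr
      _ ≤ _ := hcard.trans h2

end Pool.Agent.H889Z.Crit
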