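import Pool.Agent.H889Z.CritBase

set_option autoImplicit false

/-! Dense critical graphs of large odd girth. -/

namespace Pool.Agent.H889Z.Crit

open SimpleGraph Sum

section abstr

variable {A T E W : Type} (H : SimpleGraph W) (u w : W) (src tgt : Bool → E → T)
  (act : Bool → E → Prop) (nb : Bool → A → T → Prop)

inductive R : Bool × (A ⊕ T ⊕ E × W) → Bool × (A ⊕ T ⊕ E × W) → Prop
  | ab (a a' : A) : R (false, inl a) (true, inl a')
  | an (b : Bool) (a : A) (t : T) : nb b a t → R (b, inl a) (b, inr (inl t))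
  | gg (b : Bool) (e : E) (h h' : W) : act b e → H.Adj h h' → h ≠ u → h' ≠ u →
      R (b, inr (inr (e, h))) (b, inr (inr (e, h')))
  | gs (b : Bool) (e : E) (h : W) : act b e → H.Adj u h → h ≠ w →
      R (b, inr (inr (e, h))) (b, inr (inl (src b e)))
  | gt (b : Bool) (e : E) : act b e → R (b, inr (inr (e, w))) (b, inr (inl (tgt b e)))

def psi : Bool × (A ⊕ T ⊕ E × W) → W
  | (_, inl _) => u
  | (_, inr (inl _)) => u
  | (_, inr (inr q)) => q.2

def eps : Bool × (A ⊕ T ⊕ E × W) → Bool
  | (b, inl _) => !b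
  | (b, inr _) => b

variable {H u w src tgt act nb}

lemma R.proj (huw : H.Adj u w) {x y : Bool × (A ⊕ T ⊕ E × W)} (h : R H u w src tgt act nb x y) :
    (H.Adj (psi u x) (psi u y) ∧ eps x = eps y) ∨ (psi u x = psi u y ∧ eps x ≠ eps y) := by
  cases h with
  | ab a a' => right; simp [psi, eps]
  | an b a t h => right; simp [psi, eps]
  | gg b e h h' _ h2 _ _ => left; exact ⟨h2, rfl⟩
  | gs b e h _ h2 _ => left; exact ⟨h2.symm, rfl⟩
  | gt b e _ => left; exact ⟨huw.symm, rfl⟩

lemma adj_of_R (huw : H.Adj u w) {x y : Bool × (A ⊕ T ⊕ E × W)} (h : R H u w src tgt act nb x y) :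
    (fromRel (R H u w src tgt act nb)).Adj x y := by
  rw [fromRel_adj]
  refine ⟨?_, Or.inl h⟩
  rintro rfl
  rcases h.proj huw with h | h
  · exact h.1.ne rfl
  · exact h.2 rfl

lemma walk_proj (huw : H.Adj u w) {x y : Bool × (A ⊕ T ⊕ E × W)}
    (p : (fromRel (R H u w src tgt act nb)).Walk x y) :
    ∃ q : H.Walk (psi u x) (psi u y), q.length ≤ p.length ∧
      (q.length + (if eps x = eps y then 0 else 1)) % 2 = p.length % 2 := by
  induction p with
  | nil => exact ⟨.nil, by simp, by simp⟩
  | @cons x x' y h p ih =>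
    obtain ⟨q, h1, h2⟩ := ih
    have : (H.Adj (psi u x) (psi u x') ∧ eps x = eps x') ∨
        (psi u x = psi u x' ∧ eps x ≠ eps x') := by
      rw [fromRel_adj] at h
      rcases h.2 with h | h
      · exact h.proj huw
      · rcases h.proj huw with h | h
        · exact Or.inl ⟨h.1.symm, h.2.symm⟩
        · exact Or.inr ⟨h.1.symm, fun h' => h.2 h'.symm⟩
    rcases this with ⟨g1, g2⟩ | ⟨g1, g2⟩
    · refine ⟨.cons g1 q, by simpa using h1, ?_⟩
      simp only [Walk.length_cons, g2]
      omega
    · refine ⟨q.copy g1.symm rfl, by simp only [Walk.length_copy, Walk.length_cons]; omega, ?_⟩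
      simp only [Walk.length_copy, Walk.length_cons]
      revert h2 g2
      cases eps x <;> cases eps x' <;> cases eps y <;> simp <;> omega

lemma og_R {l : ℕ} (huw : H.Adj u w) (h : OG H l) : OG (fromRel (R H u w src tgt act nb)) l := by
  intro v p hp
  obtain ⟨q, h1, h2⟩ := walk_proj huw p
  simp only [if_true, add_zero] at h2
  exact (h _ q (Nat.odd_iff.2 (h2.trans (Nat.odd_iff.1 hp)))).trans h1

def Good {m : ℕ} (src tgt : Bool → E → T) (act : Bool → E → Prop) (b : Bool) (c : T → Fin m) :
    Prop := ∀ e, act b e → c (src b e) ≠ c (tgt b e)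

lemma noncol_R [Fintype A] {m : ℕ} (huw : H.Adj u w) (hH : ¬ H.Colorable m) (r : Bool → ℕ)
    (hr : m ≤ r false + r true + 1)
    (h : ∀ b (c : T → Fin m), Good src tgt act b c → ∀ Q : Finset (Fin m), Q.card ≤ r b →
      ∃ a, ∀ z ∈ Q, ∃ t, nb b a t ∧ c t = z) :
    ¬ (fromRel (R H u w src tgt act nb)).Colorable m := by
  classical
  rintro ⟨col⟩
  have hv : ∀ x y, R H u w src tgt act nb x y → col x ≠ col y := fun x y h =>
    col.valid (adj_of_R huw h)
  have good : ∀ b, Good src tgt act b (fun t => col (b, inr (inl t))) := by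
    intro b e he heq
    refine hH ⟨Coloring.mk (fun h => if h = u then col (b, inr (inl (src b e)))
      else col (b, inr (inr (e, h)))) ?_⟩
    have key : ∀ y, H.Adj u y → col (b, inr (inr (e, y))) ≠ col (b, inr (inl (src b e))) := by
      intro y hy
      by_cases hw : y = w
      · subst hw
        simp only at heq
        rw [heq]
        exact hv _ _ (R.gt b e he)
      · exact hv _ _ (R.gs b e y he hy hw)
    intro x y hxy
    by_cases hx : x = u
    · subst hx
      simp only [hxy.ne', if_true, if_false]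
      exact (key y hxy).symm
    · by_cases hy : y = u
      · subst hy
        simp only [hx, if_true, if_false]
        exact key x hxy.symm
      · simp only [hx, hy, if_false]
        exact hv _ _ (R.gg b e x y he hxy hx hy)
  have big : ∀ b, r b < (Finset.univ.image fun a : A => col (b, inl a)).card := by
    intro b
    by_contra hlt
    obtain ⟨a, ha⟩ := h b _ (good b) _ (not_lt.1 hlt)
    obtain ⟨t, h1, h2⟩ := ha (col (b, inl a)) (Finset.mem_image_of_mem _ (Finset.mem_univ a))
    exact hv _ _ (R.an b a t h1) h2.symm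
  have hd : Disjoint (Finset.univ.image fun a : A => col (false, inl a))
      (Finset.univ.image fun a : A => col (true, inl a)) := by
    rw [Finset.disjoint_left]
    intro z h1 h2
    obtain ⟨a, -, rfl⟩ := Finset.mem_image.1 h1
    obtain ⟨a', -, h3⟩ := Finset.mem_image.1 h2
    exact hv _ _ (R.ab a a') h3.symm
  have h1 := Finset.card_le_univ ((Finset.univ.image fun a : A => col (false, inl a)) ∪
      (Finset.univ.image fun a : A => col (true, inl a)))
  rw [Finset.card_union_of_disjoint hd, Fintype.card_fin] at h1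
  have := big false
  have := big true
  omega

lemma crit_R {m : ℕ}
    (hg : ∀ a : Fin m, ∃ c : W → Fin m, c u = a ∧ c w = a ∧
        ∀ x y, H.Adj x y → s(x, y) ≠ s(u, w) → c x ≠ c y)
    (a : Bool → A) (z : Fin m) (Q : Bool → Finset (Fin m)) (hd : Disjoint (Q false) (Q true))
    (hz : ∀ b, z ∉ Q b)
    (h : ∀ b, ∃ c : T → Fin m, Good src tgt act b c ∧ (∀ t, nb b (a b) t → c t ≠ z) ∧
      ∀ a', a' ≠ a b → ∃ y ∈ Q b, ∀ t, nb b a' t → c t ≠ y) :
    ((fromRel (R H u w src tgt act nb)).deleteEdges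
      {s((false, inl (a false)), (true, inl (a true)))}).Colorable m := by
  classical
  choose g g1 g2 g3 using hg
  choose c c1 c2 c3 using h
  choose y y1 y2 using c3
  let col : Bool × (A ⊕ T ⊕ E × W) → Fin m := fun v => match v with
    | (b, inl a') => if h : a' = a b then z else y b a' h
    | (b, inr (inl t)) => c b t
    | (b, inr (inr q)) => g (c b (src b q.1)) q.2
  have key : ∀ x x', R H u w src tgt act nb x x' →
      s(x, x') ≠ s((false, inl (a false)), (true, inl (a true))) → col x ≠ col x' := by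
    intro x x' h hne
    cases h with
    | ab a1 a2 =>
      simp only [col]
      by_cases h1 : a1 = a false <;> by_cases h2 : a2 = a true
      · exact absurd (by rw [h1, h2]) hne
      · simp only [h1, h2, dif_pos, dif_neg, not_false_eq_true]
        intro h; exact hz true (h ▸ y1 true a2 h2)
      · simp only [h1, h2, dif_pos, dif_neg, not_false_eq_true]
        intro h; exact hz false (h ▸ y1 false a1 h1)
      · simp only [h1, h2, dif_neg, not_false_eq_true]
        intro h; exact Finset.disjoint_left.1 hd (y1 false a1 h1) (h ▸ y1 true a2 h2)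
    | an b a1 t h =>
      simp only [col]
      by_cases h1 : a1 = a b
      · simp only [h1, dif_pos]
        exact (c2 b t (h1 ▸ h)).symm
      · simp only [h1, dif_neg, not_false_eq_true]
        exact (y2 b a1 h1 t h).symm
    | gg b e h h' _ h2 h3 h4 =>
      refine g3 _ _ _ h2 fun he => ?_
      rcases Sym2.eq_iff.1 he with ⟨q, -⟩ | ⟨-, q⟩
      · exact h3 q
      · exact h4 q
    | gs b e h _ h2 h3 =>
      have := g3 (c b (src b e)) u h h2 fun he => by
        rcases Sym2.eq_iff.1 he with ⟨-, q⟩ | ⟨-, q⟩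
        · exact h3 q
        · exact h2.ne q.symm
      rw [g1] at this
      exact this.symm
    | gt b e h1 =>
      simp only [col]
      rw [g2]
      exact c1 b e h1
  refine ⟨Coloring.mk col ?_⟩
  intro x x' h
  simp only [deleteEdges_adj, fromRel_adj, Set.mem_singleton_iff] at h
  rcases h.1.2 with h' | h'
  · exact key _ _ h' h.2
  · exact (key _ _ h' (by rw [Sym2.eq_swap]; exact h.2)).symm

end abstr

section conc

variable {m t N : ℕ}

def sr : (Fin m × Fin m) ⊕ (Fin t × ZMod N × Option (Fin m)) → Fin m ⊕ (Fin t × ZMod N)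
  | inl q => inl q.1
  | inr q => inr (q.1, q.2.1)

def tg : (Fin m × Fin m) ⊕ (Fin t × ZMod N × Option (Fin m)) → Fin m ⊕ (Fin t × ZMod N)
  | inl q => inl q.2
  | inr (s, v, none) => inr (s, v + 1)
  | inr (_, _, some j) => inl j

def ac (α : Fin t → Fin m) (x y : Fin m) :
    (Fin m × Fin m) ⊕ (Fin t × ZMod N × Option (Fin m)) → Prop
  | inl q => q.1 ≠ q.2
  | inr (_, _, none) => True
  | inr (s, _, some j) => j ≠ α s ∧ j ≠ x ∧ j ≠ y

def nbr (Q : Finset (Fin m)) (α : Fin t → Fin m) :
    (Fin t → ZMod N) ⊕ Finset (Fin m) → Fin m ⊕ (Fin t × ZMod N) → Prop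
  | inl f, τ => (∃ s, τ = inr (s, f s)) ∨ ∃ j ∈ Q, (∀ s, j ≠ α s) ∧ τ = inl j
  | inr Q', τ => Q' ≠ Q ∧ Q'.card = Q.card ∧ ∃ j ∈ Q', τ = inl j

lemma odd_cycle {C : Type} (hN : Odd N) (f : ZMod N → C) (p q : C) (h1 : ∀ v, f v = p ∨ f v = q)
    (h2 : ∀ v, f v ≠ f (v + 1)) : False := by
  have key : ∀ n : ℕ, (f (n : ZMod N) = f 0 ↔ Even n) := by
    intro n
    induction n with
    | zero => simp
    | succ n ih =>
      rw [Nat.even_add_one, ← ih]
      push_cast
      have a1 := h1 0
      have a2 := h1 n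
      have a3 := h1 (n + 1)
      have a4 := h2 n
      grind
  have := (key N).1 (by simp)
  exact (Nat.not_even_iff_odd.2 hN) this

lemma side_force (hN : Odd N) (Q : Finset (Fin m)) (α : Fin t → Fin m) (x y : Fin m)
    (c : Fin m ⊕ (Fin t × ZMod N) → Fin m) (hc : ∀ e, ac α x y e → c (sr e) ≠ c (tg e))
    (Q1 : Finset (Fin m)) (hQ : Q1.card ≤ Q.card) :
    ∃ a, ∀ z ∈ Q1, ∃ τ, nbr Q α a τ ∧ c τ = z := by
  classical
  have hinj : Function.Injective fun j => c (inl j) := by
    intro i j hij
    by_contra hne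
    exact hc (inl (i, j)) hne hij
  let σ := Equiv.ofBijective _ (Finite.injective_iff_bijective.1 hinj)
  have hσ : ∀ j, σ j = c (inl j) := fun j => rfl
  obtain ⟨Q2, h1, -, h2⟩ := Finset.exists_subsuperset_card_eq (Finset.subset_univ Q1) hQ
    (Finset.card_le_univ Q)
  by_cases hq : Q2.map σ.symm.toEmbedding = Q
  · have : ∀ s, ∃ v, c (inr (s, v)) = σ (α s) := by
      intro s
      by_contra hno
      push Not at hno
      refine odd_cycle hN (fun v => c (inr (s, v))) (σ x) (σ y) (fun v => ?_)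
        (fun v => hc (inr (s, v, none)) trivial)
      by_contra hne
      push Not at hne
      refine hc (inr (s, v, some (σ.symm (c (inr (s, v)))))) ⟨?_, ?_, ?_⟩ ?_
      · intro h; exact hno v (by rw [← h]; simp)
      · intro h; exact hne.1 (by rw [← h]; simp)
      · intro h; exact hne.2 (by rw [← h]; simp)
      · simp only [sr, tg]
        rw [← hσ]; simp
    choose f hf using this
    refine ⟨inl f, fun z hz => ?_⟩
    by_cases hs : ∃ s, σ.symm z = α s
    · obtain ⟨s, hs⟩ := hs
      exact ⟨inr (s, f s), Or.inl ⟨s, rfl⟩, by rw [hf, ← hs]; simp⟩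
    · push Not at hs
      refine ⟨inl (σ.symm z), Or.inr ⟨_, ?_, hs, rfl⟩, by rw [← hσ]; simp⟩
      rw [← hq]
      exact Finset.mem_map_of_mem _ (h1 hz)
  · refine ⟨inr (Q2.map σ.symm.toEmbedding), fun z hz => ⟨inl (σ.symm z),
      ⟨hq, by simp [h2], _, Finset.mem_map_of_mem _ (h1 hz), rfl⟩, by rw [← hσ]; simp⟩⟩

lemma side_crit (hN : 3 ≤ N) (Q : Finset (Fin m)) (hQ : Q.Nonempty) (α : Fin t → Fin m)
    (x y : Fin m) (hα : Function.Injective α) (hαQ : ∀ s, α s ∈ Q) (hx : ∀ s, α s ≠ x)
    (hy : ∀ s, α s ≠ y) (hxy : x ≠ y) (z : Fin m) (hz : z ∉ Q) (f : Fin t → ZMod N) :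
    ∃ c : Fin m ⊕ (Fin t × ZMod N) → Fin m, (∀ e, ac α x y e → c (sr e) ≠ c (tg e)) ∧
      (∀ τ, nbr Q α (inl f) τ → c τ ≠ z) ∧
      ∀ a', a' ≠ inl f → ∃ j ∈ Q, ∀ τ, nbr Q α a' τ → c τ ≠ j := by
  classical
  have : NeZero N := ⟨by omega⟩
  have : Fact (1 < N) := ⟨by omega⟩
  let c : Fin m ⊕ (Fin t × ZMod N) → Fin m := fun τ => match τ with
    | inl j => j
    | inr (s, v) => if (v - f s).val = 0 then α s else if (v - f s).val % 2 = 0 then x else y
  refine ⟨c, ?_, ?_, ?_⟩
  · rintro (⟨i, j⟩ | ⟨s, v, _ | j⟩) h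
    · exact h
    · simp only [c, sr, tg]
      have h1 : (v + 1 - f s).val = ((v - f s).val + 1) % N := by
        rw [show v + 1 - f s = (v - f s) + 1 by ring, ZMod.val_add, ZMod.val_one]
      have h2 : (v - f s).val < N := ZMod.val_lt _
      have a1 := hx s
      have a2 := hy s
      rw [h1]
      generalize (v - f s).val = d at *
      rcases Nat.lt_or_ge (d + 1) N with h3 | h3
      · rw [Nat.mod_eq_of_lt h3]
        split_ifs <;> first | omega | grind
      · rw [show d + 1 = N by omega, Nat.mod_self]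
        split_ifs <;> first | omega | grind
    · obtain ⟨h1, h2, h3⟩ := h
      simp only [c, sr, tg]
      split_ifs
      · exact h1.symm
      · exact h2.symm
      · exact h3.symm
  · rintro τ (⟨s, rfl⟩ | ⟨j, hj, -, rfl⟩)
    · simp only [c, sub_self, ZMod.val_zero, if_true]
      intro h; exact hz (h ▸ hαQ s)
    · intro h; exact hz (h ▸ hj)
  · rintro (f' | Q') hne
    · have : ∃ s, f' s ≠ f s := by
        by_contra hno
        push Not at hno
        exact hne (congrArg inl (funext hno))
      obtain ⟨s, hs⟩ := this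
      refine ⟨α s, hαQ s, ?_⟩
      rintro τ (⟨s', rfl⟩ | ⟨j, -, hj, rfl⟩)
      · simp only [c]
        split_ifs with g1 g2
        · intro h
          rw [hα h, ZMod.val_eq_zero, sub_eq_zero] at g1
          exact hs g1
        · exact (hx s).symm
        · exact (hy s).symm
      · exact hj s
    · by_cases h : Q' ≠ Q ∧ Q'.card = Q.card
      · have : ∃ j ∈ Q, j ∉ Q' := by
          by_contra hno
          push Not at hno
          exact h.1 (Finset.eq_of_subset_of_card_le hno h.2.le).symm
        obtain ⟨j, h1, h2⟩ := this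
        refine ⟨j, h1, ?_⟩
        rintro τ ⟨-, -, j', hj', rfl⟩ he
        exact h2 (he ▸ hj')
      · obtain ⟨j, hj⟩ := hQ
        exact ⟨j, hj, fun τ hτ => absurd ⟨hτ.1, hτ.2.1⟩ h⟩

end conc

theorem core (l m t : ℕ) (ht : 1 ≤ t) (hm : 2 * t + 1 ≤ m) : ∃ K : ℕ, ∀ N : ℕ, Odd N → 3 ≤ N →
    ∃ (V : Type) (_ : Fintype V) (G : SimpleGraph V) (S : Finset (Sym2 V)), OG G l ∧
      ¬ G.Colorable m ∧ (∀ e ∈ S, (G.deleteEdges {e}).Colorable m) ∧ S.card = N ^ t * N ^ t ∧
      Fintype.card V ≤ 2 * N ^ t + K * N := by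
  classical
  obtain ⟨W, _, H, u, w, h1, h2, h3, h4⟩ := exists_gadget l m (by omega)
  refine ⟨2 * (2 ^ m + m + t + (m * m + t * (m + 1)) * Fintype.card W), fun N hN hN3 => ?_⟩
  have : NeZero N := ⟨by omega⟩
  let Q : Bool → Finset (Fin m) := fun b =>
    if b then Finset.univ.filter (fun i => t < i.val) else Finset.univ.filter (fun i => i.val < t)
  let α : Bool → Fin t → Fin m := fun b s =>
    if b then ⟨t + 1 + s, by omega⟩ else ⟨s, by omega⟩
  let x : Bool → Fin m := fun b => if b then ⟨0, by omega⟩ else ⟨t, by omega⟩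
  let y : Bool → Fin m := fun b => if b then ⟨t, by omega⟩ else ⟨t + 1, by omega⟩
  let z : Fin m := ⟨t, by omega⟩
  let G := fromRel (R H u w (fun _ => sr (m := m) (t := t) (N := N)) (fun _ => tg)
    (fun b => ac (α b) (x b) (y b)) (fun b => nbr (Q b) (α b)))
  refine ⟨_, inferInstance, G, Finset.univ.image fun q : (Fin t → ZMod N) × (Fin t → ZMod N) =>
    s((false, inl (inl q.1)), (true, inl (inl q.2))), og_R h3 h1, ?_, ?_, ?_, ?_⟩
  · refine noncol_R h3 h2 (fun b => (Q b).card) ?_ fun b c hc Q1 hQ1 =>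
      side_force hN (Q b) (α b) (x b) (y b) c hc Q1 hQ1
    have hsub : (Finset.univ : Finset (Fin m)) ⊆ insert z (Q false ∪ Q true) := by
      intro i _
      simp only [Q, z, Finset.mem_insert, Finset.mem_union, Fin.ext_iff]
      simp
      omega
    have a1 := Finset.card_le_card hsub
    have a2 := Finset.card_insert_le z (Q false ∪ Q true)
    have a3 := Finset.card_union_le (Q false) (Q true)
    simp only [Finset.card_univ, Fintype.card_fin] at a1
    omega
  · intro e he
    obtain ⟨q, -, rfl⟩ := Finset.mem_image.1 he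
    have hzQ : ∀ b, z ∉ Q b := by
      intro b; cases b <;> simp [Q, z]
    refine crit_R h4 (fun b => inl (if b then q.2 else q.1)) z Q ?_ hzQ fun b => ?_
    · rw [Finset.disjoint_left]
      intro i
      simp [Q]
      omega
    · refine side_crit hN3 (Q b) ⟨α b ⟨0, ht⟩, ?_⟩ (α b) (x b) (y b) ?_ ?_ ?_ ?_ ?_ z (hzQ b) _
      · cases b <;> simp [Q, α]; omega
      · intro s s' h
        cases b <;> simp [α, Fin.ext_iff] at h <;> exact Fin.ext h
      · intro s; cases b <;> simp [Q, α]; omega
      · intro s; have := s.2; cases b <;> simp [x, α, Fin.ext_iff] <;> omega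
      · intro s; have := s.2; cases b <;> simp [y, α, Fin.ext_iff] <;> omega
      · cases b <;> simp [x, y, Fin.ext_iff]; omega
  · rw [Finset.card_image_of_injective]
    · simp
    · rintro ⟨f, g⟩ ⟨f', g'⟩ h
      simpa using h
  · simp only [Fintype.card_prod, Fintype.card_sum, Fintype.card_bool, Fintype.card_fun,
      Fintype.card_fin, ZMod.card, Fintype.card_finset, Fintype.card_option]
    have e1 : 2 ^ m ≤ 2 ^ m * N := Nat.le_mul_of_pos_right _ (by omega)
    have e2 : m ≤ m * N := Nat.le_mul_of_pos_right _ (by omega)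
    have e3 : m * m * Fintype.card W ≤ m * m * Fintype.card W * N :=
      Nat.le_mul_of_pos_right _ (by omega)
    nlinarith

end Pool.Agent.H889Z.Crit
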