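import Pool.Agent.H851Z.LR.KTriv

/-!
Every K-trivial set has a primitive recursive approximation.
-/

set_option autoImplicit false

namespace Pool.Agent.H889Z.KDelta

open Pool.Agent.Helper227 Pool.Agent.H851Z.LR
open scoped ENNReal

variable {U : List Bool →. List Bool}

theorem s1_K (hU : IsUniversal U) : S1 fun x : List Bool × ℕ => KU U x.1 ≤ x.2 := by
  have h : S1 fun x : List Bool × ℕ => ∃ τ : List Bool, x.1 ∈ U τ ∧ τ.length ≤ x.2 := by
    refine S1.ex (S1.and ?_ (S1.of_prim ?_))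
    · exact (s1_graph hU.1.1).comp
        (f := fun y : (List Bool × ℕ) × List Bool => (y.2, y.1.1))
        (Primrec.snd.pair (Primrec.fst.comp Primrec.fst))
    · exact Primrec.nat_le.comp (Primrec.list_length.comp Primrec.snd)
        (Primrec.snd.comp Primrec.fst)
  refine h.of_eq fun x => ⟨?_, fun hx => ?_⟩
  · rintro ⟨τ, h1, h2⟩
    exact (KU_le h1).trans h2
  · obtain ⟨τ, h1, h2⟩ := hU.exists_min x.1
    exact ⟨τ, h2, h1.le.trans hx⟩

theorem kraft_K (hU : IsUniversal U) (F : Finset (List Bool)) :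
    ∑ y ∈ F, (1 / 2 : ℝ≥0∞) ^ KU U y ≤ 1 := by
  classical
  choose p h1 h2 using hU.exists_min
  have hinj : Function.Injective p := fun y z h => Part.mem_unique (h2 y) (h ▸ h2 z)
  have h3 := kraft (P := fun τ => (U τ).Dom) hU.1.2 (F.image p) (by
    intro τ hτ
    obtain ⟨y, -, rfl⟩ := Finset.mem_image.mp hτ
    exact Part.dom_iff_mem.2 ⟨_, h2 y⟩)
  rw [Finset.sum_image (fun a _ b _ h => hinj h)] at h3
  simpa only [h1] using h3

theorem geo (K : Finset ℕ) (w : ℝ≥0∞) (h : ∀ k ∈ K, (1 / 2 : ℝ≥0∞) ^ k ≤ w) :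
    ∑ k ∈ K, (1 / 2 : ℝ≥0∞) ^ k ≤ 2 * w := by
  classical
  rcases K.eq_empty_or_nonempty with rfl | hK
  · simp
  obtain ⟨k0, h1, h2⟩ := K.exists_min_image id hK
  calc ∑ k ∈ K, (1 / 2 : ℝ≥0∞) ^ k
      = ∑ k ∈ K, (1 / 2 : ℝ≥0∞) ^ (k - k0) * (1 / 2 : ℝ≥0∞) ^ k0 := by
        refine Finset.sum_congr rfl fun k hk => ?_
        rw [← pow_add, Nat.sub_add_cancel (show k0 ≤ k from h2 k hk)]
    _ = (∑ j ∈ K.image (· - k0), (1 / 2 : ℝ≥0∞) ^ j) * (1 / 2 : ℝ≥0∞) ^ k0 := by
        rw [Finset.sum_image, Finset.sum_mul]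
        intro a ha b hb hab
        have := h2 a ha
        have := h2 b hb
        simp only [id] at *
        omega
    _ ≤ 2 * w := by
        refine mul_le_mul' ((ENNReal.sum_le_tsum _).trans (le_of_eq ?_)) (h k0 h1)
        rw [ENNReal.tsum_geometric, one_div, ENNReal.one_sub_inv_two, inv_inv]

theorem many_le (F : Finset (List Bool)) (i k : ℕ) (hF : F.card = 2 ^ i)
    (h : ∀ τ ∈ F, KU U τ ≤ k + i) : (1 / 2 : ℝ≥0∞) ^ k ≤ ∑ y ∈ F, (1 / 2 : ℝ≥0∞) ^ KU U y := by
  have h1 : ∀ y ∈ F, (1 / 2 : ℝ≥0∞) ^ (k + i) ≤ (1 / 2 : ℝ≥0∞) ^ KU U y := fun y hy =>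
    pow_le_pow_of_le_one zero_le (by simp) (h y hy)
  refine le_trans (le_of_eq ?_) (Finset.card_nsmul_le_sum F _ _ h1)
  rw [hF, nsmul_eq_mul, pow_add, Nat.cast_pow, Nat.cast_ofNat, mul_left_comm, ← mul_pow, one_div,
    ENNReal.mul_inv_cancel (by simp) (by simp), one_pow, mul_one]

theorem primrec_rep : Primrec fun n : ℕ => List.replicate n false :=
  (Primrec.list_map (g := fun (_ : ℕ) (_ : ℕ) => false) Primrec.list_range
    (Primrec.const false)).of_eq fun n =>
    List.ext_getElem (by simp) fun i h1 h2 => by simp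

theorem counting (hU : IsUniversal U) (b : ℕ) : ∃ M : ℕ, ∀ (n : ℕ) (F : Finset (List Bool)),
    (∀ τ ∈ F, τ.length = n ∧ KU U τ ≤ KU U (List.replicate n false) + b) → F.card ≤ M := by
  classical
  let R : ℕ × ℕ → Prop := fun x => ∃ y : ℕ × List (List Bool),
    (ND y.2 ∧ y.2.length = 2 ^ y.1) ∧ ∀ τ ∈ y.2, τ.length = x.1 ∧ KU U τ ≤ x.2 + y.1
  have hR : S1 R := by
    refine S1.ex (S1.and (S1.of_prim (PrimrecPred.and ?_ ?_)) ?_)
    · exact primrec_ND.comp (Primrec.snd.comp Primrec.snd)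
    · exact Primrec.eq.comp (Primrec.list_length.comp (Primrec.snd.comp Primrec.snd))
        ((Primrec₂.unpaired'.1 Nat.Primrec.pow).comp (Primrec.const 2)
          (Primrec.fst.comp Primrec.snd))
    · refine S1.all_mem (α := (ℕ × ℕ) × ℕ × List (List Bool)) (f := fun z => z.2.2)
        (p := fun z τ => τ.length = z.1.1 ∧ KU U τ ≤ z.1.2 + z.2.1) ?_
        (Primrec.snd.comp Primrec.snd)
      refine S1.and (S1.of_prim ?_) ?_
      · exact Primrec.eq.comp (Primrec.list_length.comp Primrec.snd)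
          (Primrec.fst.comp (Primrec.fst.comp Primrec.fst))
      · exact (s1_K hU).comp
          (f := fun w : ((ℕ × ℕ) × ℕ × List (List Bool)) × List Bool => (w.2, w.1.1.2 + w.1.2.1))
          (Primrec.snd.pair (Primrec.nat_add.comp
            (Primrec.snd.comp (Primrec.fst.comp Primrec.fst))
            (Primrec.fst.comp (Primrec.snd.comp Primrec.fst))))
  have hw : ∀ n k, R (n, k) → (1 / 2 : ℝ≥0∞) ^ k ≤
      ∑ y ∈ (allStr n).toFinset, (1 / 2 : ℝ≥0∞) ^ KU U y := by
    rintro n k ⟨⟨i, L⟩, ⟨h1, h2⟩, h3⟩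
    refine (many_le L.toFinset i k ?_ fun τ hτ => (h3 τ (List.mem_toFinset.mp hτ)).2).trans
      (Finset.sum_le_sum_of_subset fun τ hτ => ?_)
    · rw [List.toFinset_card_of_nodup ((nd_iff L).mp h1)]
      exact h2
    · exact List.mem_toFinset.mpr (mem_allStr.2 (h3 τ (List.mem_toFinset.mp hτ)).1)
  obtain ⟨c, hc⟩ := kc_s1 hR (g := fun x => x.2) Primrec.snd
    (out := fun x => List.replicate x.1 false) (primrec_rep.comp Primrec.fst) (b := 2) (by
      intro F hF
      rw [← Finset.sum_fiberwise_of_maps_to (g := Prod.fst) (t := F.image Prod.fst)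
        (fun x hx => Finset.mem_image_of_mem _ hx)]
      have h1 : ∀ n ∈ F.image Prod.fst, ∑ x ∈ F with x.1 = n, (1 / 2 : ℝ≥0∞) ^ x.2 ≤
          2 * ∑ y ∈ (allStr n).toFinset, (1 / 2 : ℝ≥0∞) ^ KU U y := by
        intro n _
        refine le_trans (le_of_eq ?_) (geo ((F.filter (fun x => x.1 = n)).image Prod.snd) _ ?_)
        · rw [Finset.sum_image]
          intro a ha b hb hab
          exact Prod.ext ((Finset.mem_filter.mp ha).2.trans (Finset.mem_filter.mp hb).2.symm) hab
        · intro k hk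
          obtain ⟨x, hx, rfl⟩ := Finset.mem_image.mp hk
          obtain ⟨h2, rfl⟩ := Finset.mem_filter.mp hx
          exact hw _ _ (hF x h2)
      refine (Finset.sum_le_sum h1).trans ?_
      rw [← Finset.mul_sum, ← Finset.sum_biUnion]
      · simpa using mul_le_mul_right (kraft_K hU _) (2 : ℝ≥0∞)
      · intro n _ m _ hnm
        rw [Function.onFun, Finset.disjoint_left]
        intro τ h2 h3
        exact hnm ((mem_allStr.1 (List.mem_toFinset.mp h2)).symm.trans
          (mem_allStr.1 (List.mem_toFinset.mp h3)))) hU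
  refine ⟨2 ^ (b + c + 1), fun n F hF => ?_⟩
  by_contra hlt
  obtain ⟨F', h1, h2⟩ := Finset.exists_subset_card_eq (not_le.mp hlt).le
  by_cases hk : c + 1 ≤ KU U (List.replicate n false)
  · have h3 : R (n, KU U (List.replicate n false) - (c + 1)) := by
      refine ⟨(b + c + 1, F'.toList), ⟨(nd_iff _).mpr F'.nodup_toList, by simpa using h2⟩,
        fun τ hτ => ?_⟩
      have := hF τ (h1 (Finset.mem_toList.mp hτ))
      exact ⟨this.1, by simp only; omega⟩
    have := hc _ h3
    simp only at this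
    omega
  · have h3 := many_le (U := U) F' (b + c + 1) 0 h2 (fun τ hτ => by
      have := (hF τ (h1 hτ)).2
      omega)
    have h4 : ∀ y ∈ F', (1 / 2 : ℝ≥0∞) ^ (b + c) ≤ (1 / 2 : ℝ≥0∞) ^ KU U y := fun y hy =>
      pow_le_pow_of_le_one zero_le (by simp) (by
        have := (hF y (h1 hy)).2
        omega)
    have h5 := (Finset.card_nsmul_le_sum F' _ _ h4).trans (kraft_K hU F')
    rw [h2, nsmul_eq_mul, pow_succ, Nat.cast_mul, Nat.cast_pow, Nat.cast_ofNat, mul_right_comm,
      ← mul_pow, one_div, ENNReal.mul_inv_cancel (by simp) (by simp), one_pow, one_mul] at h5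
    exact absurd h5 (by norm_num)

/-- A tree of bounded width has only isolated paths. -/
theorem isolated {T : List Bool → Prop} {M : ℕ}
    (hM : ∀ (n : ℕ) (F : Finset (List Bool)), (∀ τ ∈ F, τ.length = n ∧ T τ) → F.card ≤ M)
    (hT : ∀ x y, x <+: y → T y → T x) {A : ℕ → Bool} (hA : ∀ n, T (pre A n)) :
    ∃ n0, ∀ x, pre A n0 <+: x → (∀ m, ∃ z, x <+: z ∧ m ≤ z.length ∧ T z) →
      x = pre A x.length := by
  classical
  let Ext : List Bool → Prop := fun x => ∀ m, ∃ z, x <+: z ∧ m ≤ z.length ∧ T z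
  have hE1 : ∀ x y, x <+: y → Ext y → Ext x := fun x y h hy m => by
    obtain ⟨z, h1, h2⟩ := hy m
    exact ⟨z, h.trans h1, h2⟩
  have hE2 : ∀ x, Ext x → ∃ c : Bool, Ext (x ++ [c]) := by
    intro x hx
    by_contra hc
    simp only [Ext, not_exists, not_forall] at hc
    obtain ⟨m0, h0⟩ := hc false
    obtain ⟨m1, h1⟩ := hc true
    obtain ⟨z, ⟨w, rfl⟩, a2, a3⟩ := hx (m0 + m1 + x.length + 1)
    cases w with
    | nil => simp at a2
    | cons c w =>
      cases c with
      | false => exact h0 _ ⟨⟨w, by simp⟩, by omega, a3⟩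
      | true => exact h1 _ ⟨⟨w, by simp⟩, by omega, a3⟩
  have hE3 : ∀ k x, Ext x → ∃ y, x <+: y ∧ y.length = x.length + k ∧ Ext y := by
    intro k
    induction k with
    | zero => exact fun x hx => ⟨x, List.prefix_rfl, rfl, hx⟩
    | succ k ih =>
      intro x hx
      obtain ⟨y, h1, h2, h3⟩ := ih x hx
      obtain ⟨c, hc⟩ := hE2 y h3
      exact ⟨y ++ [c], h1.trans (List.prefix_append _ _), by simp [h2, add_assoc], hc⟩
  let E : ℕ → Finset (List Bool) := fun n => (allStr n).toFinset.filter Ext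
  have hE : ∀ n x, x ∈ E n ↔ x.length = n ∧ Ext x := fun n x => by
    simp only [E, Finset.mem_filter, List.mem_toFinset, mem_allStr]
  have hb : ∀ n, (E n).card ≤ M := fun n => hM n _ fun τ hτ => by
    obtain ⟨h1, h2⟩ := (hE n τ).1 hτ
    obtain ⟨z, h3, -, h4⟩ := h2 0
    exact ⟨h1, hT _ _ h3 h4⟩
  obtain ⟨n0, hn0⟩ : ∃ n0, ∀ n, (E n).card ≤ (E n0).card := by
    have hne : (Set.range fun n => (E n).card).Nonempty := ⟨_, 0, rfl⟩
    obtain ⟨n0, h⟩ := Nat.sSup_mem hne ⟨M, by rintro _ ⟨n, rfl⟩; exact hb n⟩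
    exact ⟨n0, fun n => (le_csSup ⟨M, by rintro _ ⟨n, rfl⟩; exact hb n⟩
      (Set.mem_range_self n)).trans h.ge⟩
  refine ⟨n0, fun x hx hx' => ?_⟩
  have hl : n0 ≤ x.length := by simpa using hx.length_le
  have hAE : ∀ n, Ext (pre A n) := fun n m =>
    ⟨pre A (n + m), pre_prefix A (by omega), by simp, hA _⟩
  have hinj := Finset.injOn_of_surjOn_of_card_le (s := E x.length) (t := E n0)
    (fun y => y.take n0) (fun y hy => by
      obtain ⟨h1, h2⟩ := (hE _ y).1 hy
      exact (hE _ _).2 ⟨by simp [h1, hl], hE1 _ _ (List.take_prefix _ _) h2⟩)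
    (fun y hy => by
      obtain ⟨h1, h2⟩ := (hE _ y).1 hy
      obtain ⟨z, h3, h4, h5⟩ := hE3 (x.length - n0) y h2
      refine ⟨z, (hE _ _).2 ⟨by omega, h5⟩, ?_⟩
      rw [List.prefix_iff_eq_take] at h3
      rw [h3, h1]) (hn0 _)
  refine hinj ((hE _ _).2 ⟨rfl, hx'⟩) ((hE _ _).2 ⟨by simp, hAE _⟩) ?_
  rw [List.prefix_iff_eq_take, length_pre] at hx
  show x.take n0 = (pre A x.length).take n0
  rw [← hx, take_pre A _ _ hl]

theorem approx_of_ktrivial {U : List Bool →. List Bool} (hU : IsUniversal U) {A : ℕ → Bool}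
    (h : KTrivial U A) : ∃ ap : ℕ → List Bool, Primrec ap ∧ (∀ s, (ap s).length = s) ∧
      ∀ n, ∃ s0, ∀ s, s0 ≤ s → (ap s).take n = pre A n := by
  classical
  obtain ⟨b, hb⟩ := h
  obtain ⟨q, hq, mq, eq⟩ := s1_K hU
  let T : List Bool → Prop := fun x => ∀ j < x.length + 1,
    KU U (x.take j) ≤ KU U (List.replicate j false) + b
  have hT : ∀ x y, x <+: y → T y → T x := by
    intro x y hxy hy j hj
    have h1 := hxy.length_le
    have h2 := hy j (by omega)
    rw [List.prefix_iff_eq_take] at hxy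
    rw [hxy, List.take_take, min_eq_left (by omega)]
    exact h2
  have hA : ∀ n, T (pre A n) := by
    intro n j hj
    rw [take_pre A n j (by simp at hj; omega)]
    exact hb j
  obtain ⟨M, hM⟩ := counting hU b
  obtain ⟨n0, hn0⟩ := isolated (T := T) (M := M) (fun n F hF => hM n F fun τ hτ => by
    obtain ⟨h1, h2⟩ := hF τ hτ
    have := h2 n (by omega)
    rw [← h1, List.take_length] at this
    exact ⟨h1, h1 ▸ this⟩) hT hA
  let Ts : ℕ → List Bool → Prop := fun s x => ∀ j < x.length + 1, ∀ r < s + 1,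
    q (List.replicate j false, r) s → ∃ r' < r + b + 1, q (x.take j, r') s
  have hTs : PrimrecRel Ts := by
    refine PP.all_lt (α := ℕ × List Bool) (f := fun x => x.2.length + 1)
      (p := fun x j => ∀ r < x.1 + 1, q (List.replicate j false, r) x.1 →
        ∃ r' < r + b + 1, q (x.2.take j, r') x.1) ?_
      (Primrec.succ.comp (Primrec.list_length.comp Primrec.snd))
    refine PP.all_lt (α := (ℕ × List Bool) × ℕ) (f := fun x => x.1.1 + 1)
      (p := fun x r => q (List.replicate x.2 false, r) x.1.1 →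
        ∃ r' < r + b + 1, q (x.1.2.take x.2, r') x.1.1) ?_
      (Primrec.succ.comp (Primrec.fst.comp Primrec.fst))
    have h1 : PrimrecPred fun z : ((ℕ × List Bool) × ℕ) × ℕ =>
        q (List.replicate z.1.2 false, z.2) z.1.1.1 :=
      hq.comp ((primrec_rep.comp (Primrec.snd.comp Primrec.fst)).pair Primrec.snd)
        (Primrec.fst.comp (Primrec.fst.comp Primrec.fst))
    have h2 : PrimrecPred fun z : ((ℕ × List Bool) × ℕ) × ℕ =>
        ∃ r' < z.2 + b + 1, q (z.1.1.2.take z.1.2, r') z.1.1.1 := by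
      refine PP.ex_lt (α := ((ℕ × List Bool) × ℕ) × ℕ) (f := fun z => z.2 + b + 1)
        (p := fun z r' => q (z.1.1.2.take z.1.2, r') z.1.1.1) ?_
        (Primrec.succ.comp (Primrec.nat_add.comp Primrec.snd (Primrec.const b)))
      exact hq.comp ((Primrec.list_take.comp (Primrec.snd.comp (Primrec.fst.comp Primrec.fst))
        (Primrec.snd.comp (Primrec.fst.comp (Primrec.fst.comp Primrec.fst)))).pair Primrec.snd)
        (Primrec.fst.comp (Primrec.fst.comp (Primrec.fst.comp Primrec.fst)))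
    exact (PrimrecPred.or (PrimrecPred.not h1) h2).of_eq fun z => imp_iff_not_or.symm
  have hTs1 : ∀ s x y, x <+: y → Ts s y → Ts s x := by
    intro s x y hxy hy j hj
    have h1 := hxy.length_le
    have h2 := hy j (by omega)
    rw [List.prefix_iff_eq_take] at hxy
    rw [hxy, List.take_take, min_eq_left (by omega)]
    exact h2
  have hK : ∀ y, ∀ᶠ s in Filter.atTop, q (y, KU U y) s := fun y => by
    obtain ⟨s0, h0⟩ := (eq (y, KU U y)).1 le_rfl
    exact Filter.eventually_atTop.2 ⟨s0, fun s hs => mq _ _ _ hs h0⟩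
  have hlim : ∀ x, ∀ᶠ s in Filter.atTop, (Ts s x ↔ T x) := by
    intro x
    have h1 : ∀ᶠ s in Filter.atTop, ∀ j ∈ Finset.range (x.length + 1),
        q (x.take j, KU U (x.take j)) s ∧
        q (List.replicate j false, KU U (List.replicate j false)) s ∧
        KU U (List.replicate j false) ≤ s :=
      (Filter.eventually_all_finset _).2 fun j _ =>
        (hK _).and ((hK _).and (Filter.eventually_ge_atTop _))
    filter_upwards [h1] with s hs
    constructor
    · intro h2 j hj
      obtain ⟨-, a2, a3⟩ := hs j (Finset.mem_range.2 hj)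
      obtain ⟨r', c1, c2⟩ := h2 j hj _ (by omega) a2
      have := (eq (x.take j, r')).2 ⟨s, c2⟩
      simp only at this
      omega
    · intro h2 j hj r _ hr
      have c1 := (eq (List.replicate j false, r)).2 ⟨s, hr⟩
      have c2 := h2 j hj
      simp only at c1
      exact ⟨_, by omega, (hs j (Finset.mem_range.2 hj)).1⟩
  let good : ℕ → List Bool → Prop := fun s x => x.take n0 = pre A n0 ∧ Ts s x
  have hgood : PrimrecRel good := PrimrecPred.and
    (Primrec.eq.comp (Primrec.list_take.comp (Primrec.const n0) Primrec.snd)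
      (Primrec.const (pre A n0))) hTs
  let len : ℕ → ℕ := fun s => Nat.findGreatest (fun l => ∃ x ∈ allStr l, good s x) s
  have hlen : Primrec len := by
    refine Primrec.nat_findGreatest (p := fun s l => ∃ x ∈ allStr l, good s x) Primrec.id ?_
    exact PP.ex_mem (α := ℕ × ℕ) (f := fun z => allStr z.2) (p := fun z x => good z.1 x)
      (hgood.comp (Primrec.fst.comp Primrec.fst) Primrec.snd)
      (primrec_allStr.comp Primrec.snd)
  let z : ℕ → List Bool := fun s => ((allStr (len s)).filter (fun x => good s x)).headI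
  have hz : Primrec z := Primrec.list_headI.comp
    ((PrimrecRel.listFilter (R := fun x s => good s x) (hgood.comp Primrec.snd Primrec.fst)).comp
      (primrec_allStr.comp hlen) Primrec.id)
  refine ⟨fun s => (z s ++ List.replicate s false).take s, Primrec.list_take.comp Primrec.id
    (Primrec.list_append.comp hz primrec_rep), fun s => by simp, fun n => ?_⟩
  have h1 : ∀ x ∈ allStr (n0 + n), ∃ m, x.take n0 = pre A n0 → x ≠ pre A (n0 + n) →
      ∀ y, x <+: y → m ≤ y.length → ¬ T y := by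
    intro x hx
    by_cases hc : x.take n0 = pre A n0 ∧ x ≠ pre A (n0 + n)
    · have h2 := hn0 x (hc.1 ▸ List.take_prefix _ _)
      rw [mem_allStr.1 hx] at h2
      have h3 := mt h2 hc.2
      simp only [not_forall, not_exists, not_and] at h3
      obtain ⟨m, hm⟩ := h3
      exact ⟨m, fun _ _ => hm⟩
    · exact ⟨0, fun a1 a2 => absurd ⟨a1, a2⟩ hc⟩
  choose! f hf using h1
  let m := n0 + n + ((allStr (n0 + n)).map f).sum
  have hm : ∀ x ∈ allStr (n0 + n), f x ≤ m := fun x hx =>
    (List.single_le_sum (fun _ _ => Nat.zero_le _) _ (List.mem_map_of_mem hx)).trans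
      (Nat.le_add_left _ _)
  have h2 : ∀ᶠ s in Filter.atTop, m ≤ s ∧ ∀ y ∈ (allStr m).toFinset, (Ts s y ↔ T y) :=
    (Filter.eventually_ge_atTop m).and ((Filter.eventually_all_finset _).2 fun y _ => hlim y)
  obtain ⟨s0, hs0⟩ := Filter.eventually_atTop.1 h2
  refine ⟨s0, fun s hs => ?_⟩
  obtain ⟨a1, a2⟩ := hs0 s hs
  have a3 : ∃ x ∈ allStr m, good s x := ⟨pre A m, mem_allStr.2 (by simp),
    take_pre A _ _ (by omega), (a2 _ (List.mem_toFinset.2 (mem_allStr.2 (by simp)))).2 (hA m)⟩
  have a4 : m ≤ len s := Nat.le_findGreatest (P := fun l => ∃ x ∈ allStr l, good s x) a1 a3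
  obtain ⟨x, x1, x2⟩ := Nat.findGreatest_spec (P := fun l => ∃ x ∈ allStr l, good s x) a1 a3
  have a5 : z s ∈ (allStr (len s)).filter (fun x => good s x) :=
    List.head!_mem_self (List.ne_nil_of_mem (List.mem_filter.2 ⟨x1, by simpa using x2⟩))
  obtain ⟨a6, a7⟩ := List.mem_filter.1 a5
  have a8 : (z s).length = len s := mem_allStr.1 a6
  obtain ⟨a9, a10⟩ : good s (z s) := by simpa using a7
  have b1 : T ((z s).take m) := (a2 _ (List.mem_toFinset.2 (mem_allStr.2 (by simp; omega)))).1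
    (hTs1 s _ _ (List.take_prefix _ _) a10)
  have b2 : (z s).take (n0 + n) = pre A (n0 + n) := by
    by_contra hc
    have b3 : (z s).take (n0 + n) ∈ allStr (n0 + n) := mem_allStr.2 (by simp; omega)
    refine hf _ b3 ?_ hc ((z s).take m) (List.take_prefix_take_left (by omega)) ?_ b1
    · rw [List.take_take, min_eq_left (by omega)]
      exact a9
    · have := hm _ b3
      simp only [List.length_take]
      omega
  show ((z s ++ List.replicate s false).take s).take n = pre A n
  rw [List.take_take, min_eq_left (by omega), List.take_append_of_le_length (by omega),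
    ← take_pre A (n0 + n) n (by omega), ← b2, List.take_take, min_eq_left (by omega)]

end Pool.Agent.H889Z.KDelta

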