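import Mathlib

/-!
Minimal spanning forests with respect to a labelling of the edges of a Cayley graph, and
a Schreier type count of generators of a finite index subgroup.
-/

set_option autoImplicit false

namespace Pool.Agent.H889Z.Tar

variable {G : Type} [Group G]

/-- Connectivity through the edges from `x` to `t i * x` with `E i x`. -/
def Conn {ι : Type} (t : ι → G) (E : ι → G → Prop) : G → G → Prop :=
  Relation.EqvGen (fun x y => ∃ i, E i x ∧ y = t i * x)

section basic

variable {ι : Type} {t : ι → G}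

lemma Conn.equiv (t : ι → G) (E : ι → G → Prop) : Equivalence (Conn t E) :=
  Relation.EqvGen.is_equivalence _

lemma Conn.edge {E : ι → G → Prop} {i : ι} {x : G} (h : E i x) : Conn t E x (t i * x) :=
  Relation.EqvGen.rel _ _ ⟨i, h, rfl⟩

lemma Conn.of_edges {E E' : ι → G → Prop} (h : ∀ i x, E i x → Conn t E' x (t i * x)) {x y : G}
    (hxy : Conn t E x y) : Conn t E' x y := by
  induction hxy with
  | rel x y hr =>
    obtain ⟨i, h1, rfl⟩ := hr
    exact h i x h1
  | refl x => exact (Conn.equiv t E').refl x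
  | symm x y _ ih => exact (Conn.equiv t E').symm ih
  | trans x y z _ _ ih1 ih2 => exact (Conn.equiv t E').trans ih1 ih2

lemma Conn.mono {E E' : ι → G → Prop} (h : ∀ i x, E i x → E' i x) {x y : G}
    (hxy : Conn t E x y) : Conn t E' x y :=
  Conn.of_edges (fun i x hx => Conn.edge (h i x hx)) hxy

lemma Conn.mul_right {E E' : ι → G → Prop} (g : G) (h : ∀ i x, E i x → E' i (x * g)) {x y : G}
    (hxy : Conn t E x y) : Conn t E' (x * g) (y * g) := by
  induction hxy with
  | rel x y hr =>
    obtain ⟨i, h1, rfl⟩ := hr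
    rw [mul_assoc]
    exact Conn.edge (h i x h1)
  | refl x => exact (Conn.equiv t E').refl _
  | symm x y _ ih => exact (Conn.equiv t E').symm ih
  | trans x y z _ _ ih1 ih2 => exact (Conn.equiv t E').trans ih1 ih2

lemma Conn.inv {E : ι → G → Prop} (P : G → Prop) (h : ∀ i x, E i x → (P x ↔ P (t i * x)))
    {x y : G} (hxy : Conn t E x y) : P x ↔ P y := by
  induction hxy with
  | rel x y hr =>
    obtain ⟨i, h1, rfl⟩ := hr
    exact h i x h1
  | refl x => exact Iff.rfl
  | symm x y _ ih => exact ih.symm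
  | trans x y z _ _ ih1 ih2 => exact ih1.trans ih2

lemma conn_of_mem_closure {E : ι → G → Prop} (h : ∀ i x, Conn t E x (t i * x)) {g : G}
    (hg : g ∈ Subgroup.closure (Set.range t)) : ∀ x, Conn t E x (g * x) := by
  induction hg using Subgroup.closure_induction with
  | mem g hg =>
    obtain ⟨i, rfl⟩ := hg
    exact h i
  | one => intro x; rw [one_mul]; exact (Conn.equiv t E).refl x
  | mul a b _ _ iha ihb =>
    intro x
    rw [mul_assoc]
    exact (Conn.equiv t E).trans (ihb x) (iha _)
  | inv a _ iha =>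
    intro x
    have := iha (a⁻¹ * x)
    rw [mul_inv_cancel_left] at this
    exact (Conn.equiv t E).symm this

end basic

section msf

variable {ι L : Type} [LinearOrder L] (t : ι → G) (lab : ι → G → L)

/-- An edge is kept if its ends are not joined by edges of smaller label. -/
def Kept (i : ι) (x : G) : Prop := ¬ Conn t (fun j y => lab j y < lab i x) x (t i * x)

lemma conn_kept [WellFoundedLT L] (i : ι) (x : G) : Conn t (Kept t lab) x (t i * x) := by
  have H : ∀ n : L, ∀ i x, lab i x = n → Conn t (Kept t lab) x (t i * x) := by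
    intro n
    induction n using WellFoundedLT.induction with
    | ind n ih =>
      intro i x hx
      by_cases hk : Kept t lab i x
      · exact Conn.edge hk
      · unfold Kept at hk
        rw [not_not] at hk
        exact Conn.of_edges (fun j y hy => ih _ (hx ▸ hy) j y rfl) hk
  exact H _ i x rfl

lemma kept_mul_right (g : G) (h : ∀ i x, lab i (x * g) = lab i x) (i : ι) (x : G) :
    Kept t lab i (x * g) ↔ Kept t lab i x := by
  unfold Kept
  rw [not_iff_not]
  constructor
  · intro h1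
    have := Conn.mul_right (E' := fun j y => lab j y < lab i x) g⁻¹ (fun j y hy => by
      have h2 := h j (y * g⁻¹)
      rw [inv_mul_cancel_right] at h2
      show lab j (y * g⁻¹) < lab i x
      rw [← h2, ← h i x]
      exact hy) h1
    simpa [mul_assoc] using this
  · intro h1
    have := Conn.mul_right (E' := fun j y => lab j y < lab i (x * g)) g (fun j y hy => by
      show lab j (y * g) < lab i (x * g)
      rw [h, h]
      exact hy) h1
    simpa [mul_assoc] using this

lemma forest (F : Finset G) (Ω : Finset (ι × G)) (hK : ∀ e ∈ Ω, Kept t lab e.1 e.2)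
    (hF : ∀ e ∈ Ω, e.2 ∈ F ∧ t e.1 * e.2 ∈ F)
    (hinj : ∀ e ∈ Ω, ∀ e' ∈ Ω, lab e.1 e.2 = lab e'.1 e'.2 → e = e') : Ω.card ≤ F.card := by
  classical
  let _ : LinearOrder G := linearOrderOfSTO WellOrderingRel
  have hmin : ∀ (n : L) (u : G), u ∈ F → ∃ w ∈ F, Conn t (fun j y => lab j y < n) u w ∧
      ∀ w' ∈ F, Conn t (fun j y => lab j y < n) u w' → w ≤ w' := by
    intro n u hu
    obtain ⟨w, hw, hw'⟩ := Finset.exists_min_image
      (F.filter (fun w => Conn t (fun j y => lab j y < n) u w)) id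
      ⟨u, Finset.mem_filter.mpr ⟨hu, (Conn.equiv _ _).refl u⟩⟩
    exact ⟨w, (Finset.mem_filter.mp hw).1, (Finset.mem_filter.mp hw).2,
      fun w' h1 h2 => hw' w' (Finset.mem_filter.mpr ⟨h1, h2⟩)⟩
  have key : ∀ e ∈ Ω, ∃ w ∈ F,
      (∀ w' ∈ F, Conn t (fun j y => lab j y < lab e.1 e.2) w w' → w ≤ w') ∧
      ∃ w' ∈ F, w' < w ∧ Conn t (fun j y => lab j y ≤ lab e.1 e.2) w w' := by
    intro e he
    obtain ⟨a, a1, a2, a3⟩ := hmin (lab e.1 e.2) _ (hF e he).1
    obtain ⟨b, b1, b2, b3⟩ := hmin (lab e.1 e.2) _ (hF e he).2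
    have hE := Conn.equiv t (fun j y => lab j y < lab e.1 e.2)
    have hE' := Conn.equiv t (fun j y => lab j y ≤ lab e.1 e.2)
    have hab : Conn t (fun j y => lab j y ≤ lab e.1 e.2) a b := by
      refine hE'.trans (hE'.symm (Conn.mono (fun _ _ h => h.le) a2))
        (hE'.trans (Conn.edge (i := e.1) le_rfl) (Conn.mono (fun _ _ h => h.le) b2))
    have hne : a ≠ b := by
      rintro rfl
      exact hK e he (hE.trans a2 (hE.symm b2))
    rcases lt_or_gt_of_ne hne with h | h
    · exact ⟨b, b1, fun w' c1 c2 => b3 w' c1 (hE.trans b2 c2), a, a1, h, hE'.symm hab⟩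
    · exact ⟨a, a1, fun w' c1 c2 => a3 w' c1 (hE.trans a2 c2), b, b1, h, hab⟩
  choose! ψ hψ using key
  refine Finset.card_le_card_of_injOn ψ (fun e he => (hψ e he).1) ?_
  have aux : ∀ e ∈ Ω, ∀ e' ∈ Ω, ψ e = ψ e' → ¬ lab e.1 e.2 < lab e'.1 e'.2 := by
    intro e he e' he' h hlt
    obtain ⟨-, -, w', c1, c2, c3⟩ := hψ e he
    have := (hψ e' he').2.1 w' c1 (h ▸ Conn.mono (fun _ _ h => lt_of_le_of_lt h hlt) c3)
    rw [← h] at this
    exact absurd c2 (not_lt.mpr this)
  intro e he e' he' h
  exact hinj e he e' he' (le_antisymm (not_lt.mp (aux e' he' e he h.symm))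
    (not_lt.mp (aux e he e' he' h)))

/-- Edges of an element of infinite order carrying the smallest labels are kept. -/
lemma kept_of_infinite (i : ι) (hi : ¬ IsOfFinOrder (t i))
    (hl : ∀ j x y, lab j y < lab i x → j = i) (x : G) : Kept t lab i x := by
  intro h
  have := Conn.inv (fun y => ∃ k : ℕ, x = t i ^ k * y) (fun j y hy => by
    have hj := hl j x y hy
    subst hj
    have hne : x ≠ y := by
      rintro rfl
      exact lt_irrefl _ hy
    constructor
    · rintro ⟨k, hk⟩
      cases k with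
      | zero => exact absurd (by simpa using hk) hne
      | succ k => exact ⟨k, by rw [hk, pow_succ, mul_assoc]⟩
    · rintro ⟨k, hk⟩
      exact ⟨k + 1, by rw [hk, pow_succ, mul_assoc]⟩) h
  obtain ⟨k, hk⟩ := this.mp ⟨0, by simp⟩
  apply hi
  rw [isOfFinOrder_iff_pow_eq_one]
  refine ⟨k + 1, Nat.succ_pos _, ?_⟩
  rw [← mul_assoc, ← pow_succ] at hk
  exact (mul_eq_right.mp hk.symm)

end msf

section schreier

open Classical in
/-- The cosets of `M` that lie inside `N`. -/
noncomputable def inside (N M : Subgroup G) [Fintype (G ⧸ M)] : Finset (G ⧸ M) :=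
  Finset.univ.filter (fun q => q.out ∈ N)

lemma mem_inside {N M : Subgroup G} [Fintype (G ⧸ M)] {q : G ⧸ M} :
    q ∈ inside N M ↔ q.out ∈ N := by
  simp [inside]

lemma out_mk_mem {N M : Subgroup G} (h : M ≤ N) (x : G) :
    (x : G ⧸ M).out ∈ N ↔ x ∈ N := by
  obtain ⟨m, hm⟩ := QuotientGroup.mk_out_eq_mul M x
  rw [hm]
  exact ⟨fun h1 => by simpa using mul_mem h1 (inv_mem (h m.2)), fun h1 => mul_mem h1 (h m.2)⟩

lemma card_inside {N M : Subgroup G} [M.Normal] [Fintype (G ⧸ M)] (h : M ≤ N) :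
    (inside N M).card * N.index = M.index := by
  have h1 := Subgroup.relIndex_ker (K := N) (QuotientGroup.mk' M)
  rw [QuotientGroup.ker_mk'] at h1
  rw [← Subgroup.relIndex_mul_index h, h1]
  congr 1
  refine (Nat.subtype_card (inside N M) (fun q => ?_)).symm
  rw [mem_inside]
  constructor
  · intro hq
    exact ⟨q.out, hq, Quotient.out_eq q⟩
  · rintro ⟨x, hx, rfl⟩
    exact (out_mk_mem h x).mpr hx

open Classical in
lemma schreier {ι : Type} [Fintype ι] (N M : Subgroup G) [M.Normal] [Fintype (G ⧸ M)] (h : M ≤ N)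
    (t : ι → G) (ht : Subgroup.closure (Set.range t) = N) (E : ι → G → Prop)
    (hE : ∀ i x, E i x ↔ E i (x : G ⧸ M).out) (hc : ∀ i x, Conn t E x (t i * x)) :
    ∃ S : Finset G, Subgroup.closure (S : Set G) = M ∧
      S.card ≤ ∑ i, ((inside N M).filter (fun q => E i q.out)).card := by
  let τ : G → G := fun x => (x : G ⧸ M).out
  have hτ : ∀ x, (τ x)⁻¹ * x ∈ M := fun x => by
    rw [← QuotientGroup.eq]
    exact Quotient.out_eq _
  let s : ι → G ⧸ M → G := fun i q => (τ (t i * q.out))⁻¹ * (t i * q.out)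
  let S : Finset G := Finset.univ.biUnion
    (fun i => ((inside N M).filter (fun q => E i q.out)).image (s i))
  refine ⟨S, le_antisymm ?_ ?_, ?_⟩
  · rw [Subgroup.closure_le]
    intro x hx
    obtain ⟨i, -, hi⟩ := Finset.mem_biUnion.mp hx
    obtain ⟨q, -, rfl⟩ := Finset.mem_image.mp hi
    exact hτ _
  · have htN : ∀ i, t i ∈ N := fun i => ht ▸ Subgroup.subset_closure ⟨i, rfl⟩
    have key : ∀ x y, Conn t E x y → (x ∈ N ↔ y ∈ N) ∧
        (x ∈ N → ((τ y)⁻¹ * y) * ((τ x)⁻¹ * x)⁻¹ ∈ Subgroup.closure (S : Set G)) := by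
      intro x y hxy
      induction hxy with
      | rel x y hr =>
        obtain ⟨i, h1, rfl⟩ := hr
        refine ⟨⟨fun h2 => mul_mem (htN i) h2, fun h2 => by
          simpa using mul_mem (inv_mem (htN i)) h2⟩, fun hx => ?_⟩
        apply Subgroup.subset_closure
        refine Finset.mem_biUnion.mpr ⟨i, Finset.mem_univ _, Finset.mem_image.mpr
          ⟨(x : G ⧸ M), Finset.mem_filter.mpr ⟨mem_inside.mpr ((out_mk_mem h x).mpr hx),
            (hE i x).mp h1⟩, ?_⟩⟩
        have e : τ (t i * τ x) = τ (t i * x) := by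
          show ((t i * τ x : G) : G ⧸ M).out = ((t i * x : G) : G ⧸ M).out
          congr 1
          rw [QuotientGroup.eq]
          simpa [mul_assoc] using hτ x
        show (τ (t i * τ x))⁻¹ * (t i * τ x) = _
        rw [e]
        group
      | refl x => exact ⟨Iff.rfl, fun _ => by simp⟩
      | symm x y _ ih =>
        refine ⟨ih.1.symm, fun hy => ?_⟩
        simpa using inv_mem (ih.2 (ih.1.mpr hy))
      | trans x y z _ _ ih1 ih2 =>
        refine ⟨ih1.1.trans ih2.1, fun hx => ?_⟩
        have := mul_mem (ih2.2 (ih1.1.mp hx)) (ih1.2 hx)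
        simpa [mul_assoc] using this
    intro g hg
    have h1 : τ 1 ∈ M := by simpa using inv_mem (hτ 1)
    have h2 : τ 1 * g * (τ 1)⁻¹ ∈ M := mul_mem (mul_mem h1 hg) (inv_mem h1)
    have h3 := conn_of_mem_closure hc (ht ▸ h h2) 1
    have h4 := (key _ _ h3).2 (one_mem _)
    have e : τ (τ 1 * g * (τ 1)⁻¹ * 1) = τ 1 := by
      show ((τ 1 * g * (τ 1)⁻¹ * 1 : G) : G ⧸ M).out = ((1 : G) : G ⧸ M).out
      congr 1
      rw [QuotientGroup.eq]
      simpa using inv_mem h2
    rw [e] at h4
    simpa [mul_assoc] using h4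
  · refine Finset.card_biUnion_le.trans (Finset.sum_le_sum fun i _ => Finset.card_image_le)

open Classical in
lemma card_shift (N M : Subgroup G) [M.Normal] [Fintype (G ⧸ M)] (h : M ≤ N) (P : G → Prop)
    (hP : ∀ x, P x ↔ P (x : G ⧸ M).out) {x : G} (hx : x ∈ N) :
    ((inside N M).filter (fun q => P (x * q.out))).card =
      ((inside N M).filter (fun q => P q.out)).card := by
  refine Finset.card_bij (fun q _ => (x : G ⧸ M) * q) ?_ ?_ ?_
  · intro q hq
    obtain ⟨h1, h2⟩ := Finset.mem_filter.mp hq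
    have e : (x : G ⧸ M) * q = ((x * q.out : G) : G ⧸ M) := by
      rw [QuotientGroup.mk_mul, QuotientGroup.out_eq']
    rw [e]
    exact Finset.mem_filter.mpr ⟨mem_inside.mpr ((out_mk_mem h _).mpr
      (mul_mem hx (mem_inside.mp h1))), (hP _).mp h2⟩
  · intro q _ q' _ hq
    exact mul_left_cancel hq
  · intro q hq
    obtain ⟨h1, h2⟩ := Finset.mem_filter.mp hq
    refine ⟨((x⁻¹ * q.out : G) : G ⧸ M), Finset.mem_filter.mpr ⟨mem_inside.mpr
      ((out_mk_mem h _).mpr (mul_mem (inv_mem hx) (mem_inside.mp h1))), ?_⟩, ?_⟩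
    · rw [hP]
      have e : ((x * ((x⁻¹ * q.out : G) : G ⧸ M).out : G) : G ⧸ M) = q := by
        rw [QuotientGroup.mk_mul, QuotientGroup.out_eq', ← QuotientGroup.mk_mul,
          mul_inv_cancel_left, QuotientGroup.out_eq']
      rw [e]
      exact h2
    · rw [← QuotientGroup.mk_mul, mul_inv_cancel_left, QuotientGroup.out_eq']

open Classical in
/-- Averaging the forest inequality over the translates of a finite pattern. -/
lemma average {ι L : Type} [LinearOrder L] (N M : Subgroup G) [M.Normal] [Fintype (G ⧸ M)]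
    (h : M ≤ N) (t : ι → G) (e : ι → G ⧸ M → L)
    (he : ∀ i q i' q', e i q = e i' q' → i = i' ∧ q = q') (J : Finset ι) (A : ι → Finset G)
    (F : Finset G) (hA : ∀ i ∈ J, ∀ x ∈ A i, x ∈ F ∧ t i * x ∈ F) (hN : ∀ x ∈ F, x ∈ N)
    (hsep : ∀ x ∈ F, ∀ y ∈ F, x⁻¹ * y ∈ M → x = y) :
    ∑ i ∈ J, (A i).card * ((inside N M).filter
      (fun q => Kept t (fun i x => e i (x : G ⧸ M)) i q.out)).card ≤
        (inside N M).card * F.card := by
  set lab : ι → G → L := fun i x => e i (x : G ⧸ M) with hlab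
  have hK : ∀ i x, Kept t lab i x ↔ Kept t lab i (x : G ⧸ M).out := by
    intro i x
    obtain ⟨m, hm⟩ := QuotientGroup.mk_out_eq_mul M x
    rw [hm]
    refine (kept_mul_right t lab m (fun i y => ?_) i x).symm
    simp [hlab]
  have h1 : ∀ g : G, ∑ i ∈ J, ((A i).filter (fun x => Kept t lab i (x * g))).card ≤ F.card := by
    intro g
    have h2 := forest t lab (F.image (· * g)) ((J.sigma (fun i => (A i).filter
      (fun x => Kept t lab i (x * g)))).image (fun p => (p.1, p.2 * g))) ?_ ?_ ?_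
    · rw [Finset.card_image_of_injective _ (mul_left_injective g),
        Finset.card_image_of_injective, Finset.card_sigma] at h2
      · exact h2
      · rintro ⟨i, x⟩ ⟨j, y⟩ hp
        simp only [Prod.mk.injEq, mul_left_inj] at hp
        obtain ⟨rfl, rfl⟩ := hp
        rfl
    · intro p hp
      obtain ⟨⟨i, x⟩, c1, rfl⟩ := Finset.mem_image.mp hp
      exact (Finset.mem_filter.mp (Finset.mem_sigma.mp c1).2).2
    · intro p hp
      obtain ⟨⟨i, x⟩, c1, rfl⟩ := Finset.mem_image.mp hp
      obtain ⟨c2, c3⟩ := Finset.mem_sigma.mp c1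
      have c4 := hA i c2 x (Finset.mem_filter.mp c3).1
      exact ⟨Finset.mem_image.mpr ⟨x, c4.1, rfl⟩,
        Finset.mem_image.mpr ⟨t i * x, c4.2, mul_assoc _ _ _⟩⟩
    · intro p hp p' hp' hl
      obtain ⟨⟨i, x⟩, c1, rfl⟩ := Finset.mem_image.mp hp
      obtain ⟨⟨j, y⟩, d1, rfl⟩ := Finset.mem_image.mp hp'
      obtain ⟨c2, c3⟩ := Finset.mem_sigma.mp c1
      obtain ⟨d2, d3⟩ := Finset.mem_sigma.mp d1
      obtain ⟨rfl, hq⟩ := he _ _ _ _ hl
      simp only [QuotientGroup.mk_mul, mul_left_inj] at hq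
      rw [hsep x (hA i c2 x (Finset.mem_filter.mp c3).1).1 y
        (hA i d2 y (Finset.mem_filter.mp d3).1).1 (QuotientGroup.eq.mp hq)]
  calc ∑ i ∈ J, (A i).card * ((inside N M).filter (fun q => Kept t lab i q.out)).card
      = ∑ i ∈ J, ∑ x ∈ A i,
          ((inside N M).filter (fun q => Kept t lab i (x * q.out))).card := by
        refine Finset.sum_congr rfl fun i hi => ?_
        rw [Finset.sum_congr rfl (fun x hx =>
          card_shift N M h (Kept t lab i) (hK i) (hN x (hA i hi x hx).1))]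
        simp
    _ = ∑ q ∈ inside N M, ∑ i ∈ J,
          ((A i).filter (fun x => Kept t lab i (x * q.out))).card := by
        rw [Finset.sum_comm]
        refine Finset.sum_congr rfl fun i _ => ?_
        simp only [Finset.card_filter]
        exact Finset.sum_comm
    _ ≤ ∑ q ∈ inside N M, F.card := Finset.sum_le_sum fun q _ => h1 _
    _ = _ := by simp

end schreier

end Pool.Agent.H889Z.Tar
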