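import Pool.Agent.H889Z.TarStep
import Pool.Agent.H718Z.Amen

/-!
The cost of a group is at most one plus the ratio of the rank of a finite index subgroup to its
index, and paradoxical decompositions from the Hall condition.
-/

set_option autoImplicit false

namespace Pool.Agent.H889Z.Tar

open MeasureTheory Pool.Agent.H718Z Pool.Agent.H718Z.CostDefs
open scoped ENNReal Pointwise

variable {G : Type} [Group G]

lemma groupCost_le_of_graphing {X : Type} [MeasurableSpace X] [StandardBorelSpace X]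
    (μ : Measure X) [IsProbabilityMeasure μ] [MulAction G X]
    (hmp : ∀ g : G, MeasurePreserving (fun x : X => g • x) μ μ)
    (hfree : ∀ᵐ x ∂μ, ∀ g : G, g • x = x → g = 1) {ι : Type} [Countable ι] (f0 : ι → G)
    (A0 : ι → Set X) (hA0 : ∀ i, MeasurableSet (A0 i))
    (hconn : ∀ᵐ x ∂μ, ∀ g : G,
      Relation.EqvGen (fun y z => ∃ i, y ∈ A0 i ∧ z = f0 i • y) x (g • x)) :
    groupCost G ≤ ∑' i, μ (A0 i) := by
  classical
  obtain ⟨e, he⟩ := Countable.exists_injective_nat ι
  let A : ℕ → Set X := Function.extend e A0 (fun _ => ∅)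
  let f : ℕ → G := Function.extend e f0 (fun _ => 1)
  have hA : ∀ t, A (e t) = A0 t := fun t => he.extend_apply _ _ t
  have hf : ∀ t, f (e t) = f0 t := fun t => he.extend_apply _ _ t
  have hA' : ∀ i, i ∉ Set.range e → A i = ∅ := fun i hi => Function.extend_apply' _ _ _ hi
  have h1 : ∀ i, MeasurableSet (A i) := by
    intro i
    by_cases hi : i ∈ Set.range e
    · obtain ⟨t, rfl⟩ := hi
      rw [hA]; exact hA0 t
    · rw [hA' i hi]; exact MeasurableSet.empty
  have h2 : ∑' i, μ (A i) = ∑' i, μ (A0 i) := by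
    rw [← he.tsum_eq (f := fun i => μ (A i))]
    · simp [hA]
    · intro i hi
      by_contra hc
      exact hi (by simp [hA' i hc])
  have h4 : groupCost G ≤ actionCost G μ := by
    unfold groupCost
    refine iInf_le_of_le X (iInf_le_of_le inferInstance (iInf_le_of_le inferInstance
      (iInf_le_of_le μ (iInf_le_of_le inferInstance (iInf_le_of_le inferInstance
        (iInf_le_of_le hmp (iInf_le_of_le hfree le_rfl)))))))
  refine h4.trans (le_trans ?_ h2.le)
  unfold actionCost
  refine iInf_le_of_le A (iInf_le_of_le (fun i => (fun ω => f i • ω) '' A i)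
    (iInf_le_of_le (fun i ω => f i • ω) (iInf_le_of_le ⟨h1, ?_, ?_, ?_, ?_, ?_⟩ le_rfl)))
  · intro i
    have e : (fun ω => f i • ω) '' A i = (fun ω : X => (f i)⁻¹ • ω) ⁻¹' A i := by
      ext ω
      constructor
      · rintro ⟨y, hy, rfl⟩
        simpa using hy
      · intro hω
        exact ⟨_, hω, by simp⟩
    show MeasurableSet ((fun ω => f i • ω) '' A i)
    rw [e]
    exact (hmp _).measurable (h1 i)
  · intro i
    exact (hmp _).measurable.comp measurable_subtype_coe
  · intro i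
    exact (MulAction.injective (f i)).injOn.bijOn_image
  · intro i a _
    exact MulAction.mem_orbit _ _
  · filter_upwards [hconn] with x hx y
    refine ⟨fun h => ?_, ?_⟩
    · have : (MulAction.orbitRel G X) y x := by
        clear hx
        induction h with
        | rel x y h =>
          obtain ⟨i, -, rfl⟩ := h
          exact MulAction.mem_orbit _ _
        | refl x => exact Setoid.refl' _ x
        | symm x y _ ih => exact Setoid.symm' _ ih
        | trans x y z _ _ ih1 ih2 => exact Setoid.trans' _ ih2 ih1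
      exact this
    · rintro ⟨g, rfl⟩
      refine Relation.EqvGen.mono ?_ _ _ (hx g)
      rintro y z ⟨t, a1, a2⟩
      exact ⟨e t, hA t ▸ a1, by rw [hf, a2]⟩

/-- The coset space with the discrete measurable structure. -/
def Qt (N : Subgroup G) : Type := G ⧸ N

instance (N : Subgroup G) : MeasurableSpace (Qt N) := ⊤
instance (N : Subgroup G) : DiscreteMeasurableSpace (Qt N) := ⟨fun _ => trivial⟩
instance (N : Subgroup G) : MulAction G (Qt N) := inferInstanceAs (MulAction G (G ⧸ N))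
instance (N : Subgroup G) [N.FiniteIndex] : Finite (Qt N) := inferInstanceAs (Finite (G ⧸ N))
instance (N : Subgroup G) : Nonempty (Qt N) := inferInstanceAs (Nonempty (G ⧸ N))

lemma groupCost_le_ratio [Countable G] (N : Subgroup G) [N.FiniteIndex] (S : Finset G)
    (hS : Subgroup.closure (S : Set G) = N) :
    groupCost G ≤ 1 + (S.card : ℝ≥0∞) / N.index := by
  classical
  let _ : Fintype (Qt N) := Fintype.ofFinite _
  let ν : Measure (Qt N) := ProbabilityTheory.uniformOn Set.univ
  have hcard : Fintype.card (Qt N) = N.index := by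
    rw [← Nat.card_eq_fintype_card]; rfl
  have hν : ∀ q : Qt N, ν {q} = (N.index : ℝ≥0∞)⁻¹ := by
    intro q
    simp only [ν]
    rw [ProbabilityTheory.uniformOn_univ, hcard]
    simp
  have hνp : ∀ g : G, MeasurePreserving (fun q : Qt N => g • q) ν ν := by
    intro g
    refine ⟨measurable_of_countable _, Measure.ext_of_singleton fun q => ?_⟩
    rw [Measure.map_apply (measurable_of_countable _) (measurableSet_singleton q)]
    have : (fun x : Qt N => g • x) ⁻¹' {q} = {g⁻¹ • q} := by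
      ext x
      simp [smul_eq_iff_eq_inv_smul]
    rw [this, hν, hν]
  let o : Qt N := ((1 : G) : G ⧸ N)
  let τ : Qt N → G := fun q => Quotient.out (q : G ⧸ N)
  have hτ : ∀ q, τ q • o = q := fun q => by
    show τ q • ((1 : G) : G ⧸ N) = q
    rw [MulAction.Quotient.smul_coe, smul_eq_mul, mul_one]
    exact Quotient.out_eq q
  have ho : ∀ g : G, g • o = o ↔ g ∈ N := fun g => by
    show g • ((1 : G) : G ⧸ N) = ((1 : G) : G ⧸ N) ↔ _
    rw [MulAction.Quotient.smul_coe, smul_eq_mul, mul_one, eq_comm, QuotientGroup.eq]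
    simp
  have h := groupCost_le_of_graphing (G := G) (X := Bern G × Qt N) ((μB G).prod ν)
    (fun g => (measurePreserving_smul' g).prod (hνp g)) ?_ (ι := Qt N ⊕ S)
    (Sum.elim τ (fun s : S => (s : G))) (fun _ => Set.univ ×ˢ {o})
    (fun _ => MeasurableSet.univ.prod (measurableSet_singleton o)) ?_
  · refine h.trans (le_of_eq ?_)
    rw [Measure.prod_prod, measure_univ, one_mul, hν, tsum_fintype]
    simp only [Finset.sum_const, Finset.card_univ, Fintype.card_sum, hcard, Fintype.card_coe,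
      nsmul_eq_mul, Nat.cast_add]
    rw [add_mul, ENNReal.mul_inv_cancel (by exact_mod_cast Subgroup.FiniteIndex.index_ne_zero)
      (by simp), div_eq_mul_inv]
  · have := (measurePreserving_fst (μ := μB G) (ν := ν)).quasiMeasurePreserving.ae
      (ae_free (G := G))
    filter_upwards [this] with x hx g hg
    exact hx g (congrArg Prod.fst hg)
  · refine Filter.Eventually.of_forall fun x g => ?_
    set r : Bern G × Qt N → Bern G × Qt N → Prop := fun y z => ∃ i : Qt N ⊕ S,
      y ∈ (Set.univ ×ˢ {o} : Set (Bern G × Qt N)) ∧ z = (Sum.elim τ (fun s : S => (s : G)) i : G) • y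
      with hr
    have hE : Equivalence (Relation.EqvGen r) := Relation.EqvGen.is_equivalence _
    have h1 : ∀ y : Bern G × Qt N, Relation.EqvGen r ((τ y.2)⁻¹ • y) y := by
      intro y
      refine Relation.EqvGen.rel _ _ ⟨Sum.inl y.2, ⟨trivial, ?_⟩, by simp⟩
      show (τ y.2)⁻¹ • y.2 = o
      rw [inv_smul_eq_iff, hτ]
    have h2 : ∀ n ∈ N, ∀ y : Bern G × Qt N, y.2 = o → Relation.EqvGen r y (n • y) := by
      intro n hn
      rw [← hS] at hn
      induction hn using Subgroup.closure_induction with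
      | mem s hs => exact fun y hy => Relation.EqvGen.rel _ _ ⟨Sum.inr ⟨s, hs⟩, ⟨trivial, hy⟩, rfl⟩
      | one => intro y _; rw [one_smul]; exact hE.refl y
      | mul a b _ hb iha ihb =>
        intro y hy
        rw [mul_smul]
        refine hE.trans (ihb y hy) (iha _ ?_)
        show b • y.2 = o
        rw [hy, ho]
        exact hS ▸ hb
      | inv a ha iha =>
        intro y hy
        have := iha (a⁻¹ • y) (by
          show a⁻¹ • y.2 = o
          rw [hy, ho]
          exact hS ▸ inv_mem ha)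
        rw [smul_inv_smul] at this
        exact hE.symm this
    have h3 : (τ (g • x).2)⁻¹ * g * τ x.2 ∈ N := by
      rw [← ho, mul_smul, mul_smul, hτ, inv_smul_eq_iff, hτ]
      rfl
    have h4 := h2 _ h3 ((τ x.2)⁻¹ • x) (by
      show (τ x.2)⁻¹ • x.2 = o
      rw [inv_smul_eq_iff, hτ])
    rw [mul_smul, mul_smul, smul_inv_smul] at h4
    exact hE.trans (hE.symm (h1 x)) (hE.trans h4 (h1 _))

lemma countable_of_fg (hG : Group.FG G) : Countable G := by
  obtain ⟨S, hS⟩ := Group.fg_def.mp hG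
  have h1 : Function.Surjective (FreeGroup.lift (fun s : S => (s : G))) := by
    rw [← MonoidHom.range_eq_top, FreeGroup.range_lift_eq_closure]
    simpa using hS
  have : Countable (FreeGroup S) := Quot.mk_surjective.countable
  exact h1.countable

theorem groupCost_le_one_of_step [Group.ResiduallyFinite G] (hG : Group.FG G) (h : Step G) :
    groupCost G ≤ 1 := by
  have : Countable G := countable_of_fg hG
  refine ENNReal.le_of_forall_pos_le_add fun ε hε _ => ?_
  obtain ⟨N, S, h1, h2, h3⟩ := small_ratio hG h ε hε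
  refine (groupCost_le_ratio N S h2).trans (add_le_add_right ?_ _)
  rw [ENNReal.div_le_iff (by exact_mod_cast h1.index_ne_zero) (by simp)]
  exact_mod_cast h3

lemma hall_of_not_viol [DecidableEq G] (S1 S2 : Finset G)
    (h : ¬ ∃ A1 A2 F : Finset G, Viol (S1 : Set G) (S2 : Set G) A1 A2 F) (A1 A2 : Finset G) :
    A1.card + A2.card ≤ (S1 * A1 ∪ S2 * A2).card := by
  by_contra hc
  exact h ⟨A1, A2, _, fun x hx s hs => Finset.mem_union_left _ (Finset.mul_mem_mul hs hx),
    fun x hx s hs => Finset.mem_union_right _ (Finset.mul_mem_mul hs hx), not_le.mp hc⟩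

/-- A paradoxical decomposition into pieces that partition the group. -/
lemma paradox_exact [DecidableEq G] {m n : ℕ} (s1 : Fin m → G) (s2 : Fin n → G)
    (S1 S2 : Finset G) (h0 : (1 : G) ∈ S1) (h1 : ∀ s ∈ S1, ∃ i, s1 i = s)
    (h2 : ∀ s ∈ S2, ∃ i, s2 i = s)
    (h : ∀ A1 A2 : Finset G, A1.card + A2.card ≤ (S1 * A1 ∪ S2 * A2).card) :
    ∃ (A : Fin m → Set G) (B : Fin n → Set G) (g : Fin m → G) (h : Fin n → G),
      (∀ x : G, ∃! p : Fin m ⊕ Fin n, x ∈ Sum.elim A B p) ∧
      (∀ x : G, ∃! i : Fin m, (g i)⁻¹ * x ∈ A i) ∧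
      (∀ x : G, ∃! j : Fin n, (h j)⁻¹ * x ∈ B j) := by
  obtain ⟨φ0, a1, a2, a3⟩ := hall_inj S1 S2 h
  obtain ⟨φ, c1, c2⟩ := Function.Embedding.schroeder_bernstein_of_rel a1 Sum.inl_injective
    (fun p y => Sum.elim (fun g => ∃ s ∈ S1, y = s * g) (fun g => ∃ s ∈ S2, y = s * g) p)
    (by rintro (g | g); exacts [a2 g, a3 g]) (fun g => ⟨1, h0, (one_mul g).symm⟩)
  have b2 : ∀ g, ∃ i, φ (Sum.inl g) = s1 i * g := fun g => by
    obtain ⟨s, d1, d2⟩ := c2 (Sum.inl g)
    obtain ⟨i, rfl⟩ := h1 s d1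
    exact ⟨i, d2⟩
  have b3 : ∀ g, ∃ i, φ (Sum.inr g) = s2 i * g := fun g => by
    obtain ⟨s, d1, d2⟩ := c2 (Sum.inr g)
    obtain ⟨i, rfl⟩ := h2 s d1
    exact ⟨i, d2⟩
  choose i1 hi1 using b2
  choose i2 hi2 using b3
  refine ⟨fun i => {x | ∃ g, i1 g = i ∧ x = φ (Sum.inl g)},
    fun i => {x | ∃ g, i2 g = i ∧ x = φ (Sum.inr g)}, fun i => (s1 i)⁻¹, fun i => (s2 i)⁻¹,
    ?_, ?_, ?_⟩
  · intro x
    obtain ⟨p, rfl⟩ := c1.2 x
    rcases p with g | g
    · refine ⟨Sum.inl (i1 g), ⟨g, rfl, rfl⟩, ?_⟩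
      rintro (i | j) ⟨g', rfl, hg⟩
      · rw [Sum.inl_injective (c1.1 hg)]
      · exact absurd (c1.1 hg) Sum.inl_ne_inr
    · refine ⟨Sum.inr (i2 g), ⟨g, rfl, rfl⟩, ?_⟩
      rintro (i | j) ⟨g', rfl, hg⟩
      · exact absurd (c1.1 hg) Sum.inr_ne_inl
      · rw [Sum.inr_injective (c1.1 hg)]
  · intro x
    refine ⟨i1 x, ⟨x, rfl, by simp [hi1]⟩, ?_⟩
    rintro i ⟨g, rfl, hg⟩
    rw [hi1, inv_inv, mul_right_inj] at hg
    rw [hg]
  · intro x
    refine ⟨i2 x, ⟨x, rfl, by simp [hi2]⟩, ?_⟩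
    rintro i ⟨g, rfl, hg⟩
    rw [hi2, inv_inv, mul_right_inj] at hg
    rw [hg]

theorem six [Group.ResiduallyFinite G] (hG : Group.FG G) (hc : 1 < groupCost G) :
    ∃ (A : Fin 3 → Set G) (B : Fin 3 → Set G) (g : Fin 3 → G) (h : Fin 3 → G),
      (∀ x : G, ∃! p : Fin 3 ⊕ Fin 3, x ∈ Sum.elim A B p) ∧
      (∀ x : G, ∃! i : Fin 3, (g i)⁻¹ * x ∈ A i) ∧
      (∀ x : G, ∃! j : Fin 3, (h j)⁻¹ * x ∈ B j) := by
  classical
  by_cases hV : ∀ a b c d : G, ∃ A1 A2 F : Finset G, Viol {1, a, b} {1, c, d} A1 A2 F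
  · exact absurd (groupCost_le_one_of_step hG (step6 hV)) (not_le.mpr hc)
  · simp only [not_forall] at hV
    obtain ⟨a, b, c, d, hV⟩ := hV
    refine paradox_exact ![1, a, b] ![1, c, d] {1, a, b} {1, c, d} (by simp) ?_ ?_
      (hall_of_not_viol _ _ (by simpa using hV))
    · intro s hs
      simp only [Finset.mem_insert, Finset.mem_singleton] at hs
      rcases hs with rfl | rfl | rfl
      exacts [⟨0, rfl⟩, ⟨1, rfl⟩, ⟨2, rfl⟩]
    · intro s hs
      simp only [Finset.mem_insert, Finset.mem_singleton] at hs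
      rcases hs with rfl | rfl | rfl
      exacts [⟨0, rfl⟩, ⟨1, rfl⟩, ⟨2, rfl⟩]

theorem five [Group.ResiduallyFinite G] (hG : Group.FG G) (a0 : G) (ha : ¬ IsOfFinOrder a0)
    (hc : 1 < groupCost G) :
    ∃ (P : Fin 2 → Set G) (Q : Fin 3 → Set G) (g : Fin 2 → G) (h : Fin 3 → G),
      (∀ i j, i ≠ j → Disjoint (P i) (P j)) ∧
      (∀ i j, i ≠ j → Disjoint (Q i) (Q j)) ∧
      (∀ i j, Disjoint (P i) (Q j)) ∧
      (⋃ i, (fun x : G => g i * x) '' P i) = Set.univ ∧
      (⋃ j, (fun x : G => h j * x) '' Q j) = Set.univ := by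
  classical
  by_cases hV : ∀ a c d : G, ∃ A1 A2 F : Finset G, Viol {1, a} {1, c, d} A1 A2 F
  · exact absurd (groupCost_le_one_of_step hG (step5 a0 ha hV)) (not_le.mpr hc)
  · simp only [not_forall] at hV
    obtain ⟨a, c, d, hV⟩ := hV
    refine paradox ![1, a] ![1, c, d] {1, a} {1, c, d} ?_ ?_
      (hall_of_not_viol _ _ (by simpa using hV))
    · intro s hs
      simp only [Finset.mem_insert, Finset.mem_singleton] at hs
      rcases hs with rfl | rfl
      exacts [⟨0, rfl⟩, ⟨1, rfl⟩]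
    · intro s hs
      simp only [Finset.mem_insert, Finset.mem_singleton] at hs
      rcases hs with rfl | rfl | rfl
      exacts [⟨0, rfl⟩, ⟨1, rfl⟩, ⟨2, rfl⟩]

end Pool.Agent.H889Z.Tar
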