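import Pool.Agent.H889Z.TarGen

/-!
Groups in which high powers of finitely many conjugates of an element of infinite order generate
subgroups with trivial intersection.
-/

set_option autoImplicit false

namespace Pool.Agent.H889Z.Tar

open MeasureTheory Pool.Agent.H718Z Pool.Agent.H718Z.CostDefs
open scoped ENNReal

variable {G : Type} [Group G]

lemma Viol.restrict' {S1 S2 : Set G} {A1 A2 F : Finset G} (h : Viol S1 S2 A1 A2 F)
    (N : Subgroup G) (h1 : S1 ⊆ N) (h2 : S2 ⊆ N) :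
    ∃ A1 A2 F : Finset G, Viol S1 S2 A1 A2 F ∧ ∀ x ∈ F, x ∈ N := by
  classical
  obtain ⟨a1, a2, a3⟩ := h
  let π : G → G ⧸ N := fun x => ((x⁻¹ : G) : G ⧸ N)
  let C : Finset (G ⧸ N) := (A1 ∪ A2 ∪ F).image π
  have e1 := Finset.card_eq_sum_card_fiberwise (f := π) (s := A1) (t := C)
    (fun x hx => Finset.mem_image_of_mem _ (by simp [Finset.mem_coe.mp hx]))
  have e2 := Finset.card_eq_sum_card_fiberwise (f := π) (s := A2) (t := C)
    (fun x hx => Finset.mem_image_of_mem _ (by simp [Finset.mem_coe.mp hx]))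
  have e3 := Finset.card_eq_sum_card_fiberwise (f := π) (s := F) (t := C)
    (fun x hx => Finset.mem_image_of_mem _ (by simp [Finset.mem_coe.mp hx]))
  rw [e1, e2, e3, ← Finset.sum_add_distrib] at a3
  obtain ⟨q, -, hq⟩ := Finset.exists_lt_of_sum_lt a3
  have hs : ∀ s ∈ N, ∀ x, π (s * x) = π x := fun s hs x => by
    show (((s * x)⁻¹ : G) : G ⧸ N) = ((x⁻¹ : G) : G ⧸ N)
    rw [QuotientGroup.eq]
    simpa using hs
  refine ⟨(A1.filter (fun x => π x = q)).image (· * q.out),
    (A2.filter (fun x => π x = q)).image (· * q.out),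
    (F.filter (fun x => π x = q)).image (· * q.out), ⟨?_, ?_, ?_⟩, ?_⟩
  · intro x hx s hs1
    obtain ⟨y, hy, rfl⟩ := Finset.mem_image.mp hx
    obtain ⟨b1, b2⟩ := Finset.mem_filter.mp hy
    exact Finset.mem_image.mpr ⟨s * y, Finset.mem_filter.mpr ⟨a1 y b1 s hs1,
      by rw [hs s (h1 hs1), b2]⟩, mul_assoc _ _ _⟩
  · intro x hx s hs2
    obtain ⟨y, hy, rfl⟩ := Finset.mem_image.mp hx
    obtain ⟨b1, b2⟩ := Finset.mem_filter.mp hy
    exact Finset.mem_image.mpr ⟨s * y, Finset.mem_filter.mpr ⟨a2 y b1 s hs2,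
      by rw [hs s (h2 hs2), b2]⟩, mul_assoc _ _ _⟩
  · simpa only [Finset.card_image_of_injective _ (mul_left_injective _)] using hq
  · intro x hx
    obtain ⟨y, hy, rfl⟩ := Finset.mem_image.mp hx
    obtain ⟨-, b2⟩ := Finset.mem_filter.mp hy
    have : ((y⁻¹ : G) : G ⧸ N) = (q.out : G ⧸ N) := by
      rw [QuotientGroup.out_eq']
      exact b2
    simpa using QuotientGroup.eq.mp this

lemma escape {α : G} (hα : ¬ IsOfFinOrder α) (A F : Finset G) (h : ∀ x ∈ A, α * x ∈ F) {x : G}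
    (hx : x ∈ F) : ∃ k : ℕ, α ^ k * x ∈ F ∧ α ^ k * x ∉ A := by
  by_contra hc
  push Not at hc
  have h1 : ∀ k : ℕ, α ^ k * x ∈ F := by
    intro k
    induction k with
    | zero => simpa using hx
    | succ k ih =>
      rw [pow_succ', mul_assoc]
      exact h _ (hc k ih)
  have h2 : Function.Injective (fun k : ℕ => α ^ k * x) := fun i j hij =>
    (injective_pow_iff_not_isOfFinOrder.mpr hα) (mul_right_cancel hij)
  exact Set.infinite_of_injective_forall_mem h2 h1 F.finite_toSet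

/-- The subgroup generated by the conjugates of `a ^ n` by the elements of `U`. -/
def Pw (a : G) (U : Finset G) (n : ℕ) : Subgroup G :=
  Subgroup.closure {x | ∃ u ∈ U, x = u * a ^ n * u⁻¹}

lemma mem_Pw (a : G) {U : Finset G} {u : G} (hu : u ∈ U) (n k : ℕ) :
    u * a ^ (n * k) * u⁻¹ ∈ Pw a U n := by
  rw [pow_mul, ← conj_pow]
  have : u * a ^ n * u⁻¹ ∈ Pw a U n := Subgroup.subset_closure ⟨u, hu, rfl⟩
  exact pow_mem this k

lemma Pw_le (a : G) (U : Finset G) (n k : ℕ) : Pw a U (n * k) ≤ Pw a U n := by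
  refine (Subgroup.closure_le _).mpr ?_
  rintro _ ⟨u, hu, rfl⟩
  exact mem_Pw a hu n k

lemma exists_Pw {a : G} (U : Finset G) (h : ∀ g : G, g ≠ 1 → ∃ n, 0 < n ∧ g ∉ Pw a U n)
    (T : Finset G) : ∃ n, 0 < n ∧ ∀ g ∈ T, g ∈ Pw a U n → g = 1 := by
  classical
  induction T using Finset.induction_on with
  | empty => exact ⟨1, one_pos, by simp⟩
  | insert b T _ ih =>
    obtain ⟨n, h1, h2⟩ := ih
    by_cases hb : b = 1
    · refine ⟨n, h1, fun g hg hM => ?_⟩
      rcases Finset.mem_insert.mp hg with rfl | hg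
      · exact hb
      · exact h2 g hg hM
    · obtain ⟨k, h3, h4⟩ := h b hb
      refine ⟨n * k, Nat.mul_pos h1 h3, fun g hg hM => ?_⟩
      rcases Finset.mem_insert.mp hg with rfl | hg
      · exact absurd (Pw_le a U k n (mul_comm n k ▸ hM)) h4
      · exact h2 g hg (Pw_le a U n k hM)

/-- The separation property for the pair `a`, `s`. -/
def Star (a s : G) : Prop :=
  ∀ U : Finset G, (∀ u ∈ U, u ∈ Subgroup.closure ({a, s} : Set G)) →
    ∀ g : G, g ≠ 1 → ∃ n, 0 < n ∧ g ∉ Pw a U n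

lemma mem_cl_left (a s : G) : a ∈ Subgroup.closure ({a, s} : Set G) :=
  Subgroup.subset_closure (by simp)

lemma mem_cl_right (a s : G) : s ∈ Subgroup.closure ({a, s} : Set G) :=
  Subgroup.subset_closure (by simp)

/-- The elements preserving a set. -/
def Stab {Z : Type} [MulAction G Z] (E : Set Z) : Subgroup G where
  carrier := {g | ∀ z, g • z ∈ E ↔ z ∈ E}
  one_mem' := fun z => by rw [one_smul]
  mul_mem' := fun {a b} ha hb z => by rw [mul_smul, ha, hb]
  inv_mem' := fun {a} ha z => by rw [← ha, smul_inv_smul]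

/-- The orbit of `x` under left multiplication by the powers of `a`. -/
def orb (a x : G) : G ⧸ Subgroup.zpowers a := ((x⁻¹ : G) : G ⧸ Subgroup.zpowers a)

lemma orb_pow (a : G) (k : ℕ) (x : G) : orb a (a ^ k * x) = orb a x := by
  unfold orb
  rw [QuotientGroup.eq]
  simp

lemma orb_mul (a x g : G) : orb a (x * g) = g⁻¹ • orb a x := by
  unfold orb
  rw [MulAction.Quotient.smul_coe, smul_eq_mul, mul_inv_rev]

/-- Connectivity of orbits of `a` through the `s` edges starting in `D`. -/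
def VC (a s : G) (D : G → Prop) : G ⧸ Subgroup.zpowers a → G ⧸ Subgroup.zpowers a → Prop :=
  GConn (orb a) (fun y => orb a (s * y)) D

/-- The `s` edges can be thinned to density `ρ`. -/
def Thin (a s : G) (ρ : ℝ≥0∞) : Prop :=
  ∃ (X : Sys G) (E : Set X.Z), MeasurableSet E ∧ X.μ E ≤ ρ ∧
    (∃ n, 0 < n ∧ a ^ n ∈ Stab (G := G) E ∧ s⁻¹ * a ^ n * s ∈ Stab (G := G) E) ∧
    ∀ (z : X.Z) (x : G), VC a s (fun y => y • z ∈ E) (orb a x) (orb a (s * x))

lemma pattern (a s : G) (ha : ¬ IsOfFinOrder a)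
    (hstar : Star a s)
    (hV : ∀ a c d : G, ∃ A1 A2 F : Finset G, Viol {1, a} {1, c, d} A1 A2 F) (H : Subgroup G)
    {n : ℕ} (hn : 0 < n) (h1 : a ^ n ∈ H) (h2 : s⁻¹ * a ^ n * s ∈ H) :
    ∃ (P : Finset G) (W : Finset (G ⧸ Subgroup.zpowers a)), (∀ y ∈ P, y ∈ H) ∧
      (∀ y ∈ P, orb a y ∈ W ∧ orb a (s * y) ∈ W) ∧ 4 * W.card < 3 * P.card := by
  classical
  have hpow : ∀ k, 0 < k → ¬ IsOfFinOrder (a ^ k) := fun k hk h =>
    ha (IsOfFinOrder.of_pow h hk.ne')
  have hα1 : a ^ n ≠ 1 := fun h => hpow n hn (h ▸ IsOfFinOrder.one)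
  obtain ⟨n1, hn1, hα⟩ := hstar {1, s⁻¹, (a ^ n)⁻¹ * s⁻¹} (by
    intro u hu
    simp only [Finset.mem_insert, Finset.mem_singleton] at hu
    rcases hu with rfl | rfl | rfl
    · exact one_mem _
    · exact inv_mem (mem_cl_right a s)
    · exact mul_mem (inv_mem (pow_mem (mem_cl_left a s) n)) (inv_mem (mem_cl_right a s)))
    (a ^ n) hα1
  set H' := Pw a {1, s⁻¹, (a ^ n)⁻¹ * s⁻¹} n1 ⊓ H with hH'
  set α := a ^ n with hαd
  set α' := a ^ (n1 * n) with hα'
  set β := s⁻¹ * α' * s with hβ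
  have c1 : α' ∈ H := by
    rw [hα', mul_comm, pow_mul]
    exact pow_mem h1 n1
  have c2 : β ∈ H := by
    have : β = (s⁻¹ * α * s) ^ n1 := by
      have := conj_pow (a := s⁻¹) (b := α) (i := n1)
      rw [inv_inv] at this
      rw [this, hβ, hα', hαd, mul_comm n1 n, pow_mul]
    rw [this]
    exact pow_mem h2 n1
  have d1 : α' ∈ H' := ⟨by simpa using mem_Pw a (u := 1) (by simp) n1 n, c1⟩
  have d2 : β ∈ H' := ⟨by simpa using mem_Pw a (u := s⁻¹) (by simp) n1 n, c2⟩
  have d3 : α⁻¹ * β * α ∈ H' := ⟨by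
    have := mem_Pw a (U := {1, s⁻¹, α⁻¹ * s⁻¹}) (u := α⁻¹ * s⁻¹) (by simp) n1 n
    simpa [hβ, mul_assoc] using this, H.mul_mem (H.mul_mem (H.inv_mem h1) c2) h1⟩
  obtain ⟨A1', A2', F', hv⟩ := hV α' β (α⁻¹ * β * α)
  obtain ⟨A1, A2, F, ⟨v1, v2, v3⟩, hF⟩ := hv.restrict' H'
    (by rintro x (rfl | rfl); exacts [one_mem _, d1])
    (by rintro x (rfl | rfl | rfl); exacts [one_mem _, d2, d3])
  have a1F : ∀ x ∈ A1, x ∈ F := fun x hx => by simpa using v1 x hx 1 (by simp)
  have a2F : ∀ x ∈ A2, x ∈ F := fun x hx => by simpa using v2 x hx 1 (by simp)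
  have hα'i : ¬ IsOfFinOrder α' := hpow _ (Nat.mul_pos hn1 hn)
  have hβi : ¬ IsOfFinOrder β := fun h => hα'i (by
    have : IsConj β α' := isConj_iff.mpr ⟨s, by simp [hβ, mul_assoc]⟩
    exact this.isOfFinOrder h)
  let B : Finset G := A2 ∪ A2.image (α * ·)
  let P : Finset G := B ∪ B.image (β * ·)
  have hB : B.card = 2 * A2.card := by
    rw [Finset.card_union_of_disjoint, Finset.card_image_of_injective _ (mul_right_injective α),
      two_mul]
    rw [Finset.disjoint_left]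
    intro x hx hx'
    obtain ⟨y, hy, rfl⟩ := Finset.mem_image.mp hx'
    apply hα
    have := (H'.mul_mem (hF _ (a2F _ hx)) (H'.inv_mem (hF _ (a2F _ hy)))).1
    simpa using this
  have hBP : B ⊆ P := Finset.subset_union_left
  have hP : P.card ≤ 4 * A2.card := by
    refine (Finset.card_union_le _ _).trans ?_
    have := Finset.card_image_le (s := B) (f := (β * ·))
    omega
  have hBH : ∀ y ∈ B, y ∈ H := by
    intro y hy
    rcases Finset.mem_union.mp hy with h | h
    · exact (hF _ (a2F _ h)).2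
    · obtain ⟨x, hx, rfl⟩ := Finset.mem_image.mp h
      exact mul_mem h1 (hF _ (a2F _ hx)).2
  let W1 := (F \ A1).image (orb a)
  let W2 := (P \ B).image (fun y => orb a (s * y))
  have hW1 : ∀ x ∈ F, orb a x ∈ W1 := by
    intro x hx
    obtain ⟨k, e1, e2⟩ := escape hα'i A1 F (fun x hx => v1 x hx _ (by simp)) hx
    refine Finset.mem_image.mpr ⟨_, Finset.mem_sdiff.mpr ⟨e1, e2⟩, ?_⟩
    rw [hα', ← pow_mul, orb_pow]
  have hW2 : ∀ x ∈ P, orb a (s * x) ∈ W2 := by
    intro x hx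
    obtain ⟨k, e1, e2⟩ := escape hβi B P (fun x hx => Finset.mem_union_right _
      (Finset.mem_image_of_mem _ hx)) hx
    refine Finset.mem_image.mpr ⟨_, Finset.mem_sdiff.mpr ⟨e1, e2⟩, ?_⟩
    have : s * (β ^ k * x) = a ^ (n1 * n * k) * (s * x) := by
      have := conj_pow (a := s⁻¹) (b := α') (i := k)
      rw [inv_inv] at this
      rw [hβ, this, hα', ← pow_mul]
      group
    show orb a (s * (β ^ k * x)) = _
    rw [this, orb_pow]
  refine ⟨P, W1 ∪ W2, ?_, fun y hy => ⟨Finset.mem_union_left _ ?_,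
    Finset.mem_union_right _ (hW2 y hy)⟩, ?_⟩
  · intro y hy
    rcases Finset.mem_union.mp hy with h | h
    · exact hBH y h
    · obtain ⟨x, hx, rfl⟩ := Finset.mem_image.mp h
      exact mul_mem c2 (hBH x hx)
  · rcases Finset.mem_union.mp hy with h | h
    · rcases Finset.mem_union.mp h with h | h
      · exact hW1 _ (a2F _ h)
      · obtain ⟨x, hx, rfl⟩ := Finset.mem_image.mp h
        rw [hαd, orb_pow]
        exact hW1 _ (a2F _ hx)
    · obtain ⟨x, hx, rfl⟩ := Finset.mem_image.mp h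
      rcases Finset.mem_union.mp hx with h | h
      · exact hW1 _ (v2 x h _ (by simp))
      · obtain ⟨x, hx', rfl⟩ := Finset.mem_image.mp h
        have : β * (α * x) = a ^ n * (α⁻¹ * β * α * x) := by
          rw [← hαd]
          group
        rw [this, orb_pow]
        exact hW1 _ (v2 x hx' _ (by simp))
  · have e1 : W1.card ≤ F.card - A1.card := by
      rw [← Finset.card_sdiff_of_subset (fun x hx => a1F x hx)]
      exact Finset.card_image_le
    have e2 : W2.card ≤ P.card - B.card := by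
      rw [← Finset.card_sdiff_of_subset hBP]
      exact Finset.card_image_le
    have e3 := Finset.card_union_le W1 W2
    have e4 := Finset.card_le_card hBP
    have e5 : A1.card ≤ F.card := Finset.card_le_card (fun x hx => a1F x hx)
    omega

lemma num_thin (p w : ℕ) (h : 4 * w < 3 * p) (κ : ℝ≥0∞)
    (hκ : (p : ℝ≥0∞) * κ ≤ w + p * (p ^ 2 * ((20 * p ^ 2 + 1 : ℕ) : ℝ≥0∞)⁻¹)) : κ ≤ 4 / 5 := by
  have hp : (p : ℝ≥0∞) ≠ 0 := by
    have : p ≠ 0 := by omega
    exact_mod_cast this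
  have h1 : (p : ℝ≥0∞) ^ 2 * ((20 * p ^ 2 + 1 : ℕ) : ℝ≥0∞)⁻¹ ≤ 1 / 20 := by
    rw [← div_eq_mul_inv, ENNReal.div_le_iff (by simp) (ENNReal.natCast_ne_top _), one_div,
      ← ENNReal.div_eq_inv_mul, ENNReal.le_div_iff_mul_le (by simp) (by simp)]
    exact_mod_cast (by omega : p ^ 2 * 20 ≤ 20 * p ^ 2 + 1)
  have h2 : (w : ℝ≥0∞) ≤ p * (3 / 4) := by
    rw [← mul_div_assoc, ENNReal.le_div_iff_mul_le (by simp) (by simp)]
    exact_mod_cast (by omega : w * 4 ≤ p * 3)
  have h3 : (p : ℝ≥0∞) * κ ≤ p * (4 / 5) := by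
    refine hκ.trans ((add_le_add h2 (mul_le_mul_right h1 _)).trans (le_of_eq ?_))
    rw [← mul_add]
    congr 1
    have e1 : (3 / 4 : ℝ≥0∞) = ENNReal.ofReal (3 / 4) := by
      rw [ENNReal.ofReal_div_of_pos (by norm_num)]; simp
    have e2 : (1 / 20 : ℝ≥0∞) = ENNReal.ofReal (1 / 20) := by
      rw [ENNReal.ofReal_div_of_pos (by norm_num)]; simp
    have e3 : (4 / 5 : ℝ≥0∞) = ENNReal.ofReal (4 / 5) := by
      rw [ENNReal.ofReal_div_of_pos (by norm_num)]; simp
    rw [e1, e2, e3, ← ENNReal.ofReal_add (by norm_num) (by norm_num)]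
    norm_num
  exact (ENNReal.mul_le_mul_iff_right hp (by simp)).mp h3

lemma thin_step [Countable G] (a s : G) (ha : ¬ IsOfFinOrder a)
    (hstar : Star a s)
    (hV : ∀ a c d : G, ∃ A1 A2 F : Finset G, Viol {1, a} {1, c, d} A1 A2 F) {ρ : ℝ≥0∞}
    (h : Thin a s ρ) : Thin a s (ρ * (4 / 5)) := by
  classical
  obtain ⟨X, E, hE, hρ, ⟨n, hn, h1, h2⟩, hc⟩ := h
  obtain ⟨P, W, p0, p2, p3⟩ := pattern a s ha hstar hV
    (Stab E ⊓ Subgroup.closure ({a, s} : Set G)) hn
    (Subgroup.mem_inf.mpr ⟨h1, pow_mem (mem_cl_left a s) n⟩)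
    (Subgroup.mem_inf.mpr ⟨h2, mul_mem (mul_mem (inv_mem (mem_cl_right a s))
      (pow_mem (mem_cl_left a s) n)) (mem_cl_right a s)⟩)
  have p1 : ∀ y ∈ P, y ∈ Stab (G := G) E := fun y hy => (Subgroup.mem_inf.mp (p0 y hy)).1
  let D : Finset G := (P ×ˢ P).image (fun p => p.1 * p.2⁻¹)
  have hDc : ∀ u ∈ D, u ∈ Subgroup.closure ({a, s} : Set G) := by
    intro u hu
    obtain ⟨p, hp, rfl⟩ := Finset.mem_image.mp hu
    obtain ⟨c1, c2⟩ := Finset.mem_product.mp hp
    exact mul_mem (Subgroup.mem_inf.mp (p0 _ c1)).2 (inv_mem (Subgroup.mem_inf.mp (p0 _ c2)).2)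
  obtain ⟨n2, hn2, hsep⟩ := exists_Pw (D ∪ D.image (· * s⁻¹)) (hstar _ (by
    intro u hu
    rcases Finset.mem_union.mp hu with h | h
    · exact hDc u h
    · obtain ⟨v, hv, rfl⟩ := Finset.mem_image.mp h
      exact mul_mem (hDc v hv) (inv_mem (mem_cl_right a s)))) D
  set L := Pw a (D ∪ D.image (· * s⁻¹)) n2 with hL
  let P' : Finset (Unit × G) := P.image (fun y => ((), y))
  have hP' : ∀ e ∈ P', e.2 ∈ P := by
    intro e he
    obtain ⟨y, hy, rfl⟩ := Finset.mem_image.mp he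
    exact hy
  have hD : ∀ e ∈ P', ∀ e' ∈ P', e'.2 * e.2⁻¹ ∈ D := fun e he e' he' =>
    Finset.mem_image.mpr ⟨(e'.2, e.2), Finset.mk_mem_product (hP' _ he') (hP' _ he), rfl⟩
  let src : Unit × G → G ⧸ Subgroup.zpowers a := fun e => orb a e.2
  let dst : Unit × G → G ⧸ Subgroup.zpowers a := fun e => orb a (s * e.2)
  let m := 20 * P.card ^ 2
  let K : Set (Lam L m) := KSet (fun _ => 0) src dst P' L m ()
  have hKm : MeasurableSet K := measurableSet_KSet _ _ _ _ _
  have hK : μL L m K ≤ 4 / 5 := by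
    have h3 := KSet_measure (L := L) (m := m) (fun _ : Unit => 0) src dst P'
      (fun _ _ _ => rfl) W (fun e he => p2 _ (hP' e he))
      (fun e he e' he' hl => mul_inv_eq_one.mp (hsep _ (hD e he e' he') hl))
    have h4 : P'.card = P.card :=
      Finset.card_image_of_injective _ (fun x y h => by simpa using h)
    have h5 : ∑ e ∈ P', μL L m (KSet (fun _ => 0) src dst P' L m e.1) =
        ∑ _e ∈ P', μL L m K := rfl
    rw [h5, Finset.sum_const, h4, nsmul_eq_mul] at h3
    exact num_thin _ _ p3 _ h3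
  refine ⟨X.prod (lamSys L m), E ×ˢ K, hE.prod hKm, ?_, ⟨n2 * n, Nat.mul_pos hn2 hn, ?_, ?_⟩, ?_⟩
  · show (X.μ.prod (μL L m)) (E ×ˢ K) ≤ _
    rw [Measure.prod_prod]
    exact mul_le_mul' hρ hK
  · intro z
    have e1 : a ^ (n2 * n) ∈ Stab (G := G) E := by
      rw [mul_comm, pow_mul]
      exact pow_mem h1 n2
    exact and_congr (e1 z.1) (KSet_smul _ src dst P' (fun e he e' he' =>
      mem_Pw a (Finset.mem_union_left _ (hD e he e' he')) n2 n) () z.2)
  · intro z
    have e1 : s⁻¹ * a ^ (n2 * n) * s ∈ Stab (G := G) E := by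
      have := conj_pow (a := s⁻¹) (b := a ^ n) (i := n2)
      rw [inv_inv] at this
      rw [mul_comm n2 n, pow_mul, ← this]
      exact pow_mem h2 n2
    refine and_congr (e1 z.1) (KSet_smul _ src dst P' (fun e he e' he' => ?_) () z.2)
    have : _ ∈ L := mem_Pw a (Finset.mem_union_right D (Finset.mem_image_of_mem (· * s⁻¹)
      (hD e he e' he'))) n2 n
    simpa only [mul_assoc, mul_inv_rev, inv_inv] using this
  · rintro ⟨z, ω⟩ x
    set R := VC a s (fun y => y • ((z, ω) : X.Z × Lam L m) ∈ E ×ˢ K) with hR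
    have hRe : Equivalence R := GConn.equiv _ _ _
    have key := KSet_good (fun _ : Unit => 0) src dst P' ω
      (fun _ y => y • z ∈ E → R (orb a y) (orb a (s * y))) ?_ ?_
    · exact GConn.map hRe id (fun y hy => key () y hy) (hc z x)
    · intro _ y hy hy'
      exact GConn.edge (src := orb a) (dst := fun y => orb a (s * y)) (e := y) ⟨hy', hy⟩
    · intro e he g hg hy
      have := GConn.map hRe (fun q => g⁻¹ • q) (fun e' he' => ?_) hg
      · simpa only [src, dst, ← orb_mul, mul_assoc] using this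
      · have h5 : (e'.2 * g) • z ∈ E := by
          have h6 : e'.2 * e.2⁻¹ ∈ Stab (G := G) E :=
            mul_mem (p1 _ (hP' _ he'.1)) (inv_mem (p1 _ (hP' _ he)))
          have h7 := (h6 ((e.2 * g) • z)).mpr hy
          rwa [← mul_smul, ← mul_assoc, inv_mul_cancel_right] at h7
        simpa only [src, dst, ← orb_mul, mul_assoc] using he'.2 h5

lemma thin_pow [Countable G] (a s : G) (ha : ¬ IsOfFinOrder a)
    (hstar : Star a s)
    (hV : ∀ a c d : G, ∃ A1 A2 F : Finset G, Viol {1, a} {1, c, d} A1 A2 F) (k : ℕ) :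
    Thin a s ((4 / 5) ^ k) := by
  induction k with
  | zero =>
    refine ⟨lamSys ⊤ 0, Set.univ, MeasurableSet.univ, by simp,
      ⟨1, one_pos, fun _ => by simp, fun _ => by simp⟩, fun z x => ?_⟩
    exact GConn.edge (src := orb a) (dst := fun y => orb a (s * y)) (e := x) trivial
  | succ k ih =>
    rw [pow_succ]
    exact thin_step a s ha hstar hV ih

lemma thin_all [Countable G] (a : G) {ρ : ℝ≥0∞} (T : Finset G) (h : ∀ s ∈ T, Thin a s ρ) :
    ∃ (X : Sys G) (E : G → Set X.Z), ∀ s ∈ T, MeasurableSet (E s) ∧ X.μ (E s) ≤ ρ ∧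
      ∀ (z : X.Z) (x : G), VC a s (fun y => y • z ∈ E s) (orb a x) (orb a (s * x)) := by
  classical
  induction T using Finset.induction_on with
  | empty => exact ⟨lamSys ⊤ 0, fun _ => ∅, by simp⟩
  | insert b T hb ih =>
    obtain ⟨X, E, hE⟩ := ih (fun s hs => h s (Finset.mem_insert_of_mem hs))
    obtain ⟨Y, E', h1, h2, -, h3⟩ := h b (Finset.mem_insert_self _ _)
    refine ⟨X.prod Y, fun s => if s = b then Set.univ ×ˢ E' else E s ×ˢ Set.univ,
      fun s hs => ?_⟩
    by_cases hsb : s = b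
    · subst hsb
      simp only [if_true]
      refine ⟨MeasurableSet.univ.prod h1, ?_, fun z x => ?_⟩
      · show (X.μ.prod Y.μ) (Set.univ ×ˢ E') ≤ _
        rw [Measure.prod_prod, measure_univ, one_mul]
        exact h2
      · exact GConn.mono (fun y hy => ⟨trivial, hy⟩) (h3 z.2 x)
    · simp only [if_neg hsb]
      obtain ⟨c1, c2, c3⟩ := hE s ((Finset.mem_insert.mp hs).resolve_left hsb)
      refine ⟨c1.prod MeasurableSet.univ, ?_, fun z x => ?_⟩
      · show (X.μ.prod Y.μ) (E s ×ˢ Set.univ) ≤ _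
        rw [Measure.prod_prod, measure_univ, mul_one]
        exact c2
      · exact GConn.mono (fun y hy => ⟨hy, trivial⟩) (c3 z.1 x)

/-- The Bernoulli shift as a system. -/
noncomputable def bernSys (G : Type) [Group G] [Countable G] : Sys G where
  Z := Bern G
  μ := μB G
  mp := measurePreserving_smul'

lemma prod_bern_free [Countable G] (X : Sys G) :
    ∀ᵐ x ∂(X.prod (bernSys G)).μ, ∀ g : G, g • x = x → g = 1 := by
  have := (measurePreserving_snd (μ := X.μ) (ν := μB G)).quasiMeasurePreserving.ae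
    (ae_free (G := G))
  filter_upwards [this] with x hx g hg
  exact hx g (congrArg Prod.snd hg)

lemma cost_le_of_thin [Countable G] (a : G) {ρ : ℝ≥0∞} (S : Finset G) (h : ∀ s ∈ S, Thin a s ρ)
    (hS : Subgroup.closure (S : Set G) = ⊤) : groupCost G ≤ 1 + S.card * ρ := by
  classical
  obtain ⟨X, E, hE⟩ := thin_all a S h
  let f : Option S → G := fun o => o.elim a (fun s => (s : G))
  let A : Option S → Set (X.Z × Bern G) := fun o =>
    o.elim Set.univ (fun s => E s ×ˢ Set.univ)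
  have h1 := groupCost_le_of_graphing (G := G) (X := (X.prod (bernSys G)).Z)
    (X.prod (bernSys G)).μ
    (X.prod (bernSys G)).mp (prod_bern_free X) f A ?_ ?_
  · refine h1.trans ?_
    rw [tsum_fintype, Fintype.sum_option]
    refine add_le_add (le_of_eq measure_univ) ((Finset.sum_le_card_nsmul _ _ ρ
      fun s _ => ?_).trans (by simp))
    show (X.μ.prod (μB G)) (E s ×ˢ Set.univ) ≤ _
    rw [Measure.prod_prod, measure_univ, mul_one]
    exact (hE s s.2).2.1
  · rintro (_ | s)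
    · exact MeasurableSet.univ
    · exact (hE s s.2).1.prod MeasurableSet.univ
  · refine Filter.Eventually.of_forall ?_
    set R : X.Z × Bern G → X.Z × Bern G → Prop :=
      Relation.EqvGen (fun y z => ∃ i, y ∈ A i ∧ z = f i • y) with hR
    have hRe : Equivalence R := Relation.EqvGen.is_equivalence _
    let C : Subgroup G :=
      { carrier := {g | ∀ ω, R ω (g • ω)}
        one_mem' := fun ω => by rw [one_smul]; exact hRe.refl ω
        mul_mem' := fun {a b} ha hb ω => by rw [mul_smul]; exact hRe.trans (hb ω) (ha _)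
        inv_mem' := fun {a} ha ω => by
          have := ha (a⁻¹ • ω)
          rw [smul_inv_smul] at this
          exact hRe.symm this }
    have ha : Subgroup.zpowers a ≤ C := by
      rw [Subgroup.zpowers_le]
      exact fun ω => Relation.EqvGen.rel _ _ ⟨none, trivial, rfl⟩
    have horb : ∀ (ω : X.Z × Bern G) (y : G), R ((orb a y).out⁻¹ • ω) (y • ω) := by
      intro ω y
      have h2 : y * (orb a y).out ∈ Subgroup.zpowers a := by
        have : ((y⁻¹ : G) : G ⧸ Subgroup.zpowers a) = ((orb a y).out : G) :=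
          (QuotientGroup.out_eq' _).symm
        simpa using QuotientGroup.eq.mp this
      have := ha h2 ((orb a y).out⁻¹ • ω)
      rwa [← mul_smul, mul_inv_cancel_right] at this
    have hC : ⊤ ≤ C := by
      rw [← hS, Subgroup.closure_le]
      intro s hs ω
      have h2 := GConn.map hRe (fun q => q.out⁻¹ • ω) (fun y hy => ?_) ((hE s hs).2.2 ω.1 1)
      · have h3 := hRe.trans (hRe.symm (horb ω 1)) (hRe.trans h2 (horb ω _))
        simpa using h3
      · refine hRe.trans (horb ω y) (hRe.trans ?_ (hRe.symm (horb ω _)))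
        rw [mul_smul]
        exact Relation.EqvGen.rel _ _ ⟨some ⟨s, hs⟩, ⟨hy, trivial⟩, rfl⟩
    exact fun ω g => hC (Subgroup.mem_top g) ω

theorem five_star (S : Finset G) (hS : Subgroup.closure (S : Set G) = ⊤) (a0 : G)
    (ha : ¬ IsOfFinOrder a0) (hstar : ∀ s ∈ S, Star a0 s)
    (hc : 1 < groupCost G) :
    ∃ (P : Fin 2 → Set G) (Q : Fin 3 → Set G) (g : Fin 2 → G) (h : Fin 3 → G),
      (∀ i j, i ≠ j → Disjoint (P i) (P j)) ∧
      (∀ i j, i ≠ j → Disjoint (Q i) (Q j)) ∧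
      (∀ i j, Disjoint (P i) (Q j)) ∧
      (⋃ i, (fun x : G => g i * x) '' P i) = Set.univ ∧
      (⋃ j, (fun x : G => h j * x) '' Q j) = Set.univ := by
  classical
  by_cases hV : ∀ a c d : G, ∃ A1 A2 F : Finset G, Viol {1, a} {1, c, d} A1 A2 F
  · have : Countable G := countable_of_fg (Group.fg_def.mpr ⟨S, hS⟩)
    have h1 : ∀ k : ℕ, groupCost G ≤ 1 + S.card * (4 / 5 : ℝ≥0∞) ^ k := fun k =>
      cost_le_of_thin a0 S (fun s hs => thin_pow a0 s ha (hstar s hs) hV k) hS
    have h2 : Filter.Tendsto (fun k : ℕ => 1 + S.card * (4 / 5 : ℝ≥0∞) ^ k) Filter.atTop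
        (nhds (1 + S.card * 0)) := by
      refine Filter.Tendsto.const_add _ (ENNReal.Tendsto.const_mul ?_ (Or.inr (by simp)))
      refine ENNReal.tendsto_pow_atTop_nhds_zero_of_lt_one ?_
      rw [ENNReal.div_lt_iff (by simp) (by simp)]
      norm_num
    have h3 := ge_of_tendsto' h2 h1
    rw [mul_zero, add_zero] at h3
    exact absurd h3 (not_le.mpr hc)
  · simp only [not_forall] at hV
    obtain ⟨a, c, d, hV⟩ := hV
    refine paradox ![1, a] ![1, c, d] {1, a} {1, c, d} ?_ ?_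
      (hall_of_not_viol _ _ (by simpa using hV))
    · intro s hs
      simp only [Finset.mem_insert, Finset.mem_singleton] at hs
      rcases hs with rfl | rfl
      exacts [⟨0, rfl⟩, ⟨1, rfl⟩]
    · intro s hs
      simp only [Finset.mem_insert, Finset.mem_singleton] at hs
      rcases hs with rfl | rfl | rfl
      exacts [⟨0, rfl⟩, ⟨1, rfl⟩, ⟨2, rfl⟩]

/-- The separation property holds when the subgroup generated by `a` and `s` is residually
finite. -/
lemma star_of_residuallyFinite (a s : G)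
    (h : Group.ResiduallyFinite (Subgroup.closure ({a, s} : Set G))) : Star a s := by
  intro U hU g hg
  set H := Subgroup.closure ({a, s} : Set G) with hH
  by_cases hgH : g ∈ H
  · obtain ⟨N, hN⟩ := Group.exists_finiteIndexNormalSubgroup_notMem (⟨g, hgH⟩ : H)
      (fun h => hg (congrArg Subtype.val h))
    refine ⟨N.toSubgroup.index, Nat.pos_of_ne_zero Subgroup.FiniteIndex.index_ne_zero,
      fun hc => hN ?_⟩
    have h1 : Pw a U N.toSubgroup.index ≤ N.toSubgroup.map H.subtype := by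
      refine (Subgroup.closure_le _).mpr ?_
      rintro _ ⟨u, hu, rfl⟩
      refine ⟨⟨u, hU u hu⟩ * ⟨a, mem_cl_left a s⟩ ^ N.toSubgroup.index * ⟨u, hU u hu⟩⁻¹, ?_, rfl⟩
      exact Subgroup.Normal.conj_mem inferInstance _ (Subgroup.pow_index_mem _ _) _
    obtain ⟨x, hx, hx'⟩ := h1 hc
    have : x = ⟨g, hgH⟩ := Subtype.ext hx'
    exact this ▸ hx
  · refine ⟨1, one_pos, fun hc => hgH ?_⟩
    have h1 : Pw a U 1 ≤ H := by
      refine (Subgroup.closure_le _).mpr ?_
      rintro _ ⟨u, hu, rfl⟩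
      exact mul_mem (mul_mem (hU u hu) (pow_mem (mem_cl_left a s) 1)) (inv_mem (hU u hu))
    exact h1 hc

end Pool.Agent.H889Z.Tar
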