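import Pool.Agent.H889Z.TarCost

/-!
Random labels on coset spaces and thinning of edge sets along translates of a finite pattern.
-/

set_option autoImplicit false

namespace Pool.Agent.H889Z.Tar

open MeasureTheory ProbabilityTheory
open scoped ENNReal

section graph

variable {ε V : Type}

/-- Connectivity through the edges `e` with `E e`. -/
def GConn (src dst : ε → V) (E : ε → Prop) : V → V → Prop :=
  Relation.EqvGen (fun x y => ∃ e, E e ∧ x = src e ∧ y = dst e)

variable {src dst : ε → V}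

lemma GConn.equiv (src dst : ε → V) (E : ε → Prop) : Equivalence (GConn src dst E) :=
  Relation.EqvGen.is_equivalence _

lemma GConn.edge {E : ε → Prop} {e : ε} (h : E e) : GConn src dst E (src e) (dst e) :=
  Relation.EqvGen.rel _ _ ⟨e, h, rfl, rfl⟩

lemma GConn.map {V' : Type} {E : ε → Prop} {R : V' → V' → Prop} (hR : Equivalence R)
    (f : V → V') (h : ∀ e, E e → R (f (src e)) (f (dst e))) {x y : V}
    (hxy : GConn src dst E x y) : R (f x) (f y) := by
  induction hxy with
  | rel x y hr =>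
    obtain ⟨e, h1, rfl, rfl⟩ := hr
    exact h e h1
  | refl x => exact hR.refl _
  | symm x y _ ih => exact hR.symm ih
  | trans x y z _ _ ih1 ih2 => exact hR.trans ih1 ih2

lemma GConn.mono {E E' : ε → Prop} (h : ∀ e, E e → E' e) {x y : V}
    (hxy : GConn src dst E x y) : GConn src dst E' x y :=
  GConn.map (GConn.equiv src dst E') id (fun e he => GConn.edge (h e he)) hxy

lemma gforest {L : Type} [LinearOrder L] [Nonempty V] (src dst : ε → V) (lab : ε → L) (W : Finset V)
    (Ω : Finset ε)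
    (hK : ∀ e ∈ Ω, ¬ GConn src dst (fun e' => e' ∈ Ω ∧ lab e' < lab e) (src e) (dst e))
    (hW : ∀ e ∈ Ω, src e ∈ W ∧ dst e ∈ W)
    (hinj : ∀ e ∈ Ω, ∀ e' ∈ Ω, lab e = lab e' → e = e') : Ω.card ≤ W.card := by
  classical
  let _ : LinearOrder V := linearOrderOfSTO WellOrderingRel
  have hmin : ∀ (n : L) (u : V), u ∈ W → ∃ w ∈ W,
      GConn src dst (fun e' => e' ∈ Ω ∧ lab e' < n) u w ∧
      ∀ w' ∈ W, GConn src dst (fun e' => e' ∈ Ω ∧ lab e' < n) u w' → w ≤ w' := by
    intro n u hu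
    obtain ⟨w, hw, hw'⟩ := Finset.exists_min_image
      (W.filter (fun w => GConn src dst (fun e' => e' ∈ Ω ∧ lab e' < n) u w)) id
      ⟨u, Finset.mem_filter.mpr ⟨hu, (GConn.equiv _ _ _).refl u⟩⟩
    exact ⟨w, (Finset.mem_filter.mp hw).1, (Finset.mem_filter.mp hw).2,
      fun w' h1 h2 => hw' w' (Finset.mem_filter.mpr ⟨h1, h2⟩)⟩
  have key : ∀ e ∈ Ω, ∃ w ∈ W,
      (∀ w' ∈ W, GConn src dst (fun e' => e' ∈ Ω ∧ lab e' < lab e) w w' → w ≤ w') ∧
      ∃ w' ∈ W, w' < w ∧ GConn src dst (fun e' => e' ∈ Ω ∧ lab e' ≤ lab e) w w' := by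
    intro e he
    obtain ⟨a, a1, a2, a3⟩ := hmin (lab e) _ (hW e he).1
    obtain ⟨b, b1, b2, b3⟩ := hmin (lab e) _ (hW e he).2
    have hE := GConn.equiv src dst (fun e' => e' ∈ Ω ∧ lab e' < lab e)
    have hE' := GConn.equiv src dst (fun e' => e' ∈ Ω ∧ lab e' ≤ lab e)
    have hab : GConn src dst (fun e' => e' ∈ Ω ∧ lab e' ≤ lab e) a b := by
      refine hE'.trans (hE'.symm (GConn.mono (fun _ h => ⟨h.1, h.2.le⟩) a2))
        (hE'.trans (GConn.edge ⟨he, le_rfl⟩) (GConn.mono (fun _ h => ⟨h.1, h.2.le⟩) b2))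
    have hne : a ≠ b := by
      rintro rfl
      exact hK e he (hE.trans a2 (hE.symm b2))
    rcases lt_or_gt_of_ne hne with h | h
    · exact ⟨b, b1, fun w' c1 c2 => b3 w' c1 (hE.trans b2 c2), a, a1, h, hE'.symm hab⟩
    · exact ⟨a, a1, fun w' c1 c2 => a3 w' c1 (hE.trans a2 c2), b, b1, h, hab⟩
  choose! ψ hψ using key
  refine Finset.card_le_card_of_injOn ψ (fun e he => (hψ e he).1) ?_
  have aux : ∀ e ∈ Ω, ∀ e' ∈ Ω, ψ e = ψ e' → ¬ lab e < lab e' := by
    intro e he e' he' h hlt
    obtain ⟨-, -, w', c1, c2, c3⟩ := hψ e he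
    have := (hψ e' he').2.1 w' c1
      (h ▸ GConn.mono (fun _ h => ⟨h.1, lt_of_le_of_lt h.2 hlt⟩) c3)
    rw [← h] at this
    exact absurd c2 (not_lt.mpr this)
  intro e he e' he' h
  exact hinj e he e' he' (le_antisymm (not_lt.mp (aux e' he' e he h.symm))
    (not_lt.mp (aux e he e' he' h)))

end graph

lemma sum_measure_le {X κ : Type} [MeasurableSpace X] (μ : Measure X) [IsProbabilityMeasure μ]
    (P : Finset κ) (A : κ → Set X) (hA : ∀ e, MeasurableSet (A e)) (C : Set X)
    (hC : MeasurableSet C) (w : ℕ)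
    (h : ∀ x, x ∉ C → ∀ Ω : Finset κ, Ω ⊆ P → (∀ e ∈ Ω, x ∈ A e) → Ω.card ≤ w) :
    ∑ e ∈ P, μ (A e) ≤ w + P.card * μ C := by
  classical
  have h1 : ∑ e ∈ P, μ (A e) = ∫⁻ x, ∑ e ∈ P, (A e).indicator (1 : X → ℝ≥0∞) x ∂μ := by
    rw [lintegral_finsetSum _ (fun e _ => measurable_one.indicator (hA e))]
    exact Finset.sum_congr rfl fun e _ => (lintegral_indicator_one (hA e)).symm
  have h2 : (w : ℝ≥0∞) + P.card * μ C =
      ∫⁻ x, (w : ℝ≥0∞) + P.card * C.indicator (1 : X → ℝ≥0∞) x ∂μ := by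
    rw [lintegral_add_left measurable_const, lintegral_const, measure_univ, mul_one,
      lintegral_const_mul _ (measurable_one.indicator hC), lintegral_indicator_one hC]
  rw [h1, h2]
  refine lintegral_mono fun x => ?_
  have h3 : ∑ e ∈ P, (A e).indicator (1 : X → ℝ≥0∞) x = (P.filter (fun e => x ∈ A e)).card := by
    rw [Finset.card_filter, Nat.cast_sum]
    refine Finset.sum_congr rfl fun e _ => ?_
    by_cases hx : x ∈ A e <;> simp [hx]
  simp only [h3]
  by_cases hx : x ∈ C
  · rw [Set.indicator_of_mem hx, Pi.one_apply, mul_one]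
    exact le_add_left (by exact_mod_cast Finset.card_filter_le _ _)
  · refine le_add_right ?_
    exact_mod_cast h x hx _ (Finset.filter_subset _ _) (fun e he => (Finset.mem_filter.mp he).2)

variable {G : Type} [Group G]

/-- A measure preserving action on a standard probability space. -/
structure Sys (G : Type) [Group G] : Type 1 where
  Z : Type
  [ms : MeasurableSpace Z]
  [sb : StandardBorelSpace Z]
  μ : Measure Z
  [pm : IsProbabilityMeasure μ]
  [act : MulAction G Z]
  mp : ∀ g : G, MeasurePreserving (fun z : Z => g • z) μ μ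

attribute [instance] Sys.ms Sys.sb Sys.pm Sys.act

/-- The diagonal action on a product. -/
noncomputable def Sys.prod (X Y : Sys G) : Sys G where
  Z := X.Z × Y.Z
  μ := X.μ.prod Y.μ
  mp := fun g => (X.mp g).prod (Y.mp g)

/-- Labellings of the coset space of `L`. -/
def Lam (L : Subgroup G) (m : ℕ) : Type := G ⧸ L → Fin (m + 1)

instance (L : Subgroup G) (m : ℕ) : MeasurableSpace (Lam L m) :=
  inferInstanceAs (MeasurableSpace (G ⧸ L → Fin (m + 1)))

instance [Countable G] (L : Subgroup G) (m : ℕ) : StandardBorelSpace (Lam L m) :=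
  haveI : Countable (G ⧸ L) := Quotient.countable
  inferInstanceAs (StandardBorelSpace (G ⧸ L → Fin (m + 1)))

/-- The uniform product measure on labellings. -/
noncomputable def μL (L : Subgroup G) (m : ℕ) : Measure (Lam L m) :=
  Measure.infinitePi (fun _ : G ⧸ L => (uniformOn Set.univ : Measure (Fin (m + 1))))

instance (L : Subgroup G) (m : ℕ) : IsProbabilityMeasure (μL L m) :=
  inferInstanceAs (IsProbabilityMeasure
    (Measure.infinitePi (fun _ : G ⧸ L => (uniformOn Set.univ : Measure (Fin (m + 1))))))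

/-- The value of a labelling at a coset. -/
def Lam.val {L : Subgroup G} {m : ℕ} (ω : Lam L m) (q : G ⧸ L) : Fin (m + 1) := ω q

instance (L : Subgroup G) (m : ℕ) : MulAction G (Lam L m) where
  smul g ω := fun q => ω.val (g⁻¹ • q)
  one_smul ω := by
    funext q
    change ω.val ((1 : G)⁻¹ • q) = ω.val q
    rw [inv_one, one_smul]
  mul_smul a b ω := by
    funext q
    change ω.val ((a * b)⁻¹ • q) = ω.val (b⁻¹ • a⁻¹ • q)
    rw [mul_inv_rev, mul_smul]

/-- The label of a group element. -/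
def Lam.lab {L : Subgroup G} {m : ℕ} (ω : Lam L m) (x : G) : Fin (m + 1) :=
  ω.val ((x⁻¹ : G) : G ⧸ L)

variable {L : Subgroup G} {m : ℕ}

lemma lab_smul (g : G) (ω : Lam L m) (x : G) : (g • ω).lab x = ω.lab (x * g) := by
  change ω.val (g⁻¹ • ((x⁻¹ : G) : G ⧸ L)) = ω.val _
  rw [MulAction.Quotient.smul_coe, smul_eq_mul, mul_inv_rev]

lemma lab_left {l : G} (hl : l ∈ L) (ω : Lam L m) (x : G) : ω.lab (l * x) = ω.lab x := by
  unfold Lam.lab
  congr 1
  rw [QuotientGroup.eq]
  simpa using hl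

lemma measurable_val (q : G ⧸ L) : Measurable (fun ω : Lam L m => ω.val q) :=
  measurable_pi_apply (X := fun _ : G ⧸ L => Fin (m + 1)) q

lemma mp_lam (g : G) : MeasurePreserving (fun ω : Lam L m => g • ω) (μL L m) (μL L m) :=
  ⟨measurable_pi_lambda (X := fun _ : G ⧸ L => Fin (m + 1)) _ (fun _ => measurable_val _),
    Measure.map_infinitePi_infinitePi_of_inj
      (P := fun _ : G ⧸ L => (uniformOn Set.univ : Measure (Fin (m + 1))))
      (MulAction.injective g⁻¹)⟩

/-- The labellings as a system. -/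
noncomputable def lamSys [Countable G] (L : Subgroup G) (m : ℕ) : Sys G where
  Z := Lam L m
  μ := μL L m
  mp := mp_lam

lemma meas_collide {q q' : G ⧸ L} (h : q ≠ q') :
    μL L m {ω | ω.val q = ω.val q'} ≤ ((m + 1 : ℕ) : ℝ≥0∞)⁻¹ := by
  classical
  have h1 : {ω : Lam L m | ω.val q = ω.val q'} ⊆
      ⋃ v ∈ (Finset.univ : Finset (Fin (m + 1))),
        (Set.pi (({q, q'} : Finset (G ⧸ L)) : Set (G ⧸ L)) (fun _ => {v}) :
          Set (G ⧸ L → Fin (m + 1))) := by
    intro ω hω
    refine Set.mem_biUnion (Finset.mem_coe.mpr (Finset.mem_univ (ω.val q))) ?_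
    intro i hi
    simp only [Finset.coe_insert, Finset.coe_singleton, Set.mem_insert_iff,
      Set.mem_singleton_iff] at hi
    rcases hi with rfl | rfl
    · rfl
    · exact hω.symm
  refine (measure_mono h1).trans ((measure_biUnion_finset_le _ _).trans (le_of_eq ?_))
  have h2 : ∀ v : Fin (m + 1), μL L m (Set.pi (({q, q'} : Finset (G ⧸ L)) : Set (G ⧸ L))
      (fun _ => {v}) : Set (G ⧸ L → Fin (m + 1))) =
      ((m + 1 : ℕ) : ℝ≥0∞)⁻¹ * ((m + 1 : ℕ) : ℝ≥0∞)⁻¹ := by
    intro v
    have := Measure.infinitePi_pi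
      (fun _ : G ⧸ L => (uniformOn Set.univ : Measure (Fin (m + 1)))) (s := {q, q'})
      (t := fun _ => {v}) (fun _ _ => measurableSet_singleton v)
    rw [Finset.prod_pair h, uniformOn_univ] at this
    refine this.trans ?_
    simp
  rw [Finset.sum_congr rfl (fun v _ => h2 v), Finset.sum_const, Finset.card_univ,
    Fintype.card_fin, nsmul_eq_mul, ← mul_assoc, ENNReal.mul_inv_cancel (by simp) (by simp),
    one_mul]

lemma measurableSet_of_depends (D : Finset G) (Φ : (G → Fin (m + 1)) → Prop)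
    (h : ∀ f f' : G → Fin (m + 1), (∀ x ∈ D, f x = f' x) → Φ f → Φ f') :
    MeasurableSet {ω : Lam L m | Φ ω.lab} := by
  have h1 : Measurable (fun (ω : Lam L m) (x : D) => ω.lab x) :=
    measurable_pi_lambda _ (fun x => measurable_val _)
  have h2 : {ω : Lam L m | Φ ω.lab} = (fun (ω : Lam L m) (x : D) => ω.lab x) ⁻¹'
      {φ | ∃ f : G → Fin (m + 1), (∀ x : D, f x = φ x) ∧ Φ f} := by
    ext ω
    constructor
    · intro hω
      exact ⟨ω.lab, fun _ => rfl, hω⟩
    · rintro ⟨f, h3, h4⟩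
      exact h f _ (fun x hx => h3 ⟨x, hx⟩) h4
  rw [h2]
  exact h1 (Set.toFinite _).measurableSet

section thin

variable {ι V : Type} (enc : ι → ℕ) (src dst : ι × G → V) (P : Finset (ι × G))

/-- The edge `e` of the pattern is kept for the labels `f`. -/
def KP (f : G → Fin (m + 1)) (e : ι × G) : Prop :=
  ¬ GConn src dst (fun e' => e' ∈ P ∧
    toLex (f e'.2, enc e'.1) < toLex (f e.2, enc e.1)) (src e) (dst e)

/-- The labellings for which the edge of type `i` at the identity is kept in every translate of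
the pattern through it. -/
def KSet (L : Subgroup G) (m : ℕ) (i : ι) : Set (Lam L m) :=
  {ω | ∀ e ∈ P, e.1 = i → KP enc src dst P (fun x => ω.lab (x * e.2⁻¹)) e}

omit [Group G] in
lemma KP.congr {f f' : G → Fin (m + 1)} {e : ι × G} (he : e ∈ P)
    (h : ∀ e' ∈ P, f e'.2 = f' e'.2) (hk : KP enc src dst P f e) : KP enc src dst P f' e := by
  intro hc
  refine hk (GConn.mono (fun e' he' => ⟨he'.1, ?_⟩) hc)
  rw [h e' he'.1, h e he]
  exact he'.2

lemma measurableSet_KSet (i : ι) : MeasurableSet (KSet enc src dst P L m i) := by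
  classical
  refine measurableSet_of_depends ((P ×ˢ P).image (fun p => p.1.2 * p.2.2⁻¹))
    (fun f => ∀ e ∈ P, e.1 = i → KP enc src dst P (fun x => f (x * e.2⁻¹)) e) ?_
  intro f f' h h1 e he hi
  refine KP.congr enc src dst P he (fun e' he' => h _ ?_) (h1 e he hi)
  exact Finset.mem_image.mpr ⟨(e', e), Finset.mem_product.mpr ⟨he', he⟩, rfl⟩

lemma KSet_smul {h : G}
    (hh : ∀ e ∈ P, ∀ e' ∈ P, (e'.2 * e.2⁻¹) * h * (e'.2 * e.2⁻¹)⁻¹ ∈ L) (i : ι) (ω : Lam L m) :
    h • ω ∈ KSet enc src dst P L m i ↔ ω ∈ KSet enc src dst P L m i := by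
  have key : ∀ e ∈ P, ∀ e' ∈ P, (h • ω).lab (e'.2 * e.2⁻¹) = ω.lab (e'.2 * e.2⁻¹) := by
    intro e he e' he'
    rw [lab_smul, ← lab_left (hh e he e' he') ω (e'.2 * e.2⁻¹)]
    congr 1
    group
  exact ⟨fun h1 e he hi => KP.congr enc src dst P he (key e he) (h1 e he hi),
    fun h1 e he hi => KP.congr enc src dst P he (fun e' he' => (key e he e' he').symm)
      (h1 e he hi)⟩

lemma KSet_good (ω : Lam L m) (Good : ι → G → Prop)
    (h1 : ∀ i x, x • ω ∈ KSet enc src dst P L m i → Good i x)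
    (h2 : ∀ e ∈ P, ∀ g : G, GConn src dst (fun e' => e' ∈ P ∧ Good e'.1 (e'.2 * g))
      (src e) (dst e) → Good e.1 (e.2 * g)) (i : ι) (x : G) : Good i x := by
  have H : ∀ n : Fin (m + 1) ×ₗ ℕ, ∀ i x, toLex (ω.lab x, enc i) = n → Good i x := by
    intro n
    induction n using WellFoundedLT.induction with
    | ind n ih =>
      intro i x hx
      by_cases hk : x • ω ∈ KSet enc src dst P L m i
      · exact h1 i x hk
      · simp only [KSet, Set.mem_ofPred_eq, not_forall] at hk
        obtain ⟨e, he, rfl, hk⟩ := hk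
        unfold KP at hk
        rw [not_not] at hk
        have := h2 e he (e.2⁻¹ * x) (GConn.mono (fun e' he' => ⟨he'.1, ih _ (by
          have h3 := he'.2
          simp only [lab_smul, mul_inv_cancel, one_mul] at h3
          rw [← hx, ← mul_assoc]
          exact h3) _ _ rfl⟩) hk)
        rwa [mul_inv_cancel_left] at this
  exact H _ i x rfl

lemma KSet_measure [Nonempty V] (henc : Function.Injective enc) (W : Finset V)
    (hW : ∀ e ∈ P, src e ∈ W ∧ dst e ∈ W)
    (hsep : ∀ e ∈ P, ∀ e' ∈ P, e'.2 * e.2⁻¹ ∈ L → e'.2 = e.2) :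
    ∑ e ∈ P, μL L m (KSet enc src dst P L m e.1) ≤
      W.card + P.card * (P.card ^ 2 * ((m + 1 : ℕ) : ℝ≥0∞)⁻¹) := by
  classical
  let C : Set (Lam L m) := ⋃ p ∈ (P ×ˢ P).filter (fun p => p.1.2 ≠ p.2.2),
    {ω | ω.lab p.1.2 = ω.lab p.2.2}
  have hC : MeasurableSet C := Finset.measurableSet_biUnion _ fun p _ =>
    measurableSet_eq_fun (measurable_val _) (measurable_val _)
  have hC' : μL L m C ≤ P.card ^ 2 * ((m + 1 : ℕ) : ℝ≥0∞)⁻¹ := by
    refine (measure_biUnion_finset_le _ _).trans ((Finset.sum_le_card_nsmul _ _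
      ((m + 1 : ℕ) : ℝ≥0∞)⁻¹ fun p hp => ?_).trans ?_)
    · obtain ⟨h1, h2⟩ := Finset.mem_filter.mp hp
      obtain ⟨h3, h4⟩ := Finset.mem_product.mp h1
      refine meas_collide fun hc => h2 (hsep _ h4 _ h3 ?_)
      simpa using QuotientGroup.eq.mp hc
    · rw [nsmul_eq_mul]
      gcongr
      have := Finset.card_filter_le (P ×ˢ P) (fun p => p.1.2 ≠ p.2.2)
      rw [Finset.card_product, ← pow_two] at this
      exact_mod_cast this
  have h := sum_measure_le (μL L m) P
    (fun e => (fun ω : Lam L m => e.2 • ω) ⁻¹' KSet enc src dst P L m e.1)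
    (fun e => (mp_lam _).measurable (measurableSet_KSet enc src dst P e.1)) C hC W.card ?_
  · refine le_trans (le_of_eq ?_) (h.trans (by gcongr))
    exact Finset.sum_congr rfl fun e _ => ((mp_lam e.2).measure_preimage
      (measurableSet_KSet enc src dst P e.1).nullMeasurableSet).symm
  · intro ω hω Ω h1 h2
    refine gforest src dst (fun e => toLex (ω.lab e.2, enc e.1)) W Ω ?_
      (fun e he => hW e (h1 he)) ?_
    · intro e he hc
      refine h2 e he e (h1 he) rfl (GConn.mono (fun e' he' => ⟨h1 he'.1, ?_⟩) hc)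
      simpa only [lab_smul, inv_mul_cancel_right] using he'.2
    · intro e he e' he' hl
      have h3 : ω.lab e.2 = ω.lab e'.2 := congrArg (fun z => (ofLex z).1) hl
      have h4 : enc e.1 = enc e'.1 := congrArg (fun z => (ofLex z).2) hl
      refine Prod.ext (henc h4) ?_
      by_contra hc
      exact hω (Set.mem_biUnion (Finset.mem_coe.mpr (Finset.mem_filter.mpr
        ⟨Finset.mk_mem_product (h1 he) (h1 he'), hc⟩)) h3)

end thin

end Pool.Agent.H889Z.Tar
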