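import Pool.Agent.H889Z.TarBase

/-!
Violations of the Hall condition force the rank gradient of a residually finite group to vanish.
-/

set_option autoImplicit false

namespace Pool.Agent.H889Z.Tar

variable {G : Type} [Group G]

/-- A violation of the Hall condition for the translating sets `S1`, `S2`. -/
def Viol (S1 S2 : Set G) (A1 A2 F : Finset G) : Prop :=
  (∀ x ∈ A1, ∀ s ∈ S1, s * x ∈ F) ∧ (∀ x ∈ A2, ∀ s ∈ S2, s * x ∈ F) ∧
    F.card < A1.card + A2.card

lemma Viol.restrict {S1 S2 : Set G} {A1 A2 F : Finset G} (h : Viol S1 S2 A1 A2 F)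
    (N : Subgroup G) [N.Normal] (h1 : S1 ⊆ N) (h2 : S2 ⊆ N) :
    ∃ A1 A2 F : Finset G, Viol S1 S2 A1 A2 F ∧ ∀ x ∈ F, x ∈ N := by
  classical
  obtain ⟨a1, a2, a3⟩ := h
  let π : G → G ⧸ N := fun x => (x : G ⧸ N)
  let C : Finset (G ⧸ N) := (A1 ∪ A2 ∪ F).image π
  have e1 := Finset.card_eq_sum_card_fiberwise (f := π) (s := A1) (t := C)
    (fun x hx => Finset.mem_image_of_mem _ (by simp [Finset.mem_coe.mp hx]))
  have e2 := Finset.card_eq_sum_card_fiberwise (f := π) (s := A2) (t := C)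
    (fun x hx => Finset.mem_image_of_mem _ (by simp [Finset.mem_coe.mp hx]))
  have e3 := Finset.card_eq_sum_card_fiberwise (f := π) (s := F) (t := C)
    (fun x hx => Finset.mem_image_of_mem _ (by simp [Finset.mem_coe.mp hx]))
  rw [e1, e2, e3, ← Finset.sum_add_distrib] at a3
  obtain ⟨q, -, hq⟩ := Finset.exists_lt_of_sum_lt a3
  have hs : ∀ s ∈ N, ∀ x, π (s * x) = π x := fun s hs x => by
    show ((s * x : G) : G ⧸ N) = x
    rw [QuotientGroup.mk_mul, (QuotientGroup.eq_one_iff s).mpr hs, one_mul]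
  refine ⟨(A1.filter (fun x => π x = q)).image (· * q.out⁻¹),
    (A2.filter (fun x => π x = q)).image (· * q.out⁻¹),
    (F.filter (fun x => π x = q)).image (· * q.out⁻¹), ⟨?_, ?_, ?_⟩, ?_⟩
  · intro x hx s hs1
    obtain ⟨y, hy, rfl⟩ := Finset.mem_image.mp hx
    obtain ⟨b1, b2⟩ := Finset.mem_filter.mp hy
    exact Finset.mem_image.mpr ⟨s * y, Finset.mem_filter.mpr ⟨a1 y b1 s hs1,
      by rw [hs s (h1 hs1), b2]⟩, mul_assoc _ _ _⟩
  · intro x hx s hs2
    obtain ⟨y, hy, rfl⟩ := Finset.mem_image.mp hx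
    obtain ⟨b1, b2⟩ := Finset.mem_filter.mp hy
    exact Finset.mem_image.mpr ⟨s * y, Finset.mem_filter.mpr ⟨a2 y b1 s hs2,
      by rw [hs s (h2 hs2), b2]⟩, mul_assoc _ _ _⟩
  · simpa only [Finset.card_image_of_injective _ (mul_left_injective _)] using hq
  · intro x hx
    obtain ⟨y, hy, rfl⟩ := Finset.mem_image.mp hx
    obtain ⟨-, b2⟩ := Finset.mem_filter.mp hy
    rw [← QuotientGroup.eq_one_iff, QuotientGroup.mk_mul, QuotientGroup.mk_inv,
      QuotientGroup.out_eq', ← b2]
    exact mul_inv_cancel _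

lemma exists_sep [Group.ResiduallyFinite G] (N : Subgroup G) [N.Normal] [N.FiniteIndex]
    (T : Finset G) : ∃ M : Subgroup G, M.Normal ∧ M.FiniteIndex ∧ M ≤ N ∧
      ∀ g ∈ T, g ∈ M → g = 1 := by
  classical
  induction T using Finset.induction_on with
  | empty => exact ⟨N, inferInstance, inferInstance, le_rfl, by simp⟩
  | insert a T _ ih =>
    obtain ⟨M, h1, h2, h3, h4⟩ := ih
    by_cases ha : a = 1
    · refine ⟨M, h1, h2, h3, fun g hg hM => ?_⟩
      rcases Finset.mem_insert.mp hg with rfl | hg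
      · exact ha
      · exact h4 g hg hM
    · obtain ⟨H, hH⟩ := Group.exists_finiteIndexNormalSubgroup_notMem a ha
      refine ⟨M ⊓ H.toSubgroup, inferInstance, inferInstance, inf_le_left.trans h3,
        fun g hg hM => ?_⟩
      rcases Finset.mem_insert.mp hg with rfl | hg
      · exact absurd hM.2 hH
      · exact h4 g hg hM.1

lemma exists_sep' [Group.ResiduallyFinite G] (N : Subgroup G) [N.Normal] [N.FiniteIndex]
    {κ : Type} [Fintype κ] (F : κ → Finset G) : ∃ M : Subgroup G, M.Normal ∧ M.FiniteIndex ∧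
      M ≤ N ∧ ∀ j, ∀ x ∈ F j, ∀ y ∈ F j, x⁻¹ * y ∈ M → x = y := by
  classical
  obtain ⟨M, h1, h2, h3, h4⟩ := exists_sep N (Finset.univ.biUnion fun j =>
    (F j ×ˢ F j).image (fun p => p.1⁻¹ * p.2))
  refine ⟨M, h1, h2, h3, fun j x hx y hy hM => ?_⟩
  exact inv_mul_eq_one.mp (h4 _ (Finset.mem_biUnion.mpr ⟨j, Finset.mem_univ _,
    Finset.mem_image.mpr ⟨(x, y), Finset.mem_product.mpr ⟨hx, hy⟩, rfl⟩⟩) hM)

/-- Listing a finite set in blocks of a given size. -/
lemma exists_blocks (S : Finset G) (b : ℕ) (hb : 0 < b) : ∃ (k : ℕ) (t : Fin k × Fin b → G),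
    b * k ≤ S.card + b ∧ (∀ p, t p ∈ S ∨ t p = 1) ∧ ∀ x ∈ S, ∃ p, t p = x := by
  let k := S.card / b + 1
  have hk : S.card ≤ k * b := by
    have := Nat.lt_div_mul_add (a := S.card) hb
    show S.card ≤ (S.card / b + 1) * b
    rw [add_mul, one_mul]
    exact this.le
  let u : Fin (k * b) → G := fun i =>
    if h : i.1 < S.card then (S.equivFin.symm ⟨i.1, h⟩ : G) else 1
  refine ⟨k, fun p => u (finProdFinEquiv p), ?_, fun p => ?_, fun x hx => ?_⟩
  · show b * (S.card / b + 1) ≤ _
    rw [mul_add, mul_one]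
    exact Nat.add_le_add_right (Nat.mul_div_le _ _) _
  · by_cases h : (finProdFinEquiv p).1 < S.card
    · left
      simp only [u, dif_pos h]
      exact Finset.coe_mem _
    · right
      simp only [u, dif_neg h]
  · refine ⟨finProdFinEquiv.symm ⟨(S.equivFin ⟨x, hx⟩).1,
      lt_of_lt_of_le (S.equivFin ⟨x, hx⟩).2 hk⟩, ?_⟩
    show u (finProdFinEquiv (finProdFinEquiv.symm _)) = x
    rw [Equiv.apply_symm_apply]
    simp [u]

lemma kept_out {ι L : Type} [LinearOrder L] (M : Subgroup G) (t : ι → G) (e : ι → G ⧸ M → L)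
    (i : ι) (x : G) : Kept t (fun i x => e i (x : G ⧸ M)) i x ↔
      Kept t (fun i x => e i (x : G ⧸ M)) i (x : G ⧸ M).out := by
  obtain ⟨m, hm⟩ := QuotientGroup.mk_out_eq_mul M x
  rw [hm]
  refine (kept_mul_right t _ m (fun i y => ?_) i x).symm
  simp

/-- The conclusion of one reduction step. -/
def Step (G : Type) [Group G] : Prop :=
  ∀ (N : Subgroup G) (_ : N.Normal) (_ : N.FiniteIndex) (S : Finset G),
    Subgroup.closure (S : Set G) = N → ∃ (M : Subgroup G) (S' : Finset G), M.Normal ∧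
      M.FiniteIndex ∧ Subgroup.closure (S' : Set G) = M ∧
      ∃ m : ℕ, m * N.index = M.index ∧ 4 * S'.card ≤ (3 * S.card + 12) * m

lemma step6 [Group.ResiduallyFinite G]
    (hV : ∀ a b c d : G, ∃ A1 A2 F : Finset G, Viol {1, a, b} {1, c, d} A1 A2 F) : Step G := by
  classical
  intro N _ _ S hS
  obtain ⟨k, t, hk, ht1, ht2⟩ := exists_blocks S 4 (by norm_num)
  have htN : ∀ p, t p ∈ N := fun p => by
    rcases ht1 p with h | h
    · exact hS ▸ Subgroup.subset_closure h
    · exact h ▸ one_mem N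
  have hcl : Subgroup.closure (Set.range t) = N := by
    refine le_antisymm ((Subgroup.closure_le _).mpr ?_) (hS ▸ Subgroup.closure_mono ?_)
    · rintro _ ⟨p, rfl⟩
      exact htN p
    · exact fun x hx => ht2 x hx
  have hV' : ∀ j : Fin k, ∃ A1 A2 F : Finset G,
      Viol {1, t (j, 0), t (j, 1)} {1, t (j, 2), t (j, 3)} A1 A2 F ∧ ∀ x ∈ F, x ∈ N := by
    intro j
    obtain ⟨A1, A2, F, h⟩ := hV (t (j, 0)) (t (j, 1)) (t (j, 2)) (t (j, 3))
    refine h.restrict N ?_ ?_
    · rintro x (rfl | rfl | rfl)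
      exacts [one_mem N, htN _, htN _]
    · rintro x (rfl | rfl | rfl)
      exacts [one_mem N, htN _, htN _]
  choose A1 A2 F hF hFN using hV'
  obtain ⟨M, hM1, hM2, hM3, hM4⟩ := exists_sep' N F
  let _ : Fintype (G ⧸ M) := Fintype.ofFinite _
  obtain ⟨e0, he0⟩ := Countable.exists_injective_nat ((Fin k × Fin 4) × (G ⧸ M))
  let e : Fin k × Fin 4 → G ⧸ M → ℕ := fun i q => e0 (i, q)
  have he : ∀ i q i' q', e i q = e i' q' → i = i' ∧ q = q' := fun i q i' q' h => by
    simpa using he0 h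
  obtain ⟨S', h1, h2⟩ := schreier N M hM3 t hcl (Kept t (fun i x => e i (x : G ⧸ M)))
    (kept_out M t e) (conn_kept t _)
  refine ⟨M, S', hM1, hM2, h1, (inside N M).card, card_inside hM3, ?_⟩
  set m := (inside N M).card with hm
  set K : Fin k × Fin 4 → ℕ := fun i => ((inside N M).filter
    (fun q => Kept t (fun i x => e i (x : G ⧸ M)) i q.out)).card with hK
  have hKm : ∀ i, K i ≤ m := fun i => Finset.card_filter_le _ _
  have h3 : ∀ j : Fin k, K (j, 0) + K (j, 1) + K (j, 2) + K (j, 3) ≤ 3 * m := by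
    intro j
    obtain ⟨b1, b2, b3⟩ := hF j
    have h4 := average N M hM3 t e he (Finset.univ.image (fun r : Fin 4 => (j, r)))
      (fun p => if p.2.1 < 2 then A1 j else A2 j) (F j) ?_ (hFN j) (hM4 j)
    · rw [Finset.sum_image (fun r _ r' _ h => by simpa using h), Fin.sum_univ_four] at h4
      have h5 : (A1 j).card * K (j, 0) + (A1 j).card * K (j, 1) + (A2 j).card * K (j, 2) +
          (A2 j).card * K (j, 3) ≤ m * (F j).card := by
        simpa using h4
      have c0 := hKm (j, 0)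
      have c1 := hKm (j, 1)
      have c2 := hKm (j, 2)
      have c3 := hKm (j, 3)
      by_contra hc
      have d1 : m < K (j, 0) + K (j, 1) := by omega
      have d2 : m < K (j, 2) + K (j, 3) := by omega
      have d3 : m * (F j).card ≤ m * ((A1 j).card + (A2 j).card) := Nat.mul_le_mul_left _ b3.le
      have d4 : (A1 j).card * (m + 1) ≤ (A1 j).card * (K (j, 0) + K (j, 1)) :=
        Nat.mul_le_mul_left _ d1
      have d5 : (A2 j).card * (m + 1) ≤ (A2 j).card * (K (j, 2) + K (j, 3)) :=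
        Nat.mul_le_mul_left _ d2
      nlinarith
    · intro p hp x hx
      obtain ⟨r, -, rfl⟩ := Finset.mem_image.mp hp
      fin_cases r
      · exact ⟨by simpa using b1 x hx 1 (by simp), b1 x hx _ (by simp)⟩
      · exact ⟨by simpa using b1 x hx 1 (by simp), b1 x hx _ (by simp)⟩
      · exact ⟨by simpa using b2 x hx 1 (by simp), b2 x hx _ (by simp)⟩
      · exact ⟨by simpa using b2 x hx 1 (by simp), b2 x hx _ (by simp)⟩
  have h6 : ∑ i, K i ≤ k * (3 * m) := by
    rw [Fintype.sum_prod_type]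
    refine (Finset.sum_le_sum (g := fun _ => 3 * m) fun j _ => ?_).trans (by simp)
    rw [Fin.sum_univ_four]
    exact h3 j
  have h7 : S'.card ≤ k * (3 * m) := le_trans (by convert h2) h6
  nlinarith [Nat.mul_le_mul_right m hk]

lemma step5 [Group.ResiduallyFinite G] (a : G) (ha : ¬ IsOfFinOrder a)
    (hV : ∀ a c d : G, ∃ A1 A2 F : Finset G, Viol {1, a} {1, c, d} A1 A2 F) : Step G := by
  classical
  intro N _ _ S hS
  obtain ⟨k, t0, hk, ht1, ht2⟩ := exists_blocks S 2 (by norm_num)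
  have hα : a ^ N.index ∈ N := Subgroup.pow_index_mem N a
  have hα' : ¬ IsOfFinOrder (a ^ N.index) := fun h =>
    ha (IsOfFinOrder.of_pow h Subgroup.FiniteIndex.index_ne_zero)
  let t : Option (Fin k × Fin 2) → G := fun o => o.elim (a ^ N.index) t0
  have htN : ∀ p, t p ∈ N := fun p => by
    cases p with
    | none => exact hα
    | some p =>
      rcases ht1 p with h | h
      · exact hS ▸ Subgroup.subset_closure h
      · show t0 p ∈ N
        exact h ▸ one_mem N
  have hcl : Subgroup.closure (Set.range t) = N := by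
    refine le_antisymm ((Subgroup.closure_le _).mpr ?_) (hS ▸ Subgroup.closure_mono ?_)
    · rintro _ ⟨p, rfl⟩
      exact htN p
    · intro x hx
      obtain ⟨p, hp⟩ := ht2 x hx
      exact ⟨some p, hp⟩
  have hV' : ∀ j : Fin k, ∃ A1 A2 F : Finset G,
      Viol {1, t none} {1, t (some (j, 0)), t (some (j, 1))} A1 A2 F ∧ ∀ x ∈ F, x ∈ N := by
    intro j
    obtain ⟨A1, A2, F, h⟩ := hV (t none) (t (some (j, 0))) (t (some (j, 1)))
    refine h.restrict N ?_ ?_
    · rintro x (rfl | rfl)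
      exacts [one_mem N, htN _]
    · rintro x (rfl | rfl | rfl)
      exacts [one_mem N, htN _, htN _]
  choose A1 A2 F hF hFN using hV'
  obtain ⟨M, hM1, hM2, hM3, hM4⟩ := exists_sep' N F
  let _ : Fintype (G ⧸ M) := Fintype.ofFinite _
  obtain ⟨e0, he0⟩ := Countable.exists_injective_nat (Option (Fin k × Fin 2) × (G ⧸ M))
  let e : Option (Fin k × Fin 2) → G ⧸ M → ℕ ×ₗ ℕ := fun i q =>
    toLex (i.elim 0 (fun _ => 1), e0 (i, q))
  have he : ∀ i q i' q', e i q = e i' q' → i = i' ∧ q = q' := fun i q i' q' h => by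
    have := congrArg (fun z => (ofLex z).2) h
    simpa using he0 this
  obtain ⟨S', h1, h2⟩ := schreier N M hM3 t hcl (Kept t (fun i x => e i (x : G ⧸ M)))
    (kept_out M t e) (conn_kept t _)
  refine ⟨M, S', hM1, hM2, h1, (inside N M).card, card_inside hM3, ?_⟩
  set m := (inside N M).card with hm
  set K : Option (Fin k × Fin 2) → ℕ := fun i => ((inside N M).filter
    (fun q => Kept t (fun i x => e i (x : G ⧸ M)) i q.out)).card with hK
  have hK0 : K none = m := by
    simp only [hK, hm]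
    rw [Finset.filter_true_of_mem]
    intro q _
    refine kept_of_infinite t _ none hα' (fun j x y hl => ?_) _
    cases j with
    | none => rfl
    | some j =>
      simp [e, Prod.Lex.toLex_lt_toLex] at hl
  have h3 : ∀ j : Fin k, K (some (j, 0)) + K (some (j, 1)) ≤ m := by
    intro j
    obtain ⟨b1, b2, b3⟩ := hF j
    have h4 := average N M hM3 t e he {none, some (j, 0), some (j, 1)}
      (fun p => p.elim (A1 j) (fun _ => A2 j)) (F j) ?_ (hFN j) (hM4 j)
    · rw [Finset.sum_insert (by simp), Finset.sum_insert (by simp), Finset.sum_singleton] at h4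
      have h5 : (A1 j).card * K none + ((A2 j).card * K (some (j, 0)) +
          (A2 j).card * K (some (j, 1))) ≤ m * (F j).card := h4
      rw [hK0] at h5
      by_contra hc
      have d2 : m + 1 ≤ K (some (j, 0)) + K (some (j, 1)) := by omega
      have d3 : m * ((F j).card + 1) ≤ m * ((A1 j).card + (A2 j).card) :=
        Nat.mul_le_mul_left _ b3
      have d5 : (A2 j).card * (m + 1) ≤ (A2 j).card * (K (some (j, 0)) + K (some (j, 1))) :=
        Nat.mul_le_mul_left _ d2
      have d6 : K (some (j, 0)) ≤ m := Finset.card_filter_le _ _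
      have d7 : K (some (j, 1)) ≤ m := Finset.card_filter_le _ _
      nlinarith
    · intro p hp x hx
      simp only [Finset.mem_insert, Finset.mem_singleton] at hp
      rcases hp with rfl | rfl | rfl
      · exact ⟨by simpa using b1 x hx 1 (by simp), b1 x hx _ (by simp)⟩
      · exact ⟨by simpa using b2 x hx 1 (by simp), b2 x hx _ (by simp)⟩
      · exact ⟨by simpa using b2 x hx 1 (by simp), b2 x hx _ (by simp)⟩
  have h6 : ∑ i, K i ≤ m + k * m := by
    rw [Fintype.sum_option, hK0, Fintype.sum_prod_type]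
    refine Nat.add_le_add_left ((Finset.sum_le_sum (g := fun _ => m) fun j _ => ?_).trans
      (by simp)) _
    rw [Fin.sum_univ_two]
    exact h3 j
  have h7 : S'.card ≤ m + k * m := le_trans (by convert h2) h6
  nlinarith [Nat.mul_le_mul_right m hk]

lemma deepen [Group.ResiduallyFinite G] [Infinite G] (N : Subgroup G) [N.Normal] [N.FiniteIndex]
    (S : Finset G) (hS : Subgroup.closure (S : Set G) = N) (B : ℕ) :
    ∃ (M : Subgroup G) (S' : Finset G), M.Normal ∧ M.FiniteIndex ∧
      Subgroup.closure (S' : Set G) = M ∧ B ≤ M.index ∧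
      ∃ m : ℕ, m * N.index = M.index ∧ S'.card ≤ S.card * m := by
  classical
  obtain ⟨T, hT⟩ := Infinite.exists_subset_card_eq G B
  obtain ⟨M, hM1, hM2, hM3, hM4⟩ := exists_sep' N (fun _ : Unit => T)
  let _ : Fintype (G ⧸ M) := Fintype.ofFinite _
  obtain ⟨S', h1, h2⟩ := schreier N M hM3 (fun s : S => (s : G)) (by simpa using hS)
    (fun _ _ => True) (by simp) (fun i x => Conn.edge trivial)
  refine ⟨M, S', hM1, hM2, h1, ?_, (inside N M).card, card_inside hM3, by simpa using h2⟩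
  rw [← hT, Subgroup.index, Nat.card_eq_fintype_card, ← Finset.card_univ]
  refine Finset.card_le_card_of_injOn (fun x => (x : G ⧸ M)) (fun _ _ => Finset.mem_univ _) ?_
  intro x hx y hy h
  exact hM4 () x hx y hy (QuotientGroup.eq.mp h)

theorem small_ratio [Group.ResiduallyFinite G] (hG : Group.FG G) (h : Step G) (ε : ℝ)
    (hε : 0 < ε) : ∃ (N : Subgroup G) (S : Finset G), N.FiniteIndex ∧
      Subgroup.closure (S : Set G) = N ∧ (S.card : ℝ) ≤ ε * N.index := by
  classical
  rcases finite_or_infinite G with hfin | hinf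
  · exact ⟨⊥, ∅, inferInstance, by simp, by simp; positivity⟩
  by_contra hc
  push Not at hc
  let R : Set ℝ := {r | ∃ (N : Subgroup G) (S : Finset G), N.Normal ∧ N.FiniteIndex ∧
    Subgroup.closure (S : Set G) = N ∧ r = S.card / N.index}
  have hpos : ∀ (N : Subgroup G), N.FiniteIndex → (0 : ℝ) < N.index := fun N hN => by
    exact_mod_cast Nat.pos_of_ne_zero hN.index_ne_zero
  have hlb : ∀ r ∈ R, ε ≤ r := by
    rintro r ⟨N, S, -, h2, h3, rfl⟩
    rw [le_div_iff₀ (hpos N h2)]
    exact (hc N S h2 h3).le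
  obtain ⟨S0, hS0⟩ := Group.fg_def.mp hG
  have hne : R.Nonempty := ⟨_, ⊤, S0, inferInstance, inferInstance, hS0, rfl⟩
  have hρ : ε ≤ sInf R := le_csInf hne hlb
  obtain ⟨r, ⟨N, S, a1, a2, a3, rfl⟩, hr⟩ := exists_lt_of_csInf_lt hne
    (show sInf R < 9 / 8 * sInf R by linarith)
  obtain ⟨B, hB⟩ := exists_nat_gt (24 / ε)
  obtain ⟨N1, S1, b1, b2, b3, b4, m1, b5, b6⟩ := deepen N S a3 B
  obtain ⟨N2, S2, c1, c2, c3, m2, c4, c5⟩ := h N1 b1 b2 S1 b3
  have hle : sInf R ≤ S2.card / N2.index := csInf_le ⟨ε, hlb⟩ ⟨N2, S2, c1, c2, c3, rfl⟩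
  have p0 := hpos N a2
  have p1 := hpos N1 b2
  have p2 := hpos N2 c2
  rw [div_lt_iff₀ p0] at hr
  rw [le_div_iff₀ p2] at hle
  rw [div_lt_iff₀ hε] at hB
  have b4' : (B : ℝ) ≤ N1.index := by exact_mod_cast b4
  have b5' : (m1 : ℝ) * N.index = N1.index := by exact_mod_cast b5
  have b6' : (S1.card : ℝ) ≤ S.card * m1 := by exact_mod_cast b6
  have c4' : (m2 : ℝ) * N1.index = N2.index := by exact_mod_cast c4
  have c5' : 4 * (S2.card : ℝ) ≤ (3 * S1.card + 12) * m2 := by exact_mod_cast c5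
  have hm1 : (0 : ℝ) ≤ m1 := Nat.cast_nonneg _
  have hm2 : (0 : ℝ) < m2 := by
    by_contra hh
    have : (m2 : ℝ) = 0 := le_antisymm (not_lt.mp hh) (Nat.cast_nonneg _)
    rw [this, zero_mul] at c4'
    linarith
  set ρ := sInf R
  have d1 : (S1.card : ℝ) ≤ 9 / 8 * ρ * N1.index := by
    rw [← b5']
    nlinarith
  have d2 : (24 : ℝ) ≤ ρ * N1.index := by nlinarith
  have d3 : 4 * (ρ * N1.index) * m2 ≤ (3 * S1.card + 12) * m2 := by
    rw [← c4'] at hle
    nlinarith
  have d4 := le_of_mul_le_mul_right d3 hm2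
  linarith

end Pool.Agent.H889Z.Tar
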