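import Mathlib

set_option autoImplicit false

/-! Integer triangles, half planes and checkers with soundness proofs. -/

namespace Pool.Agent.H889Z.Tile

abbrev E := EuclideanSpace ℝ (Fin 2)

structure Tr where
  x1 : ℤ
  y1 : ℤ
  x2 : ℤ
  y2 : ℤ
  x3 : ℤ
  y3 : ℤ
  deriving DecidableEq

structure Con where
  a : ℤ
  b : ℤ
  c : ℤ

def Con.holds (k : Con) (x y : ℝ) : Prop := (k.a : ℝ) * x + (k.b : ℝ) * y ≤ (k.c : ℝ)

def Con.neg (k : Con) : Con := ⟨-k.a, -k.b, -k.c⟩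

def Con.at (k : Con) (x y : ℤ) : Bool := decide (k.a * x + k.b * y ≤ k.c)

def Con.atS (k : Con) (x y : ℤ) : Bool := decide (k.a * x + k.b * y < k.c)

def Con.on (k : Con) (t : Tr) : Bool := k.at t.x1 t.y1 && k.at t.x2 t.y2 && k.at t.x3 t.y3

def Con.onS (k : Con) (t : Tr) : Bool := k.atS t.x1 t.y1 && k.atS t.x2 t.y2 && k.atS t.x3 t.y3

def edge (x1 y1 x2 y2 : ℤ) : Con := ⟨y2 - y1, x1 - x2, (y2 - y1) * x1 - (x2 - x1) * y1⟩

def Tr.e1 (t : Tr) : Con := edge t.x1 t.y1 t.x2 t.y2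
def Tr.e2 (t : Tr) : Con := edge t.x2 t.y2 t.x3 t.y3
def Tr.e3 (t : Tr) : Con := edge t.x3 t.y3 t.x1 t.y1

def Tr.det (t : Tr) : ℤ := (t.x2 - t.x1) * (t.y3 - t.y1) - (t.y2 - t.y1) * (t.x3 - t.x1)

def Tr.px (t : Tr) (u v : ℝ) : ℝ := t.x1 + u * (t.x2 - t.x1) + v * (t.x3 - t.x1)
def Tr.py (t : Tr) (u v : ℝ) : ℝ := t.y1 + u * (t.y2 - t.y1) + v * (t.y3 - t.y1)

def Tr.mem (t : Tr) (x y : ℝ) : Prop :=
  ∃ u v : ℝ, 0 ≤ u ∧ 0 ≤ v ∧ u + v ≤ 1 ∧ x = t.px u v ∧ y = t.py u v

def Tr.shift (t : Tr) (m n : ℤ) : Tr :=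
  ⟨t.x1 + m, t.y1 + n, t.x2 + m, t.y2 + n, t.x3 + m, t.y3 + n⟩

lemma Tr.mem_shift (t : Tr) (m n : ℤ) (x y : ℝ) :
    (t.shift m n).mem x y ↔ t.mem (x - m) (y - n) := by
  unfold Tr.mem Tr.shift Tr.px Tr.py
  push_cast
  constructor
  · rintro ⟨u, v, h1, h2, h3, h4, h5⟩
    exact ⟨u, v, h1, h2, h3, by rw [h4]; ring, by rw [h5]; ring⟩
  · rintro ⟨u, v, h1, h2, h3, h4, h5⟩
    exact ⟨u, v, h1, h2, h3, by linarith, by linarith⟩

lemma Con.holds_of_on {k : Con} {t : Tr} (h : k.on t = true) {x y : ℝ} (hm : t.mem x y) :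
    k.holds x y := by
  simp only [Con.on, Con.at, Bool.and_eq_true, decide_eq_true_eq] at h
  obtain ⟨⟨h1, h2⟩, h3⟩ := h
  obtain ⟨u, v, hu, hv, huv, rfl, rfl⟩ := hm
  have h1' : (k.a : ℝ) * t.x1 + k.b * t.y1 ≤ k.c := by exact_mod_cast h1
  have h2' : (k.a : ℝ) * t.x2 + k.b * t.y2 ≤ k.c := by exact_mod_cast h2
  have h3' : (k.a : ℝ) * t.x3 + k.b * t.y3 ≤ k.c := by exact_mod_cast h3
  unfold Con.holds Tr.px Tr.py
  have a1 := mul_le_mul_of_nonneg_left h1' (sub_nonneg.2 huv)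
  have a2 := mul_le_mul_of_nonneg_left h2' hu
  have a3 := mul_le_mul_of_nonneg_left h3' hv
  nlinarith

lemma Con.lt_of_onS {k : Con} {t : Tr} (h : k.onS t = true) {x y : ℝ} (hm : t.mem x y) :
    (k.a : ℝ) * x + (k.b : ℝ) * y < (k.c : ℝ) := by
  simp only [Con.onS, Con.atS, Bool.and_eq_true, decide_eq_true_eq] at h
  obtain ⟨⟨h1, h2⟩, h3⟩ := h
  have h' : (⟨k.a, k.b, k.c - 1⟩ : Con).on t = true := by
    simp only [Con.on, Con.at, Bool.and_eq_true, decide_eq_true_eq]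
    refine ⟨⟨?_, ?_⟩, ?_⟩ <;> omega
  have := Con.holds_of_on h' hm
  unfold Con.holds at this
  push_cast at this
  linarith

lemma Tr.mem_of_edges {t : Tr} (hd : 0 < t.det) {x y : ℝ} (h1 : t.e1.holds x y)
    (h2 : t.e2.holds x y) (h3 : t.e3.holds x y) : t.mem x y := by
  have hd' : (0 : ℝ) < (t.det : ℝ) := by exact_mod_cast hd
  have hdef : (t.det : ℝ) =
      ((t.x2 : ℝ) - t.x1) * (t.y3 - t.y1) - (t.y2 - t.y1) * (t.x3 - t.x1) := by
    unfold Tr.det; push_cast; ring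
  simp only [Tr.e1, Tr.e2, Tr.e3, edge, Con.holds] at h1 h2 h3
  push_cast at h1 h2 h3
  refine ⟨((x - t.x1) * (t.y3 - t.y1) - (y - t.y1) * (t.x3 - t.x1)) / t.det,
    ((t.x2 - t.x1) * (y - t.y1) - (t.y2 - t.y1) * (x - t.x1)) / t.det, ?_, ?_, ?_, ?_, ?_⟩
  · apply div_nonneg _ hd'.le; linarith
  · apply div_nonneg _ hd'.le; linarith
  · rw [← add_div, div_le_one hd', hdef]; linarith
  · unfold Tr.px; field_simp; rw [hdef]; ring
  · unfold Tr.py; field_simp; rw [hdef]; ring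

/-- `k` follows from `k1` and `k2`. -/
def implied2 (k k1 k2 : Con) : Bool :=
  decide (0 < k1.a * k2.b - k2.a * k1.b) && decide (0 ≤ k.a * k2.b - k2.a * k.b) &&
    decide (0 ≤ k1.a * k.b - k.a * k1.b) &&
    decide ((k.a * k2.b - k2.a * k.b) * k1.c + (k1.a * k.b - k.a * k1.b) * k2.c ≤
      (k1.a * k2.b - k2.a * k1.b) * k.c)

lemma holds_of_implied2 {k k1 k2 : Con} (h : implied2 k k1 k2 = true) {x y : ℝ}
    (h1 : k1.holds x y) (h2 : k2.holds x y) : k.holds x y := by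
  simp only [implied2, Bool.and_eq_true, decide_eq_true_eq] at h
  obtain ⟨⟨⟨a1, a2⟩, a3⟩, a4⟩ := h
  have b1 : (0 : ℝ) < (k1.a : ℝ) * k2.b - k2.a * k1.b := by exact_mod_cast a1
  have b2 : (0 : ℝ) ≤ (k.a : ℝ) * k2.b - k2.a * k.b := by exact_mod_cast a2
  have b3 : (0 : ℝ) ≤ (k1.a : ℝ) * k.b - k.a * k1.b := by exact_mod_cast a3
  have b4 : ((k.a : ℝ) * k2.b - k2.a * k.b) * k1.c + (k1.a * k.b - k.a * k1.b) * k2.c ≤
      (k1.a * k2.b - k2.a * k1.b) * k.c := by exact_mod_cast a4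
  unfold Con.holds at *
  have c1 := mul_le_mul_of_nonneg_left h1 b2
  have c2 := mul_le_mul_of_nonneg_left h2 b3
  have : ((k1.a : ℝ) * k2.b - k2.a * k1.b) * (k.a * x + k.b * y) ≤
      ((k1.a : ℝ) * k2.b - k2.a * k1.b) * k.c := by nlinarith
  exact le_of_mul_le_mul_left this b1

def implied (L : List Con) (k : Con) : Bool := L.any fun k1 => L.any fun k2 => implied2 k k1 k2

lemma holds_of_implied {L : List Con} {k : Con} (h : implied L k = true) {x y : ℝ}
    (hL : ∀ c ∈ L, c.holds x y) : k.holds x y := by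
  simp only [implied, List.any_eq_true] at h
  obtain ⟨k1, h1, k2, h2, h⟩ := h
  exact holds_of_implied2 h (hL _ h1) (hL _ h2)

inductive Bsp where
  | leaf : ℕ → Bsp
  | node : Con → Bsp → Bsp → Bsp

def cover (ts : List Tr) : Bsp → List Con → Bool
  | .leaf i, L => match ts[i]? with
      | none => false
      | some t => decide (0 < t.det) && implied L t.e1 && implied L t.e2 && implied L t.e3
  | .node k l r, L => cover ts l (k :: L) && cover ts r (k.neg :: L)

lemma mem_of_cover (ts : List Tr) (x y : ℝ) : ∀ (b : Bsp) (L : List Con), cover ts b L = true →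
    (∀ c ∈ L, c.holds x y) → ∃ t ∈ ts, t.mem x y := by
  intro b
  induction b with
  | leaf i =>
    intro L h hL
    unfold cover at h
    split at h
    · exact absurd h (by simp)
    · rename_i t ht
      simp only [Bool.and_eq_true, decide_eq_true_eq] at h
      obtain ⟨⟨⟨h0, h1⟩, h2⟩, h3⟩ := h
      exact ⟨t, List.mem_of_getElem? ht, Tr.mem_of_edges h0 (holds_of_implied h1 hL)
        (holds_of_implied h2 hL) (holds_of_implied h3 hL)⟩
  | node k l r ihl ihr =>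
    intro L h hL
    unfold cover at h
    simp only [Bool.and_eq_true] at h
    rcases le_total ((k.a : ℝ) * x + k.b * y) k.c with hk | hk
    · refine ihl _ h.1 ?_
      intro c hc
      rcases List.mem_cons.1 hc with rfl | hc
      · exact hk
      · exact hL c hc
    · refine ihr _ h.2 ?_
      intro c hc
      rcases List.mem_cons.1 hc with rfl | hc
      · unfold Con.holds Con.neg; push_cast; linarith
      · exact hL c hc

/-- The two triangles lie on opposite sides of a line. -/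
def Sep (t u : Tr) : Prop := ∃ k : Con, (k.a ≠ 0 ∨ k.b ≠ 0) ∧ k.on t = true ∧ k.neg.on u = true

def sepBy (k : Con) (t u : Tr) : Bool :=
  (decide (k.a ≠ 0) || decide (k.b ≠ 0)) && k.neg.on u && k.on t

def sepB (t u : Tr) : Bool :=
  sepBy t.e1 t u || sepBy t.e2 t u || sepBy t.e3 t u ||
    sepBy u.e1.neg t u || sepBy u.e2.neg t u || sepBy u.e3.neg t u

lemma sep_of_sepBy {k : Con} {t u : Tr} (h : sepBy k t u = true) : Sep t u := by
  simp only [sepBy, Bool.and_eq_true, Bool.or_eq_true, decide_eq_true_eq] at h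
  exact ⟨k, h.1.1, h.2, h.1.2⟩

lemma sep_of_sepB {t u : Tr} (h : sepB t u = true) : Sep t u := by
  simp only [sepB, Bool.or_eq_true] at h
  rcases h with ((((h | h) | h) | h) | h) | h <;> exact sep_of_sepBy h

lemma Sep.shift {t u : Tr} {m n m' n' : ℤ} (h : Sep t (u.shift (m' - m) (n' - n))) :
    Sep (t.shift m n) (u.shift m' n') := by
  obtain ⟨k, hk, h1, h2⟩ := h
  refine ⟨⟨k.a, k.b, k.c + k.a * m + k.b * n⟩, hk, ?_, ?_⟩
  · simp only [Con.on, Con.at, Tr.shift, Bool.and_eq_true, decide_eq_true_eq] at h1 ⊢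
    obtain ⟨⟨a1, a2⟩, a3⟩ := h1
    refine ⟨⟨?_, ?_⟩, ?_⟩ <;> linarith
  · simp only [Con.on, Con.at, Con.neg, Tr.shift, Bool.and_eq_true, decide_eq_true_eq] at h2 ⊢
    obtain ⟨⟨a1, a2⟩, a3⟩ := h2
    refine ⟨⟨?_, ?_⟩, ?_⟩ <;> linarith

lemma isMeagre_line (a b c : ℝ) (h : a ≠ 0 ∨ b ≠ 0) :
    IsMeagre {p : E | a * p 0 + b * p 1 = c} := by
  apply IsNowhereDense.isMeagre
  have hc : IsClosed {p : E | a * p 0 + b * p 1 = c} :=
    isClosed_eq (by fun_prop) continuous_const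
  rw [hc.isNowhereDense_iff, Set.eq_empty_iff_forall_notMem]
  intro p hp
  have hp0 : a * p 0 + b * p 1 = c := by
    have := interior_subset hp
    exact this
  have hcont : Continuous fun s : ℝ => p + s • (!₂[a, b] : E) := by fun_prop
  have h1 : (fun s : ℝ => p + s • (!₂[a, b] : E)) ⁻¹' interior {p : E | a * p 0 + b * p 1 = c}
      ∈ nhds (0 : ℝ) := by
    apply (isOpen_interior.preimage hcont).mem_nhds
    simpa using hp
  obtain ⟨ε, hε, hb⟩ := Metric.mem_nhds_iff.1 h1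
  have h2 : (ε / 2) ∈ Metric.ball (0 : ℝ) ε := by
    simp only [Metric.mem_ball, dist_zero_right, Real.norm_eq_abs]
    rw [abs_of_pos (by linarith)]; linarith
  have h3 := interior_subset (hb h2)
  simp at h3
  have h4 : ε / 2 * (a * a + b * b) = 0 := by linarith
  have h5 : 0 < a * a + b * b := by
    rcases h with h | h
    · have := mul_self_pos.2 h; nlinarith [mul_self_nonneg b]
    · have := mul_self_pos.2 h; nlinarith [mul_self_nonneg a]
  have : 0 < ε / 2 * (a * a + b * b) := by positivity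
  linarith

def Tr.set (t : Tr) : Set E := {p | t.mem (p 0) (p 1)}

lemma Sep.isMeagre {t u : Tr} (h : Sep t u) : IsMeagre (t.set ∩ u.set) := by
  obtain ⟨k, hk, h1, h2⟩ := h
  refine (isMeagre_line (k.a : ℝ) k.b k.c ?_).mono ?_
  · rcases hk with h | h
    · left; exact_mod_cast h
    · right; exact_mod_cast h
  · rintro p ⟨hp1, hp2⟩
    have a1 := Con.holds_of_on h1 hp1
    have a2 := Con.holds_of_on h2 hp2
    unfold Con.holds Con.neg at *
    push_cast at a2
    simp only [Set.mem_ofPred_eq]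
    linarith

/-- The union of a list of triangles. -/
def poly (L : List Tr) : Set E := {p | ∃ t ∈ L, p ∈ t.set}

lemma disjoint_interior {L M : List Tr} (h : ∀ t ∈ L, ∀ u ∈ M, Sep t u) :
    Disjoint (interior (poly L)) (interior (poly M)) := by
  have hm : IsMeagre (poly L ∩ poly M) := by
    have : poly L ∩ poly M = ⋃ i : Fin L.length × Fin M.length,
        ((L.get i.1).set ∩ (M.get i.2).set) := by
      ext p
      simp only [poly, Set.mem_inter_iff, Set.mem_ofPred_eq, Set.mem_iUnion]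
      constructor
      · rintro ⟨⟨t, ht, h1⟩, ⟨u, hu, h2⟩⟩
        obtain ⟨i, rfl⟩ := List.mem_iff_get.1 ht
        obtain ⟨j, rfl⟩ := List.mem_iff_get.1 hu
        exact ⟨(i, j), h1, h2⟩
      · rintro ⟨i, h1, h2⟩
        exact ⟨⟨_, List.get_mem _ _, h1⟩, ⟨_, List.get_mem _ _, h2⟩⟩
    rw [this]
    exact isMeagre_iUnion fun i => (h _ (List.get_mem _ _) _ (List.get_mem _ _)).isMeagre
  rw [Set.disjoint_iff_inter_eq_empty, ← interior_inter]
  have hd : Dense (poly L ∩ poly M)ᶜ := dense_of_mem_residual hm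
  exact interior_eq_empty_iff_dense_compl.2 hd

lemma Tr.convex_set (t : Tr) : Convex ℝ t.set := by
  rintro p ⟨u, v, h1, h2, h3, h4, h5⟩ q ⟨u', v', h1', h2', h3', h4', h5'⟩ a b ha hb hab
  refine ⟨a * u + b * u', a * v + b * v', by positivity, by positivity, by nlinarith, ?_, ?_⟩
  · simp only [PiLp.add_apply, PiLp.smul_apply, smul_eq_mul, h4, h4', Tr.px]
    have : b = 1 - a := by linarith
    subst this; ring
  · simp only [PiLp.add_apply, PiLp.smul_apply, smul_eq_mul, h5, h5', Tr.py]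
    have : b = 1 - a := by linarith
    subst this; ring

end Pool.Agent.H889Z.Tile
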