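import Pool.Agent.H889Z.TileTop

set_option autoImplicit false

/-! The tile, its four positions in a lattice cell, and the finite checks. -/

namespace Pool.Agent.H889Z.Tile

def pairs : List (Tr × Tr) :=
  [(⟨0, 0, 21875, -3125, 21875, 3125⟩, ⟨0, 0, 1, 0, 0, 1⟩), (⟨21875, -3125, 26250, 2500, 21875,
  3125⟩, ⟨1, 0, 1, 1, 0, 1⟩), (⟨21875, -3125, 25900, -4950, 26250, 2500⟩, ⟨1, 0, 2, 0, 1, 1⟩),
  (⟨25900, -4950, 26620, -19840, 26250, 2500⟩, ⟨2, 0, 2, 1, 1, 1⟩), (⟨25900, -4950, 20000,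
  -26500, 26620, -19840⟩, ⟨2, 0, 3, 0, 2, 1⟩), (⟨20000, -26500, -4745, -55160, 26620, -19840⟩,
  ⟨3, 0, 3, 1, 2, 1⟩), (⟨20000, -26500, -20000, -51625, -4745, -55160⟩, ⟨3, 0, 4, 0, 3, 1⟩),
  (⟨-20000, -51625, -4375, -77500, -4745, -55160⟩, ⟨4, 0, 4, 1, 3, 1⟩), (⟨-20000, -51625,
  -25900, -73175, -4375, -77500⟩, ⟨4, 0, 5, 0, 4, 1⟩), (⟨-25900, -73175, -21875, -75000, -4375,
  -77500⟩, ⟨5, 0, 6, 0, 4, 1⟩)]

def T0 : List Tr :=
  [⟨0, 0, 21875, -3125, 21875, 3125⟩, ⟨21875, -3125, 26250, 2500, 21875, 3125⟩, ⟨21875, -3125,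
  25900, -4950, 26250, 2500⟩, ⟨25900, -4950, 26620, -19840, 26250, 2500⟩, ⟨25900, -4950, 20000,
  -26500, 26620, -19840⟩, ⟨20000, -26500, -4745, -55160, 26620, -19840⟩, ⟨20000, -26500, -20000,
  -51625, -4745, -55160⟩, ⟨-20000, -51625, -4375, -77500, -4745, -55160⟩, ⟨-20000, -51625,
  -25900, -73175, -4375, -77500⟩, ⟨-25900, -73175, -21875, -75000, -4375, -77500⟩]

def T1 : List Tr :=
  [⟨0, 0, 20125, -9125, 21875, -3125⟩, ⟨20125, -9125, 25900, -4950, 21875, -3125⟩, ⟨20125,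
  -9125, 23478, -12004, 25900, -4950⟩, ⟨23478, -12004, 20000, -26500, 25900, -4950⟩, ⟨23478,
  -12004, 11780, -31040, 20000, -26500⟩, ⟨11780, -31040, -20000, -51625, 20000, -26500⟩, ⟨11780,
  -31040, -33655, -43960, -20000, -51625⟩, ⟨-33655, -43960, -25900, -73175, -20000, -51625⟩,
  ⟨-33655, -43960, -45353, -62996, -25900, -73175⟩, ⟨-45353, -62996, -42000, -65875, -25900,
  -73175⟩]

def T2 : List Tr :=
  [⟨-21875, -75000, -42000, -65875, -43750, -71875⟩, ⟨-42000, -65875, -47775, -70050, -43750,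
  -71875⟩, ⟨-42000, -65875, -45353, -62996, -47775, -70050⟩, ⟨-45353, -62996, -41875, -48500,
  -47775, -70050⟩, ⟨-45353, -62996, -33655, -43960, -41875, -48500⟩, ⟨-33655, -43960, -1875,
  -23375, -41875, -48500⟩, ⟨-33655, -43960, 11780, -31040, -1875, -23375⟩, ⟨11780, -31040, 4025,
  -1825, -1875, -23375⟩, ⟨11780, -31040, 23478, -12004, 4025, -1825⟩, ⟨23478, -12004, 20125,
  -9125, 4025, -1825⟩]

def T3 : List Tr :=
  [⟨-21875, -75000, -43750, -71875, -43750, -78125⟩, ⟨-43750, -71875, -48125, -77500, -43750,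
  -78125⟩, ⟨-43750, -71875, -47775, -70050, -48125, -77500⟩, ⟨-47775, -70050, -48495, -55160,
  -48125, -77500⟩, ⟨-47775, -70050, -41875, -48500, -48495, -55160⟩, ⟨-41875, -48500, -17130,
  -19840, -48495, -55160⟩, ⟨-41875, -48500, -1875, -23375, -17130, -19840⟩, ⟨-1875, -23375,
  -17500, 2500, -17130, -19840⟩, ⟨-1875, -23375, 4025, -1825, -17500, 2500⟩, ⟨4025, -1825, 0, 0,
  -17500, 2500⟩]

def TD : List Tr :=
  [⟨0, 0, 1, 0, 0, 1⟩, ⟨1, 0, 1, 1, 0, 1⟩, ⟨1, 0, 2, 0, 1, 1⟩, ⟨2, 0, 2, 1, 1, 1⟩, ⟨2, 0, 3, 0,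
  2, 1⟩, ⟨3, 0, 3, 1, 2, 1⟩, ⟨3, 0, 4, 0, 3, 1⟩, ⟨4, 0, 4, 1, 3, 1⟩, ⟨4, 0, 5, 0, 4, 1⟩, ⟨5, 0,
  6, 0, 4, 1⟩]

def T : Fin 4 → List Tr
  | 0 => T0
  | 1 => T1
  | 2 => T2
  | 3 => T3

def sh (m n : ℤ) (t : Tr) : Tr := t.shift (43750 * m) (78125 * n)

def used : List (Fin 4 × ℤ × ℤ) :=
  [(0, 0, -1), (0, 0, 0), (0, 1, 0), (1, 0, 0), (1, 1, 0), (1, 2, 0), (2, 0, 0), (2, 1, 0), (2, 2, 0), (3, 0, 0), (3, 1, -1), (3, 1, 0), (3, 2, 0)]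

def cellList : List Tr := used.flatMap fun q => (T q.1).map (sh q.2.1 q.2.2)

def bsp : Bsp :=
  (.node ⟨227, -411, 25362750⟩ (.node ⟨333, -331, 15431500⟩ (.node ⟨2234, 37, 58735000⟩ (.node
  ⟨201, -320, 12500000⟩ (.node ⟨1533, 2731, -66711500⟩ (.node ⟨4117, -6356, 245788500⟩ (.node
  ⟨2584, -9087, 312500000⟩ (.leaf 66) (.leaf 36)) (.leaf 35)) (.node ⟨227, -411, 15431500⟩
  (.node ⟨149, -7, 3893750⟩ (.node ⟨431, -118, 11747000⟩ (.node ⟨73, 161, 0⟩ (.node ⟨5843, 1551,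
  20687500⟩ (.node ⟨173, 861, -875000⟩ (.node ⟨431, -118, 1950125⟩ (.leaf 98) (.leaf 67)) (.leaf
  99)) (.node ⟨10179, 19453, 5468750⟩ (.node ⟨9518, -5849, 293675000⟩ (.leaf 68) (.node ⟨7248,
  -1739, 191043500⟩ (.leaf 34) (.leaf 33))) (.node ⟨3527, -1211, 97343750⟩ (.node ⟨2879, 3353,
  27343750⟩ (.leaf 69) (.leaf 32)) (.leaf 33)))) (.node ⟨167, -231, 5468750⟩ (.node ⟨24, -7,
  546875⟩ (.node ⟨1, 7, 0⟩ (.leaf 30) (.node ⟨1, 0, 21875⟩ (.leaf 10) (.leaf 11))) (.node ⟨9,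
  -7, 218750⟩ (.leaf 11) (.node ⟨73, 161, 1093750⟩ (.leaf 31) (.leaf 12)))) (.node ⟨3527, -1211,
  97343750⟩ (.leaf 32) (.leaf 33)))) (.leaf 14)) (.node ⟨1489, 72, 38208700⟩ (.leaf 14) (.leaf
  13))) (.leaf 35))) (.leaf 16)) (.node ⟨207, 125, 5746250⟩ (.leaf 117) (.node ⟨173, 861,
  6693750⟩ (.leaf 118) (.leaf 119)))) (.node ⟨7064, -6273, 312500000⟩ (.node ⟨5732, -4949,
  245788500⟩ (.leaf 16) (.leaf 15)) (.node ⟨227, -411, 20359125⟩ (.node ⟨5732, -4949, 250774000⟩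
  (.leaf 115) (.node ⟨201, -320, 15896875⟩ (.node ⟨207, 125, 5746250⟩ (.node ⟨707, 3051,
  -41711500⟩ (.leaf 116) (.leaf 117)) (.node ⟨431, -118, 20806375⟩ (.leaf 118) (.leaf 77)))
  (.node ⟨4117, -6356, 320970875⟩ (.leaf 75) (.node ⟨1533, 2731, 357250⟩ (.leaf 76) (.leaf
  77))))) (.node ⟨9518, -5849, 353206250⟩ (.node ⟨431, -118, 6531125⟩ (.node ⟨333, -331,
  16677875⟩ (.leaf 115) (.leaf 114)) (.node ⟨7248, -1739, 97931500⟩ (.leaf 73) (.leaf 74)))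
  (.node ⟨1533, 2731, -104579125⟩ (.node ⟨5843, 1551, -9196875⟩ (.leaf 48) (.leaf 47)) (.node
  ⟨2584, -9087, 425550000⟩ (.leaf 76) (.leaf 46))))))) (.node ⟨207, 125, -1536875⟩ (.node ⟨1, 7,
  -503125⟩ (.node ⟨149, -7, 4440625⟩ (.node ⟨1, 0, 21875⟩ (.node ⟨1, -7, 546875⟩ (.leaf 110)
  (.leaf 0)) (.node ⟨9, -7, 765625⟩ (.leaf 1) (.leaf 2))) (.node ⟨207, 125, -4019375⟩ (.node
  ⟨2234, 37, 55844375⟩ (.leaf 3) (.leaf 107)) (.node ⟨173, 861, -60571875⟩ (.leaf 108) (.leaf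
  109)))) (.node ⟨5843, 1551, -9196875⟩ (.node ⟨10179, 19453, -1241778125⟩ (.node ⟨167, -231,
  15509375⟩ (.node ⟨2879, 3353, -215840625⟩ (.leaf 72) (.leaf 49)) (.node ⟨24, -7, 503125⟩
  (.leaf 71) (.node ⟨73, 161, -10478125⟩ (.leaf 70) (.leaf 49)))) (.leaf 48)) (.node ⟨173, 861,
  -59915625⟩ (.node ⟨73, 161, -10478125⟩ (.leaf 70) (.leaf 29)) (.node ⟨1533, 2731, -104579125⟩
  (.node ⟨431, -118, 16328000⟩ (.leaf 47) (.leaf 28)) (.leaf 46))))) (.node ⟨333, -331,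
  31246625⟩ (.node ⟨5732, -4949, 496563500⟩ (.node ⟨201, -320, 21293750⟩ (.node ⟨4117, -6356,
  425907250⟩ (.leaf 46) (.leaf 45)) (.node ⟨707, 3051, -140716625⟩ (.leaf 27) (.leaf 26)))
  (.node ⟨7064, -6273, 621550000⟩ (.leaf 25) (.leaf 125))) (.node ⟨9, -7, 896875⟩ (.node ⟨2234,
  37, 85096250⟩ (.leaf 27) (.node ⟨167, -231, 22815625⟩ (.node ⟨431, -118, 25387375⟩ (.node
  ⟨1489, 72, 54106925⟩ (.leaf 123) (.leaf 124)) (.node ⟨10179, 19453, -796446875⟩ (.node ⟨3527,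
  -1211, 224940625⟩ (.leaf 83) (.node ⟨2879, 3353, -89884375⟩ (.leaf 82) (.leaf 59))) (.node
  ⟨9518, -5849, 769618750⟩ (.node ⟨7248, -1739, 415031500⟩ (.leaf 83) (.leaf 84)) (.leaf 58))))
  (.node ⟨73, 161, -8378125⟩ (.node ⟨149, -7, 6409375⟩ (.leaf 123) (.leaf 122)) (.leaf 81))))
  (.node ⟨1, 7, -503125⟩ (.leaf 109) (.leaf 121))))))

def bspD : Bsp :=
  (.node ⟨1, 1, 3⟩ (.node ⟨1, 0, 1⟩ (.node ⟨1, 1, 1⟩ (.leaf 0) (.leaf 1)) (.node ⟨1, 1, 2⟩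
  (.leaf 2) (.node ⟨1, 0, 2⟩ (.leaf 3) (.leaf 4)))) (.node ⟨1, 0, 4⟩ (.node ⟨1, 0, 3⟩ (.leaf 5)
  (.node ⟨1, 1, 4⟩ (.leaf 6) (.leaf 7))) (.node ⟨1, 1, 5⟩ (.leaf 8) (.leaf 9))))

def rect : List Con := [⟨1, 0, 43750⟩, ⟨-1, 0, 0⟩, ⟨0, 1, 0⟩, ⟨0, -1, 78125⟩]

def trap : List Con := [⟨1, 2, 6⟩, ⟨-1, 0, 0⟩, ⟨0, 1, 1⟩, ⟨0, -1, 0⟩]

def box : List Con := [⟨1, 0, 26620⟩, ⟨-1, 0, 48495⟩, ⟨0, 1, 3125⟩, ⟨0, -1, 78125⟩]

def near : List ℤ := [-1, 0, 1]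

def fours : List (Fin 4) := [0, 1, 2, 3]

lemma cover_cell : cover cellList bsp rect = true := by decide +kernel

lemma cover_trap : cover TD bspD trap = true := by decide +kernel

lemma trap_on : (TD.all fun t => trap.all fun k => k.on t) = true := by decide +kernel

lemma box_on : (fours.all fun k => (T k).all fun t => box.all fun c => c.on t) = true := by
  decide +kernel

lemma sep_near : (fours.all fun k => fours.all fun l => near.all fun m => near.all fun n =>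
    (decide (k = l ∧ m = 0 ∧ n = 0) ||
      (T k).all fun t => (T l).all fun u => sepB t (sh m n u))) = true := by
  decide +kernel

def notIn (t : Tr) (x y : ℤ) : Bool :=
  (t.e1.on t && !t.e1.at x y) || (t.e2.on t && !t.e2.at x y) || (t.e3.on t && !t.e3.at x y)

lemma z_near : (fours.all fun k => near.all fun m => near.all fun n =>
    (decide (k = 1 ∧ m = 0 ∧ n = 0) ||
      (T k).all fun t => notIn (sh m n t) (18400) (-23200))) = true := by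
  decide +kernel

def cut : Con := ⟨1, -7, 503125⟩

lemma cut1 : (T1.all fun t => cut.onS t) = true := by decide +kernel

lemma cut2 : (T0.all fun t => cut.neg.on (sh (-1) (-1) t)) = true := by decide +kernel

def isIn (t : Tr) (x y : ℤ) : Bool :=
  decide (0 < t.det) && t.e1.at x y && t.e2.at x y && t.e3.at x y

def chain (ts : List Tr) (s x0 y0 xe ye : ℤ) : List (ℕ × Con × ℤ × ℤ) → ℤ → ℤ → Bool
  | [], x, y => decide (x = xe) && decide (y = ye)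
  | q :: r, x, y => (match ts[q.1]? with
      | none => false
      | some t => isIn t x y && isIn t q.2.2.1 q.2.2.2) &&
      q.2.1.atS x y && q.2.1.atS q.2.2.1 q.2.2.2 && decide (0 ≤ s * q.2.1.a) &&
      decide (q.2.1.a * x0 + q.2.1.b * y0 = q.2.1.c) &&
      chain ts s x0 y0 xe ye r q.2.2.1 q.2.2.2

def steps1 : List (ℕ × Con × ℤ × ℤ) :=
  [(29, ⟨0, -1, 23200⟩, 4025, -1825), (19, ⟨0, -1, 23200⟩, 20125, -9125), (19, ⟨0, -1, 23200⟩,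
  23478, -12004), (18, ⟨19036, -11698, 621656000⟩, 11780, -31040), (16, ⟨0, 1, -23200⟩, -33655,
  -43960), (14, ⟨0, 1, -23200⟩, -45353, -62996), (12, ⟨0, 1, -23200⟩, -42000, -65875), (10, ⟨0,
  1, -23200⟩, -21875, -75000)]

def steps2 : List (ℕ × Con × ℤ × ℤ) :=
  [(0, ⟨0, -1, 23200⟩, 21875, -3125), (2, ⟨0, -1, 23200⟩, 25900, -4950), (4, ⟨-1, 0, -18400⟩,
  20000, -26500), (6, ⟨0, 1, -23200⟩, -20000, -51625), (8, ⟨0, 1, -23200⟩, -25900, -73175), (9,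
  ⟨0, 1, -23200⟩, -21875, -75000)]

lemma chain1 : chain (T0 ++ T2 ++ T3) 1 (18400) (-23200) (-21875) (-75000) steps1 0 0 = true := by
  decide +kernel

lemma chain2 : chain (T0 ++ T2 ++ T3) (-1) (18400) (-23200) (-21875) (-75000) steps2 0 0 = true := by
  decide +kernel

lemma touch0 : (T0.any fun t => isIn t (-21875) (-75000)) = true := by decide +kernel
lemma touch2 : (T2.any fun t => isIn t (-21875) (-75000)) = true := by decide +kernel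
lemma touch3 : (T3.any fun t => isIn t (-21875) (-75000)) = true := by decide +kernel
lemma touchT : (T0.any fun t => isIn (sh (-1) (-1) t) (-21875) (-75000)) = true := by
  decide +kernel

def Tr.app (a b e f : ℤ) (t : Tr) : Tr :=
  ⟨(a * t.x1 - b * t.y1) / 25 + e, (b * t.x1 + a * t.y1) / 25 + f,
   (a * t.x2 - b * t.y2) / 25 + e, (b * t.x2 + a * t.y2) / 25 + f,
   (a * t.x3 - b * t.y3) / 25 + e, (b * t.x3 + a * t.y3) / 25 + f⟩

def Tr.dv (a b : ℤ) (t : Tr) : Bool :=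
  decide ((a * t.x1 - b * t.y1) % 25 = 0) && decide ((b * t.x1 + a * t.y1) % 25 = 0) &&
  decide ((a * t.x2 - b * t.y2) % 25 = 0) && decide ((b * t.x2 + a * t.y2) % 25 = 0) &&
  decide ((a * t.x3 - b * t.y3) % 25 = 0) && decide ((b * t.x3 + a * t.y3) % 25 = 0)

def par : Fin 4 → ℤ × ℤ × ℤ × ℤ
  | 0 => (25, 0, 0, 0)
  | 1 => (24, -7, 0, 0)
  | 2 => (-24, 7, -21875, -75000)
  | 3 => (-25, 0, -21875, -75000)

lemma par_ok : ∀ k : Fin 4, (par k).1 ^ 2 + (par k).2.1 ^ 2 = 625 ∧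
    (T0.all (Tr.dv (par k).1 (par k).2.1)) = true ∧
    T k = T0.map (Tr.app (par k).1 (par k).2.1 (par k).2.2.1 (par k).2.2.2) := by
  decide +kernel

lemma pairs_fst : pairs.map Prod.fst = T0 := by decide +kernel
lemma pairs_snd : pairs.map Prod.snd = TD := by decide +kernel

end Pool.Agent.H889Z.Tile
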