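import Pool.Agent.H889Z.TileData

set_option autoImplicit false

/-! The tile is a closed topological disc. -/

namespace Pool.Agent.H889Z.Tile

def Ker (a b : Tr × Tr) : Prop :=
  ∀ u v u' v' : ℝ, 0 ≤ u → 0 ≤ v → u + v ≤ 1 → 0 ≤ u' → 0 ≤ v' → u' + v' ≤ 1 →
    ((a.1.px u v = b.1.px u' v' ∧ a.1.py u v = b.1.py u' v') ↔
      (a.2.px u v = b.2.px u' v' ∧ a.2.py u v = b.2.py u' v'))

lemma ker_all : ∀ a ∈ pairs, ∀ b ∈ pairs, Ker a b := by
  simp only [pairs, List.forall_mem_cons, List.not_mem_nil, IsEmpty.forall_iff, implies_true,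
    and_true]
  refine ⟨?_, ?_, ?_, ?_, ?_, ?_, ?_, ?_, ?_, ?_⟩ <;>
  refine ⟨?_, ?_, ?_, ?_, ?_, ?_, ?_, ?_, ?_, ?_⟩ <;>
  · intro u v u' v' h1 h2 h3 h4 h5 h6
    simp only [Tr.px, Tr.py]
    push_cast
    constructor <;> rintro ⟨a1, a2⟩ <;> constructor <;> linarith

def Simp : Set (ℝ × ℝ) := {q | 0 ≤ q.1 ∧ 0 ≤ q.2 ∧ q.1 + q.2 ≤ 1}

lemma isCompact_Simp : IsCompact Simp := by
  have h1 : IsCompact (Set.Icc ((0 : ℝ), (0 : ℝ)) (1, 1)) := isCompact_Icc
  refine h1.of_isClosed_subset ?_ ?_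
  · exact (isClosed_le continuous_const continuous_fst).inter
      ((isClosed_le continuous_const continuous_snd).inter
        (isClosed_le (continuous_fst.add continuous_snd) continuous_const))
  · rintro ⟨u, v⟩ ⟨h1, h2, h3⟩
    simp only at h1 h2 h3
    exact ⟨⟨h1, h2⟩, ⟨by simp only; linarith, by simp only; linarith⟩⟩

def par2 (s : Tr × Tr → Tr) (x : Fin pairs.length × Simp) : E :=
  !₂[(s (pairs.get x.1)).px x.2.1.1 x.2.1.2, (s (pairs.get x.1)).py x.2.1.1 x.2.1.2]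

lemma par2_cont (s : Tr × Tr → Tr) : Continuous (par2 s) := by
  rw [continuous_prod_of_discrete_left]
  intro i
  unfold par2 Tr.px Tr.py
  simp only
  fun_prop

lemma range_par2 (s : Tr × Tr → Tr) : Set.range (par2 s) = poly (pairs.map s) := by
  ext p
  constructor
  · rintro ⟨⟨i, ⟨u, v⟩, h1, h2, h3⟩, rfl⟩
    exact ⟨_, List.mem_map_of_mem (List.get_mem _ i), u, v, h1, h2, h3, by simp [par2],
      by simp [par2]⟩
  · rintro ⟨t, ht, u, v, h1, h2, h3, h4, h5⟩
    obtain ⟨a, ha, rfl⟩ := List.mem_map.1 ht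
    obtain ⟨i, rfl⟩ := List.mem_iff_get.1 ha
    refine ⟨⟨i, ⟨u, v⟩, h1, h2, h3⟩, ?_⟩
    ext j
    fin_cases j
    · exact h4.symm
    · exact h5.symm

lemma homeo_D : Nonempty (poly T0 ≃ₜ poly TD) := by
  have : CompactSpace Simp := isCompact_iff_compactSpace.1 isCompact_Simp
  have h := homeo_of_ker (par2_cont Prod.fst) (par2_cont Prod.snd) (by
    rintro ⟨i, ⟨u, v⟩, h1, h2, h3⟩ ⟨j, ⟨u', v'⟩, h4, h5, h6⟩
    have := ker_all _ (List.get_mem _ i) _ (List.get_mem _ j) u v u' v' h1 h2 h3 h4 h5 h6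
    simpa [par2] using this)
  rwa [range_par2, range_par2, pairs_fst, pairs_snd] at h

lemma poly_TD : poly TD = {p : E | p 0 + 2 * p 1 ≤ 6 ∧ 0 ≤ p 0 ∧ p 1 ≤ 1 ∧ 0 ≤ p 1} := by
  ext p
  constructor
  · rintro ⟨t, ht, hp⟩
    have h := trap_on
    simp only [List.all_eq_true] at h
    have h1 := Con.holds_of_on (h t ht ⟨1, 2, 6⟩ (by simp [trap])) hp
    have h2 := Con.holds_of_on (h t ht ⟨-1, 0, 0⟩ (by simp [trap])) hp
    have h3 := Con.holds_of_on (h t ht ⟨0, 1, 1⟩ (by simp [trap])) hp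
    have h4 := Con.holds_of_on (h t ht ⟨0, -1, 0⟩ (by simp [trap])) hp
    simp only [Con.holds] at h1 h2 h3 h4
    push_cast at h1 h2 h3 h4
    exact ⟨by linarith, by linarith, by linarith, by linarith⟩
  · rintro ⟨h1, h2, h3, h4⟩
    refine mem_of_cover TD _ _ bspD trap cover_trap ?_
    simp only [trap, List.forall_mem_cons, List.not_mem_nil, IsEmpty.forall_iff, implies_true,
      and_true, Con.holds]
    push_cast
    exact ⟨by linarith, by linarith, by linarith, by linarith⟩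

lemma disc : Nonempty (poly T0 ≃ₜ Metric.closedBall (0 : E) 1) := by
  obtain ⟨e⟩ := homeo_D
  have hcomp : IsCompact (poly TD) := by
    have : CompactSpace Simp := isCompact_iff_compactSpace.1 isCompact_Simp
    rw [← pairs_snd, ← range_par2]
    exact isCompact_range (par2_cont _)
  have hconv : Convex ℝ (poly TD) := by
    rw [poly_TD]
    rintro p ⟨h1, h2, h3, h4⟩ q ⟨g1, g2, g3, g4⟩ a b ha hb hab
    simp only [Set.mem_ofPred_eq, PiLp.add_apply, PiLp.smul_apply, smul_eq_mul]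
    refine ⟨by nlinarith, by positivity, by nlinarith, by positivity⟩
  have hint : (interior (poly TD)).Nonempty := by
    have ho : IsOpen {p : E | p 0 + 2 * p 1 < 6 ∧ 0 < p 0 ∧ p 1 < 1 ∧ 0 < p 1} := by
      have o1 : IsOpen {p : E | p 0 + 2 * p 1 < 6} := isOpen_lt (by fun_prop) (by fun_prop)
      have o2 : IsOpen {p : E | 0 < p 0} := isOpen_lt (by fun_prop) (by fun_prop)
      have o3 : IsOpen {p : E | p 1 < 1} := isOpen_lt (by fun_prop) (by fun_prop)
      have o4 : IsOpen {p : E | 0 < p 1} := isOpen_lt (by fun_prop) (by fun_prop)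
      exact o1.inter (o2.inter (o3.inter o4))
    refine ⟨!₂[1, 1 / 2], interior_maximal ?_ ho ?_⟩
    · rw [poly_TD]
      rintro p ⟨h1, h2, h3, h4⟩
      exact ⟨h1.le, h2.le, h3.le, h4.le⟩
    · simp only [Set.mem_ofPred_eq]
      norm_num
  obtain ⟨h, -, h2, -⟩ := exists_homeomorph_image_interior_closure_frontier_eq_unitBall hconv hint
    hcomp.isBounded
  rw [hcomp.isClosed.closure_eq] at h2
  exact ⟨e.trans ((h.image (poly TD)).trans (Homeomorph.setCongr h2))⟩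

end Pool.Agent.H889Z.Tile
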