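import Pool.Agent.H889Z.TileDisc

set_option autoImplicit false

/-! The tiling and the tile whose neighbourhood has a hole. -/

namespace Pool.Agent.H889Z.Tile

noncomputable def iso (a b e f : ℝ) (h : a ^ 2 + b ^ 2 = 625) : E ≃ᵢ E where
  toFun p := !₂[(a * p 0 - b * p 1) / 25 + e, (b * p 0 + a * p 1) / 25 + f]
  invFun q := !₂[(a * (q 0 - e) + b * (q 1 - f)) / 25, (-b * (q 0 - e) + a * (q 1 - f)) / 25]
  left_inv p := by
    ext j
    fin_cases j
    · simp; linear_combination (p 0 / 625) * h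
    · simp; linear_combination (p 1 / 625) * h
  right_inv q := by
    ext j
    fin_cases j
    · simp; linear_combination ((q 0 - e) / 625) * h
    · simp; linear_combination ((q 1 - f) / 625) * h
  isometry_toFun := by
    apply Isometry.of_dist_eq
    intro p q
    rw [EuclideanSpace.dist_eq, EuclideanSpace.dist_eq]
    congr 1
    simp only [Fin.sum_univ_two, Real.dist_eq, sq_abs]
    simp
    linear_combination (((p 0 - q 0) ^ 2 + (p 1 - q 1) ^ 2) / 625) * h

lemma cast_div {z : ℤ} (h : z % 25 = 0) : ((z / 25 : ℤ) : ℝ) = (z : ℝ) / 25 := by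
  obtain ⟨w, rfl⟩ := Int.dvd_of_emod_eq_zero h
  rw [Int.mul_ediv_cancel_left _ (by norm_num)]
  push_cast; ring

lemma app_px {a b : ℤ} (e f : ℤ) {t : Tr} (h : t.dv a b = true) (u v : ℝ) :
    (t.app a b e f).px u v = (a * t.px u v - b * t.py u v) / 25 + e ∧
    (t.app a b e f).py u v = (b * t.px u v + a * t.py u v) / 25 + f := by
  simp only [Tr.dv, Bool.and_eq_true, decide_eq_true_eq] at h
  obtain ⟨⟨⟨⟨⟨h1, h2⟩, h3⟩, h4⟩, h5⟩, h6⟩ := h
  simp only [Tr.px, Tr.py, Tr.app, Int.cast_add, cast_div h1, cast_div h2, cast_div h3,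
    cast_div h4, cast_div h5, cast_div h6]
  push_cast
  constructor <;> ring

def tile (k : Fin 4) (m n : ℤ) : Set E := poly ((T k).map (sh m n))

lemma mem_tile {k : Fin 4} {m n : ℤ} {p : E} :
    p ∈ tile k m n ↔ ∃ t ∈ T k, t.mem (p 0 - 43750 * m) (p 1 - 78125 * n) := by
  unfold tile poly
  simp only [Set.mem_ofPred_eq, List.mem_map, exists_exists_and_eq_and, Tr.set, sh, Tr.mem_shift]
  push_cast
  rfl

lemma tile_iso (k : Fin 4) (m n : ℤ) : ∃ f : E ≃ᵢ E, tile k m n = f '' poly T0 := by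
  obtain ⟨h1, h2, h3⟩ := par_ok k
  generalize (par k).1 = a at *
  generalize (par k).2.1 = b at *
  generalize (par k).2.2.1 = e at *
  generalize (par k).2.2.2 = f at *
  have h1' : (a : ℝ) ^ 2 + (b : ℝ) ^ 2 = 625 := by exact_mod_cast h1
  rw [List.all_eq_true] at h2
  refine ⟨iso a b (e + 43750 * m) (f + 78125 * n) h1', ?_⟩
  ext p
  rw [mem_tile, h3]
  constructor
  · rintro ⟨t', ht', u, v, g1, g2, g3, g4, g5⟩
    obtain ⟨t, ht, rfl⟩ := List.mem_map.1 ht'
    obtain ⟨c1, c2⟩ := app_px e f (h2 t ht) u v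
    refine ⟨!₂[t.px u v, t.py u v], ⟨t, ht, u, v, g1, g2, g3, by simp, by simp⟩, ?_⟩
    ext j
    fin_cases j
    · simp [iso]; linarith
    · simp [iso]; linarith
  · rintro ⟨q, ⟨t, ht, u, v, g1, g2, g3, g4, g5⟩, rfl⟩
    obtain ⟨c1, c2⟩ := app_px e f (h2 t ht) u v
    refine ⟨_, List.mem_map_of_mem ht, u, v, g1, g2, g3, ?_, ?_⟩
    · rw [c1, ← g4, ← g5]; simp [iso]; ring
    · rw [c2, ← g4, ← g5]; simp [iso]; ring

lemma covers (p : E) : ∃ k m n, p ∈ tile k m n := by
  set m : ℤ := ⌊p 0 / 43750⌋ with hm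
  set n : ℤ := ⌈p 1 / 78125⌉ with hn
  have a1 := Int.floor_le (p 0 / 43750)
  have a2 := Int.lt_floor_add_one (p 0 / 43750)
  have a3 := Int.le_ceil (p 1 / 78125)
  have a4 := Int.ceil_lt_add_one (p 1 / 78125)
  rw [← hm] at a1 a2
  rw [← hn] at a3 a4
  obtain ⟨t, ht, hp⟩ := mem_of_cover cellList (p 0 - 43750 * m) (p 1 - 78125 * n) bsp rect
    cover_cell (by
      simp only [rect, List.forall_mem_cons, List.not_mem_nil, IsEmpty.forall_iff, implies_true,
        and_true, Con.holds]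
      push_cast
      exact ⟨by linarith, by linarith, by linarith, by linarith⟩)
  obtain ⟨q, -, hq⟩ := List.mem_flatMap.1 ht
  obtain ⟨t', ht', rfl⟩ := List.mem_map.1 hq
  refine ⟨q.1, q.2.1 + m, q.2.2 + n, mem_tile.2 ⟨t', ht', ?_⟩⟩
  rw [sh, Tr.mem_shift] at hp
  push_cast at hp ⊢
  convert hp using 1 <;> ring

lemma mem_fours (k : Fin 4) : k ∈ fours := by fin_cases k <;> simp [fours]

lemma box_facts {k : Fin 4} {t : Tr} (ht : t ∈ T k) :
    (⟨1, 0, 26620⟩ : Con).on t = true ∧ (⟨-1, 0, 48495⟩ : Con).on t = true ∧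
    (⟨0, 1, 3125⟩ : Con).on t = true ∧ (⟨0, -1, 78125⟩ : Con).on t = true := by
  have h := box_on
  simp only [List.all_eq_true] at h
  have h' := h k (mem_fours k) t ht
  exact ⟨h' _ (by simp [box]), h' _ (by simp [box]), h' _ (by simp [box]), h' _ (by simp [box])⟩

lemma sep_rel {k l : Fin 4} {m n : ℤ} (h : ¬ (k = l ∧ m = 0 ∧ n = 0)) {t u : Tr} (ht : t ∈ T k)
    (hu : u ∈ T l) : Sep t (sh m n u) := by
  obtain ⟨a1, a2, a3, a4⟩ := box_facts ht
  obtain ⟨b1, b2, b3, b4⟩ := box_facts hu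
  simp only [Con.on, Con.at, Bool.and_eq_true, decide_eq_true_eq] at b1 b2 b3 b4
  by_cases hm1 : 2 ≤ m
  · refine ⟨_, by simp, a1, ?_⟩
    simp only [Con.on, Con.at, Con.neg, sh, Tr.shift, Bool.and_eq_true, decide_eq_true_eq]
    omega
  by_cases hm2 : m ≤ -2
  · refine ⟨_, by simp, a2, ?_⟩
    simp only [Con.on, Con.at, Con.neg, sh, Tr.shift, Bool.and_eq_true, decide_eq_true_eq]
    omega
  by_cases hn1 : 2 ≤ n
  · refine ⟨_, by simp, a3, ?_⟩
    simp only [Con.on, Con.at, Con.neg, sh, Tr.shift, Bool.and_eq_true, decide_eq_true_eq]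
    omega
  by_cases hn2 : n ≤ -2
  · refine ⟨_, by simp, a4, ?_⟩
    simp only [Con.on, Con.at, Con.neg, sh, Tr.shift, Bool.and_eq_true, decide_eq_true_eq]
    omega
  have hm : m ∈ near := by simp only [near, List.mem_cons, List.not_mem_nil]; omega
  have hn : n ∈ near := by simp only [near, List.mem_cons, List.not_mem_nil]; omega
  have hs := sep_near
  simp only [List.all_eq_true, Bool.or_eq_true, decide_eq_true_eq] at hs
  rcases hs k (mem_fours k) l (mem_fours l) m hm n hn with h' | h'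
  · exact absurd h' h
  · exact sep_of_sepB (h' t ht u hu)

lemma tile_disjoint {k l : Fin 4} {m n m' n' : ℤ} (h : tile k m n ≠ tile l m' n') :
    Disjoint (interior (tile k m n)) (interior (tile l m' n')) := by
  apply disjoint_interior
  intro t' ht' u' hu'
  obtain ⟨t, ht, rfl⟩ := List.mem_map.1 ht'
  obtain ⟨u, hu, rfl⟩ := List.mem_map.1 hu'
  apply Sep.shift
  have := sep_rel (k := k) (l := l) (m := m' - m) (n := n' - n) (by
    rintro ⟨rfl, h2, h3⟩
    apply h
    rw [show m' = m by omega, show n' = n by omega]) ht hu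
  unfold sh at this
  convert this using 2 <;> ring

lemma not_mem_of_notIn {t : Tr} {x y : ℤ} (h : notIn t x y = true) : ¬ t.mem x y := by
  intro hm
  have key : ∀ c : Con, c.on t = true → c.at x y = true := by
    intro c hc
    have := Con.holds_of_on hc hm
    unfold Con.holds at this
    simp only [Con.at, decide_eq_true_eq]
    exact_mod_cast this
  simp only [notIn, Bool.or_eq_true, Bool.and_eq_true, Bool.not_eq_true'] at h
  rcases h with (h | h) | h <;> simp [key _ h.1] at h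

lemma z_tile {k : Fin 4} {m n : ℤ} {p : E} (hp : p ∈ tile k m n) (h0 : p 0 = 18400)
    (h1 : p 1 = -23200) : k = 1 ∧ m = 0 ∧ n = 0 := by
  obtain ⟨t, ht, hm⟩ := mem_tile.1 hp
  obtain ⟨a1, a2, a3, a4⟩ := box_facts ht
  have b1 := Con.holds_of_on a1 hm
  have b2 := Con.holds_of_on a2 hm
  have b3 := Con.holds_of_on a3 hm
  have b4 := Con.holds_of_on a4 hm
  simp only [Con.holds, h0, h1] at b1 b2 b3 b4
  push_cast at b1 b2 b3 b4
  have c1 : (m : ℝ) < 2 := by linarith
  have c2 : (-2 : ℝ) < m := by linarith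
  have c3 : (n : ℝ) < 2 := by linarith
  have c4 : (-2 : ℝ) < n := by linarith
  have d1 : m < 2 := by exact_mod_cast c1
  have d2 : -2 < m := by exact_mod_cast c2
  have d3 : n < 2 := by exact_mod_cast c3
  have d4 : -2 < n := by exact_mod_cast c4
  have hm' : m ∈ near := by simp only [near, List.mem_cons, List.not_mem_nil]; omega
  have hn' : n ∈ near := by simp only [near, List.mem_cons, List.not_mem_nil]; omega
  have hs := z_near
  simp only [List.all_eq_true, Bool.or_eq_true, decide_eq_true_eq] at hs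
  rcases hs k (mem_fours k) m hm' n hn' with h' | h'
  · exact h'
  · exfalso
    apply not_mem_of_notIn (h' t ht)
    rw [sh, Tr.mem_shift]
    rw [h0, h1] at hm
    push_cast at hm ⊢
    exact hm

lemma tile_apart : tile 1 0 0 ∩ tile 0 (-1) (-1) = ∅ := by
  rw [Set.eq_empty_iff_forall_notMem]
  rintro p ⟨hp, t', ht', h2⟩
  obtain ⟨t, ht, h1⟩ := mem_tile.1 hp
  obtain ⟨u, hu, rfl⟩ := List.mem_map.1 ht'
  have c1 := cut1
  have c2 := cut2
  rw [List.all_eq_true] at c1 c2
  have d1 := Con.lt_of_onS (c1 t ht) h1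
  have d2 := Con.holds_of_on (c2 u hu) h2
  simp only [Con.holds, Con.neg] at d1 d2
  push_cast at d1 d2
  simp only [mul_zero, sub_zero] at d1
  linarith

lemma mem_of_isIn {t : Tr} {x y : ℤ} (h : isIn t x y = true) : t.mem x y := by
  simp only [isIn, Con.at, Bool.and_eq_true, decide_eq_true_eq] at h
  obtain ⟨⟨⟨h0, h1⟩, h2⟩, h3⟩ := h
  refine Tr.mem_of_edges h0 ?_ ?_ ?_ <;> unfold Con.holds
  · exact_mod_cast h1
  · exact_mod_cast h2
  · exact_mod_cast h3

noncomputable def pt (x y : ℤ) : E := !₂[(x : ℝ), (y : ℝ)]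

lemma joined_of_chain (ts : List Tr) (s x0 y0 xe ye : ℤ) (hs : s = 1 ∨ s = -1) {U : Set E}
    (hU : ∀ p ∈ poly ts, ¬ (p 1 = y0 ∧ 0 ≤ (s : ℝ) * (p 0 - x0)) → p ∈ U) (he : pt xe ye ∈ U) :
    ∀ (r : List (ℕ × Con × ℤ × ℤ)) (x y : ℤ), chain ts s x0 y0 xe ye r x y = true →
      JoinedIn U (pt x y) (pt xe ye) := by
  intro r
  induction r with
  | nil =>
    intro x y h
    simp only [chain, Bool.and_eq_true, decide_eq_true_eq] at h
    obtain ⟨rfl, rfl⟩ := h
    exact JoinedIn.refl he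
  | cons q r ih =>
    intro x y h
    unfold chain at h
    simp only [Bool.and_eq_true, decide_eq_true_eq] at h
    obtain ⟨⟨⟨⟨⟨h1, h2⟩, h3⟩, h4⟩, h5⟩, h6⟩ := h
    refine JoinedIn.trans ?_ (ih _ _ h6)
    split at h1
    · exact absurd h1 (by simp)
    rename_i t ht
    simp only [Bool.and_eq_true] at h1
    simp only [Con.atS, decide_eq_true_eq] at h2 h3
    have hconv : Convex ℝ (t.set ∩ {p : E | (q.2.1.a : ℝ) * p 0 + q.2.1.b * p 1 < q.2.1.c}) := by
      refine t.convex_set.inter ?_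
      apply convex_halfSpace_lt
      constructor
      · intro p p'; simp; ring
      · intro c p; simp; ring
    have m1 : pt x y ∈ t.set ∩ {p : E | (q.2.1.a : ℝ) * p 0 + q.2.1.b * p 1 < q.2.1.c} := by
      refine ⟨by simpa [pt, Tr.set] using mem_of_isIn h1.1, ?_⟩
      simp only [pt, Set.mem_ofPred_eq]
      simp
      exact_mod_cast h2
    have m2 : pt q.2.2.1 q.2.2.2 ∈
        t.set ∩ {p : E | (q.2.1.a : ℝ) * p 0 + q.2.1.b * p 1 < q.2.1.c} := by
      refine ⟨by simpa [pt, Tr.set] using mem_of_isIn h1.2, ?_⟩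
      simp only [pt, Set.mem_ofPred_eq]
      simp
      exact_mod_cast h3
    refine ((hconv.isPathConnected ⟨_, m1⟩).joinedIn _ m1 _ m2).mono ?_
    rintro p ⟨hp1, hp2⟩
    refine hU p ⟨t, List.mem_of_getElem? ht, hp1⟩ ?_
    rintro ⟨g1, g2⟩
    simp only [Set.mem_ofPred_eq] at hp2
    have h4' : (0 : ℝ) ≤ (s : ℝ) * q.2.1.a := by exact_mod_cast h4
    have h5' : (q.2.1.a : ℝ) * x0 + q.2.1.b * y0 = q.2.1.c := by exact_mod_cast h5
    rw [g1] at hp2
    have := mul_nonneg h4' g2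
    rcases hs with rfl | rfl <;> push_cast at this <;> nlinarith

def tiling : Set (Set E) := {S | ∃ k m n, S = tile k m n}

lemma not_sc : ¬ SimplyConnectedSpace
    (⋃₀ {T' ∈ tiling | (T' ∩ tile 0 (-1) (-1)).Nonempty} : Set E) := by
  set N : Set E := ⋃₀ {T' ∈ tiling | (T' ∩ tile 0 (-1) (-1)).Nonempty} with hN
  have qT : pt (-21875) (-75000) ∈ tile 0 (-1) (-1) := by
    have := touchT
    rw [List.any_eq_true] at this
    obtain ⟨t, ht, h⟩ := this
    exact ⟨_, List.mem_map_of_mem ht, by simpa [pt, Tr.set] using mem_of_isIn h⟩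
  have sub : ∀ k : Fin 4, ((T k).any fun t => isIn t (-21875) (-75000)) = true →
      ∀ t ∈ T k, t.set ⊆ N := by
    intro k hk t ht p hp
    rw [List.any_eq_true] at hk
    obtain ⟨t', ht', h⟩ := hk
    refine ⟨tile k 0 0, ⟨⟨k, 0, 0, rfl⟩, pt (-21875) (-75000), ?_, qT⟩, ?_⟩
    · exact mem_tile.2 ⟨t', ht', by simpa [pt] using mem_of_isIn h⟩
    · exact mem_tile.2 ⟨t, ht, by simpa [Tr.set] using hp⟩
  have sub' : poly (T0 ++ T2 ++ T3) ⊆ N := by
    rintro p ⟨t, ht, hp⟩
    simp only [List.mem_append] at ht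
    rcases ht with (ht | ht) | ht
    · exact sub 0 touch0 t ht hp
    · exact sub 2 touch2 t ht hp
    · exact sub 3 touch3 t ht hp
  have qN : pt (-21875) (-75000) ∈ N :=
    ⟨tile 0 (-1) (-1), ⟨⟨0, -1, -1, rfl⟩, _, qT, qT⟩, qT⟩
  refine not_simplyConnected (x0 := 18400) (y0 := -23200) (a := pt 0 0)
    (b := pt (-21875) (-75000)) ?_ (by simp [pt]) (by simp [pt]; norm_num) ?_ ?_
  · rintro p ⟨S, ⟨⟨k, m, n, rfl⟩, hne⟩, hp⟩ ⟨h0, h1⟩
    obtain ⟨rfl, rfl, rfl⟩ := z_tile hp h0 h1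
    rw [tile_apart] at hne
    exact Set.not_nonempty_empty hne
  · refine joined_of_chain _ 1 18400 (-23200) _ _ (Or.inl rfl) ?_ (Set.mem_inter qN ?_) _ _ _ chain1
    · intro p hp h
      refine ⟨sub' hp, fun h' => h ⟨by rw [h'.1]; norm_num, ?_⟩⟩
      have := h'.2
      push_cast
      linarith
    · simp [pt]
  · refine joined_of_chain _ (-1) 18400 (-23200) _ _ (Or.inr rfl) ?_ (Set.mem_inter qN ?_) _ _ _ chain2
    · intro p hp h
      refine ⟨sub' hp, fun h' => h ⟨by rw [h'.1]; norm_num, ?_⟩⟩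
      have := h'.2
      push_cast
      linarith
    · simp [pt]

end Pool.Agent.H889Z.Tile
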