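import Pool.Agent.H889Z.TileBase

set_option autoImplicit false

/-! Two topological lemmas: equal kernels give homeomorphic ranges, and a winding criterion. -/

namespace Pool.Agent.H889Z.Tile

open Topology

lemma homeo_of_ker {X : Type} [TopologicalSpace X] [CompactSpace X] {f g : X → E}
    (hf : Continuous f) (hg : Continuous g) (h : ∀ x y, f x = f y ↔ g x = g y) :
    Nonempty (Set.range f ≃ₜ Set.range g) := by
  have qf : IsQuotientMap (Set.rangeFactorization f) :=
    (hf.rangeFactorization.isClosedMap).isQuotientMap hf.rangeFactorization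
      Set.rangeFactorization_surjective
  let φ : Set.range f → Set.range g := fun y => ⟨g y.2.choose, _, rfl⟩
  have hφ : ∀ x, φ (Set.rangeFactorization f x) = Set.rangeFactorization g x := by
    intro x
    apply Subtype.ext
    exact (h _ _).1 (Set.rangeFactorization f x).2.choose_spec
  have cφ : Continuous φ := by
    rw [qf.continuous_iff]
    have : φ ∘ Set.rangeFactorization f = Set.rangeFactorization g := funext hφ
    rw [this]
    exact hg.rangeFactorization
  have bφ : Function.Bijective φ := by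
    constructor
    · intro a b hab
      obtain ⟨x, rfl⟩ := Set.rangeFactorization_surjective a
      obtain ⟨y, rfl⟩ := Set.rangeFactorization_surjective b
      rw [hφ, hφ] at hab
      apply Subtype.ext
      exact (h _ _).2 (congrArg Subtype.val hab)
    · intro b
      obtain ⟨x, rfl⟩ := Set.rangeFactorization_surjective b
      exact ⟨_, hφ x⟩
  have : CompactSpace (Set.range f) := isCompact_iff_compactSpace.1 (isCompact_range hf)
  exact ⟨Continuous.homeoOfEquivCompactToT2 (f := Equiv.ofBijective φ bφ) cφ⟩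

/-- If `N` misses the point `(x0, y0)` and two points of `N`, one above and one below it, are
joined in `N` both to the left and to the right of it, then `N` is not simply connected. -/
lemma not_simplyConnected {N : Set E} {x0 y0 : ℝ} (hz : ∀ p ∈ N, ¬ (p 0 = x0 ∧ p 1 = y0))
    {a b : E} (ha : y0 < a 1) (hb : b 1 < y0)
    (h1 : JoinedIn (N ∩ {p | ¬ (p 1 = y0 ∧ x0 ≤ p 0)}) a b)
    (h2 : JoinedIn (N ∩ {p | ¬ (p 1 = y0 ∧ p 0 ≤ x0)}) a b) : ¬ SimplyConnectedSpace N := by
  intro hN
  let w : E → ℂ := fun p => ⟨p 0 - x0, p 1 - y0⟩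
  have cw : Continuous w := by
    have : w = fun p : E => ((p 0 - x0 : ℝ) : ℂ) + ((p 1 - y0 : ℝ) : ℂ) * Complex.I := by
      funext p
      apply Complex.ext <;> simp [w]
    rw [this]
    fun_prop
  have wne : ∀ p : N, w p.1 ≠ 0 := by
    intro p hp
    have h0 := congrArg Complex.re hp
    have h1 := congrArg Complex.im hp
    simp only [w, Complex.zero_re, Complex.zero_im] at h0 h1
    exact hz p.1 p.2 ⟨by linarith, by linarith⟩
  let φ : C(N, {z : ℂ // z ≠ 0}) := ⟨fun p => ⟨w p.1, wne p⟩, by fun_prop⟩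
  have haN : a ∈ N := h1.source_mem.1
  have hbN : b ∈ N := h1.target_mem.1
  obtain ⟨γ1, hγ1⟩ := h1
  obtain ⟨γ2, hγ2⟩ := h2
  let δ1 : Path (⟨a, haN⟩ : N) ⟨b, hbN⟩ :=
    ⟨⟨fun t => ⟨γ1 t, (hγ1 t).1⟩, by fun_prop⟩, by simp, by simp⟩
  let δ2 : Path (⟨a, haN⟩ : N) ⟨b, hbN⟩ :=
    ⟨⟨fun t => ⟨γ2 t, (hγ2 t).1⟩, by fun_prop⟩, by simp, by simp⟩
  have hh : δ1.Homotopic δ2 := SimplyConnectedSpace.paths_homotopic _ _
  have s1 : ∀ t, -w (γ1 t) ∈ Complex.slitPlane := by
    intro t
    have := (hγ1 t).2
    simp only [Set.mem_ofPred_eq, not_and, not_le] at this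
    rw [Complex.mem_slitPlane_iff]
    by_cases hy : γ1 t 1 = y0
    · left; have := this hy; simp [w]; linarith
    · right; simp [w]; intro h; apply hy; linarith
  have s2 : ∀ t, w (γ2 t) ∈ Complex.slitPlane := by
    intro t
    have := (hγ2 t).2
    simp only [Set.mem_ofPred_eq, not_and, not_le] at this
    rw [Complex.mem_slitPlane_iff]
    by_cases hy : γ2 t 1 = y0
    · left; have := this hy; simp [w]; linarith
    · right; simp [w]; intro h; apply hy; linarith
  let Γ1 : C(unitInterval, ℂ) := ⟨fun t => Complex.log (-w (γ1 t)) + Real.pi * Complex.I,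
    ((cw.comp γ1.continuous).neg.clog s1).add continuous_const⟩
  let Γ2 : C(unitInterval, ℂ) := ⟨fun t => Complex.log (w (γ2 t)),
    (cw.comp γ2.continuous).clog s2⟩
  have hia : 0 < (w a).im := by simp [w]; linarith
  have hib : (w b).im < 0 := by simp [w]; linarith
  have e0 : Γ1 0 = Γ2 0 := by
    simp only [Γ1, Γ2, ContinuousMap.coe_mk, Path.source]
    apply Complex.ext
    · simp [Complex.log_re]
    · simp [Complex.log_im, Complex.arg_neg_eq_arg_sub_pi_of_im_pos hia]
  have hrel : Γ1.HomotopicRel Γ2 {0, 1} := by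
    rw [Complex.isCoveringMap_exp.homotopicRel_iff_comp ⟨0, by simp, e0⟩]
    obtain ⟨H⟩ := hh
    have H' := H.compContinuousMap φ
    have H'' : ContinuousMap.HomotopicRel (φ.comp δ1.toContinuousMap)
      (φ.comp δ2.toContinuousMap) {0, 1} := ⟨H'⟩
    convert H'' using 1
    · ext t
      have hne : -w (γ1 t) ≠ 0 := Complex.slitPlane_ne_zero (s1 t)
      simp [Γ1, φ, δ1, Complex.exp_add, Complex.exp_log hne]
    · ext t
      have hne : w (γ2 t) ≠ 0 := Complex.slitPlane_ne_zero (s2 t)
      simp [Γ2, φ, δ2, Complex.exp_log hne]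
  obtain ⟨H⟩ := hrel
  have e1 : Γ1 1 = Γ2 1 := by
    rw [← H.eq_fst 0 (Or.inr rfl), ← H.eq_snd 0 (Or.inr rfl)]
  simp only [Γ1, Γ2, ContinuousMap.coe_mk, Path.target] at e1
  have e2 := congrArg Complex.im e1
  simp [Complex.log_im, Complex.arg_neg_eq_arg_add_pi_of_im_neg hib] at e2
  have := Real.pi_pos
  linarith

end Pool.Agent.H889Z.Tile
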